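import Mathlib
import Pool.Agent.H710R2.DP.Final

/-!
Distance to the commutant: if `T` almost commutes with the unit ball of a von Neumann algebra, it is
close to the commutant, with a universal constant. From the solution of the derivation problem.
-/

set_option autoImplicit false

open scoped InnerProductSpace

namespace Pool.Agent.R298.CC

open H759R2.Kad H710R2.DP

/-- Operators almost commuting with a von Neumann algebra are close to its commutant. -/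
theorem exists_near_commutant : ∃ K : ℝ, 1 ≤ K ∧ ∀ (H : Type) [NormedAddCommGroup H]
    [InnerProductSpace ℂ H] [CompleteSpace H] (M : VonNeumannAlgebra H) (T : H →L[ℂ] H) (d : ℝ),
    0 < d → (∀ x ∈ M, ‖T * x - x * T‖ ≤ d * ‖x‖) →
    ∃ y ∈ M.commutant, ‖T - y‖ ≤ K * d := by
  obtain ⟨C, hC, hW⟩ := fin_W
  refine ⟨1 + C, by linarith, ?_⟩
  intro H _ _ _ M T d hd hT
  letI : PartialOrder M.toStarSubalgebra := CStarAlgebra.spectralOrder M.toStarSubalgebra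
  haveI : StarOrderedRing M.toStarSubalgebra :=
    CStarAlgebra.spectralOrderedRing M.toStarSubalgebra
  let E : M.toStarSubalgebra →ₗ[ℂ] (H →L[ℂ] H) :=
    { toFun := fun x => ((d⁻¹ : ℝ) : ℂ) • (T * (x : H →L[ℂ] H) - (x : H →L[ℂ] H) * T)
      map_add' := fun x y => by
        rw [← smul_add]
        congr 1
        show T * ((x : H →L[ℂ] H) + y) - ((x : H →L[ℂ] H) + y) * T = _
        noncomm_ring
      map_smul' := fun r x => by
        rw [RingHom.id_apply, smul_comm r]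
        congr 1
        show T * (r • (x : H →L[ℂ] H)) - (r • (x : H →L[ℂ] H)) * T = _
        rw [mul_smul_comm, smul_mul_assoc, smul_sub] }
  have hEa : ∀ x, E x = ((d⁻¹ : ℝ) : ℂ) • (T * (x : H →L[ℂ] H) - (x : H →L[ℂ] H) * T) :=
    fun x => rfl
  have hE : IsDerB (inc M) E 1 := by
    refine ⟨fun a b => ?_, fun a => ?_⟩
    · rw [hEa, hEa, hEa, mul_smul_comm, smul_mul_assoc, ← smul_add]
      congr 1
      change T * ((a : H →L[ℂ] H) * (b : H →L[ℂ] H)) - ((a : H →L[ℂ] H) * (b : H →L[ℂ] H)) * T =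
        (a : H →L[ℂ] H) * (T * (b : H →L[ℂ] H) - (b : H →L[ℂ] H) * T) +
        (T * (a : H →L[ℂ] H) - (a : H →L[ℂ] H) * T) * (b : H →L[ℂ] H)
      noncomm_ring
    · rw [hEa, norm_smul]
      have h1 := hT a a.2
      have h2 : ‖((d⁻¹ : ℝ) : ℂ)‖ = d⁻¹ := by
        rw [Complex.norm_real, Real.norm_eq_abs, abs_of_pos (inv_pos.2 hd)]
      rw [h2, one_mul]
      calc d⁻¹ * ‖T * (a : H →L[ℂ] H) - (a : H →L[ℂ] H) * T‖ ≤ d⁻¹ * (d * ‖(a : H →L[ℂ] H)‖) :=
            mul_le_mul_of_nonneg_left h1 (inv_pos.2 hd).le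
        _ = ‖(a : H →L[ℂ] H)‖ := by rw [← mul_assoc, inv_mul_cancel₀ hd.ne', one_mul]
        _ = ‖a‖ := rfl
  have hlvl : ∀ m, LvlBd (uD (inc M) E) m (1 + C * 1) := fun m =>
    dp_uD H M.toStarSubalgebra (inc M) E _ m (by linarith) (hW H M E 1 zero_le_one hE m)
  obtain ⟨hh1, _⟩ := prove4_dhom M.toStarSubalgebra H (inc M) E hE.leib 1 zero_le_one hE.bound
  obtain ⟨S, S', hSS', hS'S, hn, hn', hst⟩ := final_similar M.toStarSubalgebra (HH (Fin 2) H)
    (uD (inc M) E) hh1 (1 + C * 1) (by linarith) hlvl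
  obtain ⟨T₀, hT₀, hT₀'⟩ := prove4_dinner M.toStarSubalgebra H (inc M) E hE.leib S S' hSS' hS'S hst
  have hT₀n : ‖T₀‖ ≤ 1 + C := by
    refine hT₀.trans ?_
    rw [mul_one] at hn hn'
    nlinarith [sq_nonneg (‖S‖ - ‖S'‖)]
  refine ⟨T - ((d : ℝ) : ℂ) • T₀, ?_, ?_⟩
  · rw [VonNeumannAlgebra.mem_commutant_iff]
    intro x hx
    have h1 := hT₀' ⟨x, hx⟩
    rw [hEa] at h1
    change ((d⁻¹ : ℝ) : ℂ) • (T * x - x * T) = T₀ * x - x * T₀ at h1
    have h2 : T * x - x * T = ((d : ℝ) : ℂ) • (T₀ * x - x * T₀) := by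
      rw [← h1, smul_smul, ← Complex.ofReal_mul, mul_inv_cancel₀ hd.ne', Complex.ofReal_one,
        one_smul]
    rw [mul_sub, sub_mul, mul_smul_comm, smul_mul_assoc, sub_eq_sub_iff_sub_eq_sub]
    rw [smul_sub] at h2
    rw [← neg_sub (T * x) (x * T), h2, neg_sub]
  · rw [sub_sub_cancel, norm_smul, Complex.norm_real, Real.norm_eq_abs, abs_of_pos hd, mul_comm]
    exact mul_le_mul_of_nonneg_right hT₀n hd.le

/-- Near inclusions of unit balls. -/
def Near {H : Type} [NormedAddCommGroup H] [InnerProductSpace ℂ H] [CompleteSpace H] (γ : ℝ)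
    (M N : VonNeumannAlgebra H) : Prop :=
  ∀ x ∈ M, ‖x‖ ≤ 1 → ∃ y ∈ N, ‖x - y‖ ≤ γ

theorem Near.norm {H : Type} [NormedAddCommGroup H] [InnerProductSpace ℂ H] [CompleteSpace H]
    {γ : ℝ} {M N : VonNeumannAlgebra H} (h : Near γ M N) {x : H →L[ℂ] H} (hx : x ∈ M) :
    ∃ y ∈ N, ‖x - y‖ ≤ γ * ‖x‖ := by
  rcases eq_or_ne x 0 with rfl | h0
  · exact ⟨0, zero_mem N, by simp⟩
  · have hn : 0 < ‖x‖ := norm_pos_iff.2 h0
    obtain ⟨y, hy, hd⟩ := h (((‖x‖⁻¹ : ℝ) : ℂ) • x) (M.toStarSubalgebra.smul_mem hx _) (by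
      rw [norm_smul, Complex.norm_real, Real.norm_eq_abs, abs_of_pos (inv_pos.2 hn),
        inv_mul_cancel₀ hn.ne'])
    refine ⟨((‖x‖ : ℝ) : ℂ) • y, N.toStarSubalgebra.smul_mem hy _, ?_⟩
    have e : x - ((‖x‖ : ℝ) : ℂ) • y = ((‖x‖ : ℝ) : ℂ) • (((‖x‖⁻¹ : ℝ) : ℂ) • x - y) := by
      rw [smul_sub, smul_smul, ← Complex.ofReal_mul, mul_inv_cancel₀ hn.ne', Complex.ofReal_one,
        one_smul]
    rw [e, norm_smul, Complex.norm_real, Real.norm_eq_abs, abs_of_pos hn, mul_comm]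
    exact mul_le_mul_of_nonneg_right hd hn.le

/-- Commutants of close algebras are close. -/
theorem exists_near_of_near : ∃ K : ℝ, 1 ≤ K ∧ ∀ (H : Type) [NormedAddCommGroup H]
    [InnerProductSpace ℂ H] [CompleteSpace H] (M N : VonNeumannAlgebra H) (γ : ℝ),
    0 < γ → Near γ M N → Near (K * γ) N.commutant M.commutant := by
  obtain ⟨K, hK, h⟩ := exists_near_commutant
  refine ⟨2 * K, by linarith, ?_⟩
  intro H _ _ _ M N γ hγ hMN T hT hT1
  obtain ⟨y, hy, hd⟩ := h H M T (2 * γ) (by linarith) (by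
    intro x hx
    obtain ⟨z, hz, hxz⟩ := hMN.norm hx
    have e : T * x - x * T = T * (x - z) - (x - z) * T := by
      have : z * T = T * z := VonNeumannAlgebra.mem_commutant_iff.1 hT z hz
      rw [mul_sub, sub_mul, this]
      abel
    rw [e]
    calc ‖T * (x - z) - (x - z) * T‖ ≤ ‖T * (x - z)‖ + ‖(x - z) * T‖ := norm_sub_le _ _
      _ ≤ ‖T‖ * ‖x - z‖ + ‖x - z‖ * ‖T‖ := add_le_add (norm_mul_le _ _) (norm_mul_le _ _)
      _ ≤ 1 * (γ * ‖x‖) + (γ * ‖x‖) * 1 := by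
          have h1 : ‖T‖ * ‖x - z‖ ≤ 1 * (γ * ‖x‖) :=
            mul_le_mul hT1 hxz (norm_nonneg _) zero_le_one
          have h2 : ‖x - z‖ * ‖T‖ ≤ (γ * ‖x‖) * 1 :=
            mul_le_mul hxz hT1 (norm_nonneg _) (by positivity)
          linarith
      _ = 2 * γ * ‖x‖ := by ring)
  refine ⟨y, hy, hd.trans (le_of_eq (by ring))⟩

end Pool.Agent.R298.CC
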