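import Mathlib
import Pool.Agent.H464R3.Cocycle

/-!
Invariant means of bounded operator valued functions on commutative groups.
-/

set_option autoImplicit false
set_option linter.unusedSectionVars false
set_option linter.unusedVariables false

open scoped InnerProductSpace ComplexConjugate

namespace Pool.Agent.R298.CC

/-- bounded complex valued functions -/
def BddC {G : Type} (f : G → ℂ) : Prop := ∃ C : ℝ, ∀ x, ‖f x‖ ≤ C

/-- invariant complex means -/
structure CMean {G : Type} [CommGroup G] (m : (G → ℂ) → ℂ) : Prop where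
  add : ∀ f g, BddC f → BddC g → m (fun x => f x + g x) = m f + m g
  smul : ∀ (c : ℂ) f, BddC f → m (fun x => c * f x) = c * m f
  const : ∀ c, m (fun _ => c) = c
  bound : ∀ f C, (∀ x, ‖f x‖ ≤ C) → ‖m f‖ ≤ C
  inv : ∀ f a, BddC f → m (fun x => f (a * x)) = m f
  cj : ∀ f, BddC f → m (fun x => conj (f x)) = conj (m f)

open Pool.Agent.H464R3.Info in
theorem exists_cmean (G : Type) [CommGroup G] : ∃ m : (G → ℂ) → ℂ, CMean m := by
  obtain ⟨M, hM⟩ := exists_meanOn (Additive G)
  let re : (G → ℂ) → (Additive G → ℝ) := fun f x => (f x.toMul).re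
  let im : (G → ℂ) → (Additive G → ℝ) := fun f x => (f x.toMul).im
  have bre : ∀ f, BddC f → Gardner.Bdd (re f) := by
    rintro f ⟨C, hC⟩
    exact ⟨C, fun x => (Complex.abs_re_le_norm _).trans (hC _)⟩
  have bim : ∀ f, BddC f → Gardner.Bdd (im f) := by
    rintro f ⟨C, hC⟩
    exact ⟨C, fun x => (Complex.abs_im_le_norm _).trans (hC _)⟩
  -- real scalars
  have hsm : ∀ (r : ℝ) (f : Additive G → ℝ), Gardner.Bdd f → M (fun x => r * f x) = r * M f := by
    intro r f hf
    let φ : ℝ →+ ℝ := AddMonoidHom.mk' (fun r => M (fun x => r * f x)) (by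
      intro a b
      have h1 : Gardner.Bdd (fun x => a * f x) := by
        obtain ⟨C, hC⟩ := hf
        exact ⟨|a| * C, fun x => by
          rw [abs_mul]; exact mul_le_mul_of_nonneg_left (hC x) (abs_nonneg _)⟩
      have h2 : Gardner.Bdd (fun x => b * f x) := by
        obtain ⟨C, hC⟩ := hf
        exact ⟨|b| * C, fun x => by
          rw [abs_mul]; exact mul_le_mul_of_nonneg_left (hC x) (abs_nonneg _)⟩
      rw [← hM.add' h1 h2]
      congr 1
      funext x
      ring)
    obtain ⟨C, hC⟩ := hf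
    have h := additive_linear_of_bound φ C (fun x => by
      refine hM.bound _ _ (fun y => ?_)
      rw [abs_mul, mul_comm]
      exact mul_le_mul_of_nonneg_right (hC y) (abs_nonneg _)) r
    have e1 : φ r = M (fun x => r * f x) := rfl
    have e2 : φ 1 = M f := by
      show M (fun x => 1 * f x) = M f
      congr 1
      funext x
      ring
    rw [← e1, h, e2]
  let m : (G → ℂ) → ℂ := fun f => (M (re f) : ℂ) + (M (im f) : ℂ) * Complex.I
  have hadd : ∀ f g, BddC f → BddC g → m (fun x => f x + g x) = m f + m g := by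
    intro f g hf hg
    have e1 : re (fun x => f x + g x) = fun x => re f x + re g x := by
      funext x; exact Complex.add_re _ _
    have e2 : im (fun x => f x + g x) = fun x => im f x + im g x := by
      funext x; exact Complex.add_im _ _
    show (M (re (fun x => f x + g x)) : ℂ) + (M (im (fun x => f x + g x)) : ℂ) * Complex.I = _
    rw [e1, e2, hM.add' (bre f hf) (bre g hg), hM.add' (bim f hf) (bim g hg)]
    show _ = ((M (re f) : ℂ) + (M (im f) : ℂ) * Complex.I) +
      ((M (re g) : ℂ) + (M (im g) : ℂ) * Complex.I)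
    push_cast
    ring
  have hsmul : ∀ (c : ℂ) f, BddC f → m (fun x => c * f x) = c * m f := by
    intro c f hf
    have e1 : re (fun x => c * f x) = fun x => c.re * re f x - c.im * im f x := by
      funext x; exact Complex.mul_re _ _
    have e2 : im (fun x => c * f x) = fun x => c.re * im f x + c.im * re f x := by
      funext x; exact Complex.mul_im _ _
    have bs : ∀ (r : ℝ) (f : Additive G → ℝ), Gardner.Bdd f → Gardner.Bdd (fun x => r * f x) := by
      rintro r f ⟨C, hC⟩
      exact ⟨|r| * C, fun x => by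
        rw [abs_mul]; exact mul_le_mul_of_nonneg_left (hC x) (abs_nonneg _)⟩
    show (M (re (fun x => c * f x)) : ℂ) + (M (im (fun x => c * f x)) : ℂ) * Complex.I = _
    rw [e1, e2, hM.sub' (bs _ _ (bre f hf)) (bs _ _ (bim f hf)),
      hM.add' (bs _ _ (bim f hf)) (bs _ _ (bre f hf)), hsm _ _ (bre f hf), hsm _ _ (bim f hf),
      hsm _ _ (bre f hf), hsm _ _ (bim f hf)]
    show _ = c * ((M (re f) : ℂ) + (M (im f) : ℂ) * Complex.I)
    apply Complex.ext
    · simp
    · simp
  have hconst : ∀ c, m (fun _ => c) = c := by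
    intro c
    show (M (fun _ => c.re) : ℂ) + (M (fun _ => c.im) : ℂ) * Complex.I = c
    rw [hM.const, hM.const]
    exact Complex.re_add_im c
  refine ⟨m, hadd, hsmul, hconst, ?_, ?_, ?_⟩
  · intro f C hC
    have hC0 : 0 ≤ C := (norm_nonneg _).trans (hC 1)
    have hf : BddC f := ⟨C, hC⟩
    rcases eq_or_ne (m f) 0 with h0 | h0
    · rw [h0, norm_zero]
      exact hC0
    · -- rotate
      let c : ℂ := conj (m f) / ‖m f‖
      have hn : (‖m f‖ : ℂ) ≠ 0 := by
        exact_mod_cast norm_ne_zero_iff.2 h0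
      have hc : ‖c‖ = 1 := by
        simp only [c, norm_div, RCLike.norm_conj, Complex.norm_real, norm_norm]
        exact div_self (norm_ne_zero_iff.2 h0)
      have e1 : m (fun x => c * f x) = (‖m f‖ : ℂ) := by
        rw [hsmul c f hf]
        have : conj (m f) * m f = (‖m f‖ : ℂ) ^ 2 := Complex.conj_mul' _
        simp only [c]
        rw [div_mul_eq_mul_div, this, sq, mul_div_assoc, div_self hn, mul_one]
      have e2 : ‖m f‖ = M (re (fun x => c * f x)) := by
        have h1 : (m (fun x => c * f x)).re = M (re (fun x => c * f x)) := by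
          show ((M (re (fun x => c * f x)) : ℂ) + (M (im (fun x => c * f x)) : ℂ) * Complex.I).re = _
          simp
        rw [← h1, e1, Complex.ofReal_re]
      rw [e2]
      refine (le_abs_self _).trans (hM.bound _ _ (fun x => ?_))
      refine (Complex.abs_re_le_norm _).trans ?_
      rw [norm_mul, hc, one_mul]
      exact hC _
  · intro f a hf
    show (M (re (fun x => f (a * x))) : ℂ) + (M (im (fun x => f (a * x))) : ℂ) * Complex.I = _
    have e1 : re (fun x => f (a * x)) = fun x => re f (Additive.ofMul a + x) := rfl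
    have e2 : im (fun x => f (a * x)) = fun x => im f (Additive.ofMul a + x) := rfl
    rw [e1, e2, hM.inv _ _ (bre f hf), hM.inv _ _ (bim f hf)]
  · intro f hf
    have e1 : re (fun x => conj (f x)) = re f := by
      funext x; exact Complex.conj_re _
    have e2 : im (fun x => conj (f x)) = fun x => - im f x := by
      funext x; exact Complex.conj_im _
    show (M (re (fun x => conj (f x))) : ℂ) + (M (im (fun x => conj (f x))) : ℂ) * Complex.I = _
    rw [e1, e2, hM.neg' (bim f hf)]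
    show _ = conj ((M (re f) : ℂ) + (M (im f) : ℂ) * Complex.I)
    apply Complex.ext
    · simp
    · simp

section form

variable {H K : Type} [NormedAddCommGroup H] [InnerProductSpace ℂ H] [CompleteSpace H]
  [NormedAddCommGroup K] [InnerProductSpace ℂ K]

/-- Bounded sesquilinear forms are given by operators. -/
theorem exists_op_of_form (B : K → H → ℂ) (C : ℝ) (hC : 0 ≤ C)
    (add_l : ∀ ξ ξ' η, B (ξ + ξ') η = B ξ η + B ξ' η) (smul_l : ∀ (c : ℂ) ξ η, B (c • ξ) η = c * B ξ η)
    (add_r : ∀ ξ η η', B ξ (η + η') = B ξ η + B ξ η')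
    (smul_r : ∀ (c : ℂ) ξ η, B ξ (c • η) = conj c * B ξ η)
    (hb : ∀ ξ η, ‖B ξ η‖ ≤ C * ‖ξ‖ * ‖η‖) :
    ∃ T : K →L[ℂ] H, ‖T‖ ≤ C ∧ ∀ ξ η, ⟪η, T ξ⟫_ℂ = B ξ η := by
  let ℓ : K → (H →L[ℂ] ℂ) := fun ξ => LinearMap.mkContinuous
    { toFun := fun η => conj (B ξ η)
      map_add' := fun η η' => by rw [add_r, map_add]
      map_smul' := fun c η => by
        rw [smul_r, map_mul, Complex.conj_conj, RingHom.id_apply, smul_eq_mul] }
    (C * ‖ξ‖) (fun η => by
      show ‖conj (B ξ η)‖ ≤ _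
      rw [RCLike.norm_conj]
      exact hb ξ η)
  let t : K → H := fun ξ => (InnerProductSpace.toDual ℂ H).symm (ℓ ξ)
  have ht : ∀ ξ η, ⟪η, t ξ⟫_ℂ = B ξ η := by
    intro ξ η
    have h1 : ⟪t ξ, η⟫_ℂ = ℓ ξ η := InnerProductSpace.toDual_symm_apply
    rw [← inner_conj_symm, h1]
    show conj (conj (B ξ η)) = B ξ η
    exact Complex.conj_conj _
  have hbd : ∀ ξ, ‖t ξ‖ ≤ C * ‖ξ‖ := by
    intro ξ
    have h1 : ‖t ξ‖ ^ 2 ≤ C * ‖ξ‖ * ‖t ξ‖ := by
      have h2 : ‖t ξ‖ ^ 2 = ‖⟪t ξ, t ξ⟫_ℂ‖ := by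
        rw [inner_self_eq_norm_sq_to_K]
        simp
      rw [h2, ht]
      exact hb _ _
    rcases (norm_nonneg (t ξ)).eq_or_lt with h0 | h0
    · rw [← h0]
      positivity
    · have : ‖t ξ‖ * ‖t ξ‖ ≤ C * ‖ξ‖ * ‖t ξ‖ := by rw [← sq]; exact h1
      exact le_of_mul_le_mul_right this h0
  let T : K →L[ℂ] H := LinearMap.mkContinuous
    { toFun := t
      map_add' := fun ξ ξ' => by
        refine ext_inner_left ℂ fun η => ?_
        rw [inner_add_right, ht, ht, ht, add_l]
      map_smul' := fun c ξ => by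
        refine ext_inner_left ℂ fun η => ?_
        rw [RingHom.id_apply, inner_smul_right, ht, ht, smul_l] }
    C hbd
  exact ⟨T, LinearMap.mkContinuous_norm_le _ hC _, ht⟩

end form

section op

variable {G : Type} [CommGroup G] {H : Type} [NormedAddCommGroup H] [InnerProductSpace ℂ H]
  [CompleteSpace H]

/-- bounded operator valued functions -/
def BddO {G : Type} (f : G → (H →L[ℂ] H)) : Prop := ∃ C : ℝ, ∀ x, ‖f x‖ ≤ C

/-- `m` is the operator mean of `cm`. -/
structure OpMean (cm : (G → ℂ) → ℂ) (m : (G → (H →L[ℂ] H)) → (H →L[ℂ] H)) : Prop where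
  cmean : CMean cm
  inner : ∀ f, BddO f → ∀ ξ η : H, ⟪η, m f ξ⟫_ℂ = cm (fun g => ⟪η, f g ξ⟫_ℂ)

lemma BddO.bdd {f : G → (H →L[ℂ] H)} (hf : BddO f) (ξ η : H) :
    BddC (fun g => ⟪η, f g ξ⟫_ℂ) := by
  obtain ⟨C, hC⟩ := hf
  refine ⟨‖η‖ * (C * ‖ξ‖), fun g => ?_⟩
  refine (norm_inner_le_norm _ _).trans (mul_le_mul_of_nonneg_left ?_ (norm_nonneg _))
  exact ((f g).le_opNorm _).trans (mul_le_mul_of_nonneg_right (hC g) (norm_nonneg _))

variable (G H) in
theorem exists_opMean : ∃ (cm : (G → ℂ) → ℂ) (m : (G → (H →L[ℂ] H)) → (H →L[ℂ] H)),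
    OpMean cm m := by
  classical
  obtain ⟨cm, hcm⟩ := exists_cmean G
  have key : ∀ f : G → (H →L[ℂ] H), BddO f → ∃ T : H →L[ℂ] H,
      ∀ ξ η : H, ⟪η, T ξ⟫_ℂ = cm (fun g => ⟪η, f g ξ⟫_ℂ) := by
    rintro f ⟨C, hC⟩
    have hf : BddO f := ⟨C, hC⟩
    have hC0 : 0 ≤ C := (norm_nonneg _).trans (hC 1)
    obtain ⟨T, -, hT⟩ := exists_op_of_form (fun ξ η => cm (fun g => ⟪η, f g ξ⟫_ℂ)) C hC0
      (by
        intro ξ ξ' η
        rw [← hcm.add _ _ (hf.bdd _ _) (hf.bdd _ _)]
        congr 1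
        funext g
        rw [map_add, inner_add_right])
      (by
        intro c ξ η
        rw [← hcm.smul _ _ (hf.bdd _ _)]
        congr 1
        funext g
        rw [map_smul, inner_smul_right])
      (by
        intro ξ η η'
        rw [← hcm.add _ _ (hf.bdd _ _) (hf.bdd _ _)]
        congr 1
        funext g
        rw [inner_add_left])
      (by
        intro c ξ η
        rw [← hcm.smul _ _ (hf.bdd _ _)]
        congr 1
        funext g
        rw [inner_smul_left])
      (by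
        intro ξ η
        apply hcm.bound
        intro g
        refine (norm_inner_le_norm _ _).trans ?_
        rw [mul_comm]
        refine mul_le_mul_of_nonneg_right ?_ (norm_nonneg _)
        exact ((f g).le_opNorm _).trans (mul_le_mul_of_nonneg_right (hC g) (norm_nonneg _)))
    exact ⟨T, hT⟩
  refine ⟨cm, fun f => if h : BddO f then Classical.choose (key f h) else 0, hcm, ?_⟩
  intro f hf ξ η
  simp only [hf, dif_pos]
  exact Classical.choose_spec (key f hf) ξ η

variable {cm : (G → ℂ) → ℂ} {m : (G → (H →L[ℂ] H)) → (H →L[ℂ] H)}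

lemma BddO.mul {f g : G → (H →L[ℂ] H)} (hf : BddO f) (hg : BddO g) :
    BddO (fun x => f x * g x) := by
  obtain ⟨C, hC⟩ := hf
  obtain ⟨D, hD⟩ := hg
  refine ⟨C * D, fun x => (norm_mul_le _ _).trans ?_⟩
  exact mul_le_mul (hC x) (hD x) (norm_nonneg _) ((norm_nonneg _).trans (hC x))

lemma BddO.const (a : H →L[ℂ] H) : BddO (fun _ : G => a) := ⟨‖a‖, fun _ => le_rfl⟩

lemma BddO.star {f : G → (H →L[ℂ] H)} (hf : BddO f) : BddO (fun x => star (f x)) := by
  obtain ⟨C, hC⟩ := hf
  exact ⟨C, fun x => by rw [norm_star]; exact hC x⟩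

lemma BddO.comp {f : G → (H →L[ℂ] H)} (hf : BddO f) (φ : G → G) : BddO (fun x => f (φ x)) := by
  obtain ⟨C, hC⟩ := hf
  exact ⟨C, fun x => hC _⟩

lemma BddO.add {f g : G → (H →L[ℂ] H)} (hf : BddO f) (hg : BddO g) :
    BddO (fun x => f x + g x) := by
  obtain ⟨C, hC⟩ := hf
  obtain ⟨D, hD⟩ := hg
  exact ⟨C + D, fun x => (norm_add_le _ _).trans (add_le_add (hC x) (hD x))⟩

lemma BddO.sub {f g : G → (H →L[ℂ] H)} (hf : BddO f) (hg : BddO g) :
    BddO (fun x => f x - g x) := by
  obtain ⟨C, hC⟩ := hf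
  obtain ⟨D, hD⟩ := hg
  exact ⟨C + D, fun x => (norm_sub_le _ _).trans (add_le_add (hC x) (hD x))⟩

lemma OpMean.add (h : OpMean cm m) {f g : G → (H →L[ℂ] H)} (hf : BddO f) (hg : BddO g) :
    m (fun x => f x + g x) = m f + m g := by
  ext ξ
  refine ext_inner_left ℂ fun η => ?_
  rw [h.inner _ (hf.add hg), add_apply, inner_add_right, h.inner _ hf,
    h.inner _ hg, ← h.cmean.add _ _ (hf.bdd _ _) (hg.bdd _ _)]
  congr 1
  funext x
  rw [add_apply, inner_add_right]

lemma OpMean.mul_left (h : OpMean cm m) (a : H →L[ℂ] H) {f : G → (H →L[ℂ] H)} (hf : BddO f) :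
    m (fun x => a * f x) = a * m f := by
  ext ξ
  refine ext_inner_left ℂ fun η => ?_
  have e : ∀ (b : H →L[ℂ] H), ⟪η, (a * b) ξ⟫_ℂ = ⟪star a η, b ξ⟫_ℂ := by
    intro b
    rw [ContinuousLinearMap.star_eq_adjoint, ContinuousLinearMap.adjoint_inner_left]
    rfl
  rw [h.inner _ ((BddO.const a).mul hf), e, h.inner _ hf]
  congr 1
  funext x
  exact e _

lemma OpMean.mul_right (h : OpMean cm m) (a : H →L[ℂ] H) {f : G → (H →L[ℂ] H)} (hf : BddO f) :
    m (fun x => f x * a) = m f * a := by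
  ext ξ
  refine ext_inner_left ℂ fun η => ?_
  rw [h.inner _ (hf.mul (BddO.const a))]
  exact (h.inner _ hf (a ξ) η).symm

lemma OpMean.const (h : OpMean cm m) (a : H →L[ℂ] H) : m (fun _ : G => a) = a := by
  ext ξ
  refine ext_inner_left ℂ fun η => ?_
  rw [h.inner _ (BddO.const a), h.cmean.const]

lemma OpMean.inv (h : OpMean cm m) (g : G) {f : G → (H →L[ℂ] H)} (hf : BddO f) :
    m (fun x => f (g * x)) = m f := by
  ext ξ
  refine ext_inner_left ℂ fun η => ?_
  rw [h.inner _ (hf.comp _), h.inner _ hf]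
  exact h.cmean.inv (fun x => ⟪η, f x ξ⟫_ℂ) g (hf.bdd _ _)

lemma OpMean.star (h : OpMean cm m) {f : G → (H →L[ℂ] H)} (hf : BddO f) :
    m (fun x => star (f x)) = star (m f) := by
  ext ξ
  refine ext_inner_left ℂ fun η => ?_
  rw [h.inner _ hf.star, ContinuousLinearMap.star_eq_adjoint,
    ContinuousLinearMap.adjoint_inner_right, ← inner_conj_symm, h.inner _ hf,
    ← h.cmean.cj _ (hf.bdd _ _)]
  congr 1
  funext x
  rw [ContinuousLinearMap.star_eq_adjoint, ContinuousLinearMap.adjoint_inner_right,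
    inner_conj_symm]

lemma OpMean.neg (h : OpMean cm m) {f : G → (H →L[ℂ] H)} (hf : BddO f) :
    m (fun x => - f x) = - m f := by
  have := h.mul_left (-1) hf
  simpa using this

lemma BddO.neg {f : G → (H →L[ℂ] H)} (hf : BddO f) : BddO (fun x => - f x) := by
  obtain ⟨C, hC⟩ := hf
  exact ⟨C, fun x => by rw [norm_neg]; exact hC x⟩

lemma OpMean.sub (h : OpMean cm m) {f g : G → (H →L[ℂ] H)} (hf : BddO f) (hg : BddO g) :
    m (fun x => f x - g x) = m f - m g := by
  have h1 := h.add hf hg.neg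
  rw [h.neg hg] at h1
  simpa [sub_eq_add_neg] using h1

lemma OpMean.bound (h : OpMean cm m) {f : G → (H →L[ℂ] H)} {C : ℝ} (hf : ∀ x, ‖f x‖ ≤ C) :
    ‖m f‖ ≤ C := by
  have hC : 0 ≤ C := (norm_nonneg _).trans (hf 1)
  refine ContinuousLinearMap.opNorm_le_bound _ hC fun ξ => ?_
  have h1 : ‖m f ξ‖ ^ 2 ≤ C * ‖ξ‖ * ‖m f ξ‖ := by
    have h2 : ‖m f ξ‖ ^ 2 = ‖⟪m f ξ, m f ξ⟫_ℂ‖ := by
      rw [inner_self_eq_norm_sq_to_K]
      simp
    rw [h2, h.inner f ⟨C, hf⟩]
    apply h.cmean.bound
    intro g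
    refine (norm_inner_le_norm _ _).trans ?_
    rw [mul_comm]
    refine mul_le_mul_of_nonneg_right ?_ (norm_nonneg _)
    exact ((f g).le_opNorm _).trans (mul_le_mul_of_nonneg_right (hf g) (norm_nonneg _))
  rcases (norm_nonneg (m f ξ)).eq_or_lt with h0 | h0
  · rw [← h0]
    positivity
  · rw [sq] at h1
    exact le_of_mul_le_mul_right h1 h0

/-- Means of functions with values in a von Neumann algebra. -/
lemma OpMean.mem (h : OpMean cm m) (N : VonNeumannAlgebra H) {f : G → (H →L[ℂ] H)}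
    (hf : BddO f) (hN : ∀ x, f x ∈ N) : m f ∈ N := by
  rw [← VonNeumannAlgebra.commutant_commutant N, VonNeumannAlgebra.mem_commutant_iff]
  intro y hy
  rw [← h.mul_left y hf, ← h.mul_right y hf]
  congr 1
  funext x
  exact ((VonNeumannAlgebra.mem_commutant_iff.1 hy) (f x) (hN x)).symm

end op

end Pool.Agent.R298.CC
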