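import Mathlib

/-!
Polar corrections of almost unitary elements of C*-algebras.
-/

set_option autoImplicit false

namespace Pool.Agent.R298.CC

/-- Almost unitary elements are close to unitaries. -/
theorem polar {A : Type*} [CStarAlgebra A] (r : A) (δ : ℝ) (hδ : δ ≤ 1 / 4)
    (h1 : ‖star r * r - 1‖ ≤ δ) (h2 : ‖r * star r - 1‖ ≤ δ) :
    ∃ k : A, star k = k ∧ (∀ t, star r * r * t = t * (star r * r) → k * t = t * k) ∧
      star (r * k) * (r * k) = 1 ∧ (r * k) * star (r * k) = 1 ∧ ‖r * k - r‖ ≤ δ := by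
  have hδ0 : 0 ≤ δ := (norm_nonneg _).trans h1
  set h : A := star r * r with hh
  have hsa : IsSelfAdjoint h := IsSelfAdjoint.star_mul_self r
  have hspec : ∀ x ∈ spectrum ℝ h, |x - 1| ≤ δ := by
    intro x hx
    have hx' : x - 1 ∈ spectrum ℝ (h - 1) := by
      have := (spectrum.sub_singleton_eq h (1 : ℝ)).symm.le
      have e : h - algebraMap ℝ A 1 = h - 1 := by rw [map_one]
      rw [← e, ← spectrum.sub_singleton_eq]
      exact Set.sub_mem_sub hx rfl
    have hn : Nontrivial A := by
      by_contra hc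
      rw [not_nontrivial_iff_subsingleton] at hc
      rw [spectrum.of_subsingleton] at hx
      exact hx
    have := spectrum.norm_le_norm_of_mem hx'
    exact this.trans h1
  have hpos : ∀ x ∈ spectrum ℝ h, 3 / 4 ≤ x := by
    intro x hx
    have := abs_le.1 (hspec x hx)
    linarith [this.1]
  have c1 : ContinuousOn (fun x : ℝ => (Real.sqrt x)⁻¹) (spectrum ℝ h) := by
    refine ContinuousOn.inv₀ Real.continuous_sqrt.continuousOn ?_
    intro x hx
    exact (Real.sqrt_pos.2 (by linarith [hpos x hx])).ne'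
  have c2 : ContinuousOn (fun x : ℝ => Real.sqrt x) (spectrum ℝ h) :=
    Real.continuous_sqrt.continuousOn
  let k : A := cfc (fun x : ℝ => (Real.sqrt x)⁻¹) h
  let s : A := cfc (fun x : ℝ => Real.sqrt x) h
  have hk : IsSelfAdjoint k := cfc_predicate _ _
  have hks : k * s = 1 := by
    rw [← cfc_mul (fun x : ℝ => (Real.sqrt x)⁻¹) (fun x : ℝ => Real.sqrt x) h c1 c2,
      ← cfc_one ℝ h]
    refine cfc_congr ?_
    intro x hx
    exact inv_mul_cancel₀ (Real.sqrt_pos.2 (by linarith [hpos x hx])).ne'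
  have hkhk : k * h * k = 1 := by
    have e : k * h * k = cfc (fun x : ℝ => (Real.sqrt x)⁻¹ * x * (Real.sqrt x)⁻¹) h := by
      rw [cfc_mul (fun x : ℝ => (Real.sqrt x)⁻¹ * x) (fun x : ℝ => (Real.sqrt x)⁻¹) h
        (c1.mul continuousOn_id) c1, cfc_mul (fun x : ℝ => (Real.sqrt x)⁻¹) (fun x : ℝ => x) h
        c1 continuousOn_id, cfc_id' ℝ h]
    rw [e, ← cfc_one ℝ h]
    refine cfc_congr ?_
    intro x hx
    have hx0 : 0 < x := by linarith [hpos x hx]
    have h3 : Real.sqrt x * Real.sqrt x = x := Real.mul_self_sqrt hx0.le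
    have h4 : Real.sqrt x ≠ 0 := (Real.sqrt_pos.2 hx0).ne'
    show (Real.sqrt x)⁻¹ * x * (Real.sqrt x)⁻¹ = 1
    field_simp
    rw [sq, h3]
  have hv : star (r * k) * (r * k) = 1 := by
    rw [star_mul, hk.star_eq]
    calc k * star r * (r * k) = k * (star r * r) * k := by noncomm_ring
      _ = 1 := hkhk
  have hvs : (r * k) * s = r := by rw [mul_assoc, hks, mul_one]
  have hunit : IsUnit (r * star r) := by
    have : r * star r = 1 - (1 - r * star r) := by abel
    rw [this]
    apply isUnit_one_sub_of_norm_lt_one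
    rw [norm_sub_rev]
    linarith
  obtain ⟨u, hu⟩ := hunit
  have hy : (r * k) * (s * star r * (↑u⁻¹ : A)) = 1 := by
    calc (r * k) * (s * star r * (↑u⁻¹ : A)) = ((r * k) * s) * star r * (↑u⁻¹ : A) := by
          noncomm_ring
      _ = u * (↑u⁻¹ : A) := by rw [hvs, hu]
      _ = 1 := Units.mul_inv u
  have hv' : (r * k) * star (r * k) = 1 := by
    have e : star (r * k) = s * star r * (↑u⁻¹ : A) := by
      calc star (r * k) = star (r * k) * ((r * k) * (s * star r * (↑u⁻¹ : A))) := by
            rw [hy, mul_one]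
        _ = (star (r * k) * (r * k)) * (s * star r * (↑u⁻¹ : A)) := by noncomm_ring
        _ = _ := by rw [hv, one_mul]
    rw [e, hy]
  refine ⟨k, hk.star_eq, ?_, hv, hv', ?_⟩
  · intro t ht
    have : Commute h t := ht
    exact (hsa.commute_cfc this _).eq
  · have e : r * k - r = (r * k) * (1 - s) := by rw [mul_sub, mul_one, hvs]
    rw [e]
    have n1 : ‖r * k‖ ≤ 1 := by
      rcases subsingleton_or_nontrivial A with hs | hs
      · rw [Subsingleton.elim (r * k) 0, norm_zero]
        exact zero_le_one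
      · have h3 : ‖r * k‖ * ‖r * k‖ = 1 := by
          rw [← CStarRing.norm_star_mul_self, hv, norm_one]
        nlinarith [norm_nonneg (r * k)]
    have n2 : ‖1 - s‖ ≤ δ := by
      have e2 : 1 - s = cfc (fun x : ℝ => 1 - Real.sqrt x) h := by
        rw [cfc_sub (fun _ : ℝ => (1 : ℝ)) (fun x : ℝ => Real.sqrt x) h continuousOn_const c2,
          cfc_const_one ℝ h]
      rw [e2]
      refine norm_cfc_le hδ0 ?_
      intro x hx
      have hx0 : 0 < x := by linarith [hpos x hx]
      have h3 : Real.sqrt x * Real.sqrt x = x := Real.mul_self_sqrt hx0.le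
      have h5 : 0 ≤ Real.sqrt x := Real.sqrt_nonneg x
      have h6 : |1 - Real.sqrt x| * |1 + Real.sqrt x| = |x - 1| := by
        rw [← abs_mul]
        have : (1 - Real.sqrt x) * (1 + Real.sqrt x) = -(x - 1) := by
          nlinarith
        rw [this, abs_neg]
      rw [Real.norm_eq_abs]
      have h7 : 1 ≤ |1 + Real.sqrt x| := by
        rw [abs_of_nonneg (by linarith)]
        linarith
      have h8 := hspec x hx
      nlinarith [abs_nonneg (1 - Real.sqrt x)]
    calc ‖r * k * (1 - s)‖ ≤ ‖r * k‖ * ‖1 - s‖ := norm_mul_le _ _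
      _ ≤ 1 * δ := mul_le_mul n1 n2 (norm_nonneg _) zero_le_one
      _ = δ := one_mul _

end Pool.Agent.R298.CC
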