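import Mathlib
import Pool.Agent.R298.CC.Mean
import Pool.Agent.R298.CC.Polar

/-!
Almost representations of commutative groups by unitaries of a von Neumann algebra are close to
representations (Kazhdan).
-/

set_option autoImplicit false
set_option linter.unusedSectionVars false
set_option linter.unusedVariables false

open scoped InnerProductSpace

namespace Pool.Agent.R298.CC

variable {H : Type} [NormedAddCommGroup H] [InnerProductSpace ℂ H] [CompleteSpace H]

lemma norm_le_one_of {u : H →L[ℂ] H} (h : star u * u = 1) : ‖u‖ ≤ 1 := by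
  have h1 : ‖u‖ * ‖u‖ ≤ 1 := by
    rw [← CStarRing.norm_star_mul_self, h]
    exact ContinuousLinearMap.norm_id_le
  nlinarith [norm_nonneg u]

lemma norm_mul_unitary {u : H →L[ℂ] H} (h : star u * u = 1) (x : H →L[ℂ] H) :
    ‖u * x‖ ≤ ‖x‖ := by
  refine (norm_mul_le _ _).trans ?_
  nlinarith [norm_le_one_of h, norm_nonneg x, norm_nonneg u]

lemma norm_unitary_mul {u : H →L[ℂ] H} (h : star u * u = 1) (x : H →L[ℂ] H) :
    ‖x * u‖ ≤ ‖x‖ := by
  refine (norm_mul_le _ _).trans ?_
  nlinarith [norm_le_one_of h, norm_nonneg x, norm_nonneg u]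

/-- elements commuting with the commutant -/
lemma mem_of_comm (N : VonNeumannAlgebra H) {x : H →L[ℂ] H}
    (h : ∀ t ∈ N.commutant, x * t = t * x) : x ∈ N := by
  rw [← VonNeumannAlgebra.commutant_commutant N, VonNeumannAlgebra.mem_commutant_iff]
  intro y hy
  exact (h y hy).symm

lemma comm_of_mem (N : VonNeumannAlgebra H) {x t : H →L[ℂ] H} (hx : x ∈ N)
    (ht : t ∈ N.commutant) : x * t = t * x :=
  VonNeumannAlgebra.mem_commutant_iff.1 ht x hx

lemma mem_comm_iff (N : VonNeumannAlgebra H) {t : H →L[ℂ] H} :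
    t ∈ N.commutant ↔ ∀ x ∈ N, x * t = t * x := VonNeumannAlgebra.mem_commutant_iff

/-- Polar correction inside a von Neumann algebra. -/
theorem polarN (N : VonNeumannAlgebra H) {r : H →L[ℂ] H} (hr : r ∈ N) (δ : ℝ) (hδ : δ ≤ 1 / 4)
    (h1 : ‖star r * r - 1‖ ≤ δ) (h2 : ‖r * star r - 1‖ ≤ δ) :
    ∃ v ∈ N, star v * v = 1 ∧ v * star v = 1 ∧ ‖v - r‖ ≤ δ := by
  obtain ⟨k, -, hk, hv1, hv2, hv3⟩ := polar r δ hδ h1 h2
  refine ⟨r * k, ?_, hv1, hv2, hv3⟩
  refine mul_mem hr ?_
  refine mem_of_comm N ?_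
  intro t ht
  refine hk t ?_
  exact comm_of_mem N (mul_mem (star_mem hr) hr) ht

variable {G : Type} [CommGroup G]

/-- Unitary valued almost multiplicative maps. -/
structure UMap (N : VonNeumannAlgebra H) (f : G → (H →L[ℂ] H)) (ε : ℝ) : Prop where
  mem : ∀ g, f g ∈ N
  l : ∀ g, star (f g) * f g = 1
  r : ∀ g, f g * star (f g) = 1
  defect : ∀ g k, ‖f (g * k) - f g * f k‖ ≤ ε

theorem kstep (N : VonNeumannAlgebra H) {f : G → (H →L[ℂ] H)} {ε : ℝ} (hε : ε ≤ 1 / 64)
    (hf : UMap N f ε) :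
    ∃ f' : G → (H →L[ℂ] H), UMap N f' (16 * ε ^ 2) ∧ ∀ g, ‖f' g - f g‖ ≤ ε + 4 * ε ^ 2 := by
  have hε0 : 0 ≤ ε := (norm_nonneg _).trans (hf.defect 1 1)
  obtain ⟨cm, m, hm⟩ := exists_opMean G H
  have bf : BddO f := ⟨1, fun g => norm_le_one_of (hf.l g)⟩
  let F : G → G → (H →L[ℂ] H) := fun g h => star (f h) * f (h * g)
  have bF : ∀ g, BddO (F g) := fun g =>
    (bf.star).mul (f := fun x => star (f x)) (g := fun x => f (x * g)) (bf.comp (fun x => x * g))
  have nF : ∀ g h, ‖F g h‖ ≤ 1 := fun g h =>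
    (norm_unitary_mul (hf.l _) _).trans (by rw [norm_star]; exact norm_le_one_of (hf.l h))
  let r : G → (H →L[ℂ] H) := fun g => m (F g)
  have nr : ∀ g, ‖r g‖ ≤ 1 := fun g => hm.bound (nF g)
  have rmem : ∀ g, r g ∈ N := fun g =>
    hm.mem N (bF g) (fun h => mul_mem (star_mem (hf.mem h)) (hf.mem _))
  have hFf : ∀ g h, ‖F g h - f g‖ ≤ ε := by
    intro g h
    have e : F g h - f g = star (f h) * (f (h * g) - f h * f g) := by
      show star (f h) * f (h * g) - f g = _
      rw [mul_sub, ← mul_assoc, hf.l, one_mul]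
    rw [e]
    refine (norm_mul_le _ _).trans ?_
    rw [norm_star]
    have := hf.defect h g
    nlinarith [norm_le_one_of (hf.l h), norm_nonneg (f h), norm_nonneg (f (h * g) - f h * f g)]
  have hrf : ∀ g, ‖r g - f g‖ ≤ ε := by
    intro g
    have e : r g - f g = m (fun h => F g h - f g) := by
      rw [hm.sub (bF g) (BddO.const (f g)), hm.const]
    rw [e]
    exact hm.bound (hFf g)
  have hFr : ∀ g h, ‖F g h - r g‖ ≤ 2 * ε := by
    intro g h
    have e : F g h - r g = (F g h - f g) - (r g - f g) := by abel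
    rw [e]
    refine (norm_sub_le _ _).trans ?_
    linarith [hFf g h, hrf g]
  have hmult : ∀ g k, ‖r (g * k) - r g * r k‖ ≤ 4 * ε ^ 2 := by
    intro g k
    have e1 : m (fun h => F k (g * h)) = r k := hm.inv g (bF k)
    have bF' : BddO (fun h => F k (g * h)) := (bF k).comp _
    have e2 : ∀ h, F g h * F k (g * h) = F (g * k) h := by
      intro h
      show star (f h) * f (h * g) * (star (f (g * h)) * f (g * h * k)) = star (f h) * f (h * (g * k))
      have h1 : g * h = h * g := mul_comm _ _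
      rw [h1, ← mul_assoc h g k]
      calc star (f h) * f (h * g) * (star (f (h * g)) * f (h * g * k)) =
          star (f h) * (f (h * g) * star (f (h * g))) * f (h * g * k) := by noncomm_ring
        _ = _ := by rw [hf.r, mul_one]
    have e3 : r (g * k) - r g * r k =
        m (fun h => (F g h - r g) * (F k (g * h) - r k)) := by
      have e4 : (fun h => (F g h - r g) * (F k (g * h) - r k)) =
          fun h => (F (g * k) h - F g h * r k) - (r g * F k (g * h) - r g * r k) := by
        funext h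
        rw [← e2 h]
        noncomm_ring
      rw [e4, hm.sub (f := fun h => F (g * k) h - F g h * r k)
        (g := fun h => r g * F k (g * h) - r g * r k)
        ((bF _).sub ((bF g).mul (BddO.const (r k))))
        (((BddO.const (r g)).mul bF').sub (BddO.const (r g * r k))),
        hm.sub (f := F (g * k)) (g := fun h => F g h * r k) (bF _) ((bF g).mul (BddO.const (r k))),
        hm.sub (f := fun h => r g * F k (g * h)) (g := fun _ => r g * r k)
          ((BddO.const (r g)).mul bF') (BddO.const (r g * r k)),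
        hm.mul_right (r k) (bF g), hm.mul_left (r g) bF', hm.const, e1]
      show m (F (g * k)) - m (F g) * m (F k) = m (F (g * k)) - m (F g) * m (F k) -
        (m (F g) * m (F k) - m (F g) * m (F k))
      rw [sub_self, sub_zero]
    rw [e3]
    refine hm.bound fun h => ?_
    refine (norm_mul_le _ _).trans ?_
    have h1 := hFr g h
    have h2 := hFr k (g * h)
    calc ‖F g h - r g‖ * ‖F k (g * h) - r k‖ ≤ (2 * ε) * (2 * ε) :=
          mul_le_mul h1 h2 (norm_nonneg _) (by positivity)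
      _ = 4 * ε ^ 2 := by ring
  have hr1 : r 1 = 1 := by
    have e : F 1 = fun _ => (1 : H →L[ℂ] H) := by
      funext h
      show star (f h) * f (h * 1) = 1
      rw [mul_one, hf.l]
    show m (F 1) = 1
    rw [e, hm.const]
  have hrstar : ∀ g, star (r g) = r g⁻¹ := by
    intro g
    show star (m (F g)) = m (F g⁻¹)
    rw [← hm.star (bF g), ← hm.inv g (bF g⁻¹)]
    congr 1
    funext h
    show star (star (f h) * f (h * g)) = star (f (g * h)) * f (g * h * g⁻¹)
    rw [star_mul, star_star, mul_comm g h, mul_inv_cancel_right]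
  have hε2 : 4 * ε ^ 2 ≤ 1 / 4 := by nlinarith
  have hd1 : ∀ g, ‖star (r g) * r g - 1‖ ≤ 4 * ε ^ 2 := by
    intro g
    rw [hrstar, ← hr1, norm_sub_rev]
    have := hmult g⁻¹ g
    rwa [inv_mul_cancel] at this
  have hd2 : ∀ g, ‖r g * star (r g) - 1‖ ≤ 4 * ε ^ 2 := by
    intro g
    rw [hrstar, ← hr1, norm_sub_rev]
    have := hmult g g⁻¹
    rwa [mul_inv_cancel] at this
  have hpol := fun g => polarN N (rmem g) (4 * ε ^ 2) hε2 (hd1 g) (hd2 g)
  choose f' hf'N hf'l hf'r hf'd using hpol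
  refine ⟨f', ⟨hf'N, hf'l, hf'r, ?_⟩, ?_⟩
  · intro g k
    have e : f' (g * k) - f' g * f' k = (f' (g * k) - r (g * k)) + (r (g * k) - r g * r k) -
        (f' g - r g) * r k - f' g * (f' k - r k) := by noncomm_ring
    rw [e]
    have h1 := hf'd (g * k)
    have h2 := hmult g k
    have h3 : ‖(f' g - r g) * r k‖ ≤ 4 * ε ^ 2 := by
      refine (norm_mul_le _ _).trans ?_
      nlinarith [hf'd g, nr k, norm_nonneg (f' g - r g), norm_nonneg (r k)]
    have h4 : ‖f' g * (f' k - r k)‖ ≤ 4 * ε ^ 2 :=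
      (norm_mul_unitary (hf'l g) _).trans (hf'd k)
    calc ‖(f' (g * k) - r (g * k)) + (r (g * k) - r g * r k) -
        (f' g - r g) * r k - f' g * (f' k - r k)‖ ≤
        ‖(f' (g * k) - r (g * k)) + (r (g * k) - r g * r k) - (f' g - r g) * r k‖ +
          ‖f' g * (f' k - r k)‖ := norm_sub_le _ _
      _ ≤ ‖(f' (g * k) - r (g * k)) + (r (g * k) - r g * r k)‖ + ‖(f' g - r g) * r k‖ +
          ‖f' g * (f' k - r k)‖ := by
            have := norm_sub_le ((f' (g * k) - r (g * k)) + (r (g * k) - r g * r k))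
              ((f' g - r g) * r k)
            linarith
      _ ≤ ‖f' (g * k) - r (g * k)‖ + ‖r (g * k) - r g * r k‖ + ‖(f' g - r g) * r k‖ +
          ‖f' g * (f' k - r k)‖ := by
            have := norm_add_le (f' (g * k) - r (g * k)) (r (g * k) - r g * r k)
            linarith
      _ ≤ 16 * ε ^ 2 := by linarith
  · intro g
    have e : f' g - f g = (f' g - r g) + (r g - f g) := by abel
    rw [e]
    refine (norm_add_le _ _).trans ?_
    linarith [hf'd g, hrf g]

/-- Kazhdan's theorem for commutative groups. -/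
theorem kazhdan (N : VonNeumannAlgebra H) {f : G → (H →L[ℂ] H)} {ε : ℝ} (hε : ε ≤ 1 / 64)
    (hf : UMap N f ε) :
    ∃ v : G → (H →L[ℂ] H), (∀ g, v g ∈ N) ∧ (∀ g, star (v g) * v g = 1) ∧
      (∀ g, v g * star (v g) = 1) ∧ (∀ g k, v (g * k) = v g * v k) ∧
      ∀ g, ‖v g - f g‖ ≤ 2 * ε := by
  have hε0 : 0 ≤ ε := (norm_nonneg _).trans (hf.defect 1 1)
  have step : ∀ (n : ℕ) (φ : {φ : G → (H →L[ℂ] H) // UMap N φ (ε / 4 ^ n)}),
      ∃ φ' : {φ' : G → (H →L[ℂ] H) // UMap N φ' (ε / 4 ^ (n + 1))},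
        ∀ g, ‖φ'.1 g - φ.1 g‖ ≤ (5 / 4) * (ε / 4 ^ n) := by
    intro n φ
    have h4 : (1 : ℝ) ≤ 4 ^ n := one_le_pow₀ (by norm_num)
    have hn : ε / 4 ^ n ≤ ε := div_le_self hε0 h4
    have hn0 : 0 ≤ ε / 4 ^ n := by positivity
    obtain ⟨φ', hφ', hd⟩ := kstep N (hn.trans hε) φ.2
    have hsq : 16 * (ε / 4 ^ n) ^ 2 ≤ ε / 4 ^ (n + 1) := by
      rw [pow_succ (4 : ℝ) n]
      have : ε / (4 ^ n * 4) = (ε / 4 ^ n) / 4 := by rw [div_mul_eq_div_div]
      rw [this]
      nlinarith
    refine ⟨⟨φ', ⟨hφ'.mem, hφ'.l, hφ'.r, fun g k => (hφ'.defect g k).trans hsq⟩⟩, fun g => ?_⟩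
    refine (hd g).trans ?_
    nlinarith
  choose nxt hnxt using step
  let s : ∀ n : ℕ, {φ : G → (H →L[ℂ] H) // UMap N φ (ε / 4 ^ n)} := fun n =>
    Nat.rec ⟨f, by simpa using hf⟩ (fun n φ => nxt n φ) n
  have hs : ∀ n g, ‖(s (n + 1)).1 g - (s n).1 g‖ ≤ (5 / 4) * (ε / 4 ^ n) := fun n g =>
    hnxt n (s n) g
  have hs0 : (s 0).1 = f := rfl
  have hdist : ∀ g n, dist ((s n).1 g) ((s (n + 1)).1 g) ≤ (5 / 4 * ε) * (1 / 4) ^ n := by
    intro g n
    rw [dist_comm, dist_eq_norm]
    refine (hs n g).trans (le_of_eq ?_)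
    rw [one_div, inv_pow]
    ring
  have hcau : ∀ g, CauchySeq (fun n => (s n).1 g) := fun g =>
    cauchySeq_of_le_geometric (1 / 4) (5 / 4 * ε) (by norm_num) (hdist g)
  choose v hv using fun g => cauchySeq_tendsto_of_complete (hcau g)
  have hbd : ∀ g, ‖v g - f g‖ ≤ 2 * ε := by
    intro g
    have := dist_le_of_le_geometric_of_tendsto₀ (1 / 4) (5 / 4 * ε) (by norm_num) (hdist g) (hv g)
    rw [dist_comm, dist_eq_norm] at this
    change ‖v g - (s 0).1 g‖ ≤ _ at this
    rw [hs0] at this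
    refine this.trans ?_
    rw [div_le_iff₀ (by norm_num)]
    nlinarith
  refine ⟨v, ?_, ?_, ?_, ?_, hbd⟩
  · intro g
    refine mem_of_comm N ?_
    intro t ht
    refine tendsto_nhds_unique ((hv g).mul_const t) ?_
    have : (fun n => (s n).1 g * t) = fun n => t * (s n).1 g := by
      funext n
      exact comm_of_mem N ((s n).2.mem g) ht
    rw [this]
    exact (hv g).const_mul t
  · intro g
    have h1 : Filter.Tendsto (fun n => star ((s n).1 g) * (s n).1 g) Filter.atTop
        (nhds (star (v g) * v g)) := ((hv g).star).mul (hv g)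
    have h2 : (fun n => star ((s n).1 g) * (s n).1 g) = fun _ => 1 := by
      funext n
      exact (s n).2.l g
    rw [h2] at h1
    exact tendsto_nhds_unique h1 tendsto_const_nhds
  · intro g
    have h1 : Filter.Tendsto (fun n => (s n).1 g * star ((s n).1 g)) Filter.atTop
        (nhds (v g * star (v g))) := (hv g).mul ((hv g).star)
    have h2 : (fun n => (s n).1 g * star ((s n).1 g)) = fun _ => 1 := by
      funext n
      exact (s n).2.r g
    rw [h2] at h1
    exact tendsto_nhds_unique h1 tendsto_const_nhds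
  · intro g k
    have h1 : Filter.Tendsto (fun n => (s n).1 (g * k) - (s n).1 g * (s n).1 k) Filter.atTop
        (nhds (v (g * k) - v g * v k)) := (hv (g * k)).sub ((hv g).mul (hv k))
    have h2 : Filter.Tendsto (fun n => (s n).1 (g * k) - (s n).1 g * (s n).1 k) Filter.atTop
        (nhds 0) := by
      refine squeeze_zero_norm (a := fun n => ε * (1 / 4) ^ n) (fun n => ?_) ?_
      · refine ((s n).2.defect g k).trans (le_of_eq ?_)
        rw [one_div, inv_pow]
        ring
      · have := (tendsto_pow_atTop_nhds_zero_of_lt_one (r := (1 / 4 : ℝ)) (by norm_num)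
          (by norm_num)).const_mul ε
        rwa [mul_zero] at this
    exact sub_eq_zero.1 (tendsto_nhds_unique h1 h2)

end Pool.Agent.R298.CC
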