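import Mathlib
import Pool.Agent.R298.CC.Kaz
import Pool.Agent.R298.CC.Com

/-!
An abelian von Neumann algebra that is nearly included in a von Neumann algebra `N` can be moved
into `N` by a unitary close to `1` that commutes with everything commuting with both algebras.
-/

set_option autoImplicit false
set_option linter.unusedSectionVars false
set_option linter.unusedVariables false

open scoped InnerProductSpace

namespace Pool.Agent.R298.CC

variable {H : Type} [NormedAddCommGroup H] [InnerProductSpace ℂ H] [CompleteSpace H]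

lemma almost_unitary {x u : H →L[ℂ] H} {θ : ℝ} (hθ : θ ≤ 1) (hu : star u * u = 1)
    (hu' : u * star u = 1) (h : ‖u - x‖ ≤ θ) :
    ‖star x * x - 1‖ ≤ 3 * θ ∧ ‖x * star x - 1‖ ≤ 3 * θ := by
  have hθ0 : 0 ≤ θ := (norm_nonneg _).trans h
  have nu := norm_le_one_of hu
  have nx : ‖x‖ ≤ 2 := by
    have : x = u - (u - x) := by abel
    rw [this]
    refine (norm_sub_le _ _).trans ?_
    linarith
  constructor
  · have e : star x * x - 1 = - (star (u - x) * x + star u * (u - x)) := by
      rw [← hu, star_sub]
      noncomm_ring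
    rw [e, norm_neg]
    refine (norm_add_le _ _).trans ?_
    have h1 : ‖star (u - x) * x‖ ≤ θ * 2 :=
      (norm_mul_le _ _).trans (by
        rw [norm_star]
        exact mul_le_mul h nx (norm_nonneg _) hθ0)
    have h2 : ‖star u * (u - x)‖ ≤ 1 * θ :=
      (norm_mul_le _ _).trans (by
        rw [norm_star]
        exact mul_le_mul nu h (norm_nonneg _) zero_le_one)
    linarith
  · have e : x * star x - 1 = - ((u - x) * star x + u * star (u - x)) := by
      rw [← hu', star_sub]
      noncomm_ring
    rw [e, norm_neg]
    refine (norm_add_le _ _).trans ?_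
    have h1 : ‖(u - x) * star x‖ ≤ θ * 2 :=
      (norm_mul_le _ _).trans (by
        rw [norm_star]
        exact mul_le_mul h nx (norm_nonneg _) hθ0)
    have h2 : ‖u * star (u - x)‖ ≤ 1 * θ :=
      (norm_mul_le _ _).trans (by
        rw [norm_star]
        exact mul_le_mul nu h (norm_nonneg _) zero_le_one)
    linarith

/-- Unitaries of an algebra nearly contained in `N` are close to unitaries of `N`. -/
theorem near_unitary {A N : VonNeumannAlgebra H} {γ : ℝ} (hγ : γ ≤ 1 / 12) (hAN : Near γ A N)
    {u : H →L[ℂ] H} (huA : u ∈ A) (hu : star u * u = 1) (hu' : u * star u = 1) :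
    ∃ v ∈ N, star v * v = 1 ∧ v * star v = 1 ∧ ‖v - u‖ ≤ 4 * γ := by
  obtain ⟨y, hy, hd⟩ := hAN u huA (norm_le_one_of hu)
  obtain ⟨h1, h2⟩ := almost_unitary (by linarith) hu hu' hd
  obtain ⟨v, hv, hv1, hv2, hv3⟩ := polarN N hy (3 * γ) (by linarith) h1 h2
  refine ⟨v, hv, hv1, hv2, ?_⟩
  have e : v - u = (v - y) - (u - y) := by abel
  rw [e]
  refine (norm_sub_le _ _).trans ?_
  linarith

/-- The group of unitaries of an abelian algebra. -/
@[instance_reducible]
noncomputable def ucg (A : VonNeumannAlgebra H) (hA : ∀ a ∈ A, ∀ b ∈ A, a * b = b * a) :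
    CommGroup (unitary A.toStarSubalgebra) :=
  { (inferInstance : Group (unitary A.toStarSubalgebra)) with
    mul_comm := fun g h => by
      apply Subtype.ext
      apply Subtype.ext
      exact hA _ g.1.2 _ h.1.2 }

/-- The conjugation theorem. -/
theorem conj_into (A N : VonNeumannAlgebra H) (hA : ∀ a ∈ A, ∀ b ∈ A, a * b = b * a) (γ : ℝ)
    (hγ : γ ≤ 1 / 768) (hAN : Near γ A N) :
    ∃ w : H →L[ℂ] H, star w * w = 1 ∧ w * star w = 1 ∧ ‖w - 1‖ ≤ 112 * γ ∧
      (∀ a ∈ A, w * a * star w ∈ N) ∧
      ∀ t ∈ A.commutant, t ∈ N.commutant → w * t = t * w := by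
  letI := ucg A hA
  let G := unitary A.toStarSubalgebra
  let u : G → (H →L[ℂ] H) := fun g => ((g : A.toStarSubalgebra) : H →L[ℂ] H)
  have umem : ∀ g, u g ∈ A := fun g => g.1.2
  have umul : ∀ g h, u (g * h) = u g * u h := fun g h => rfl
  have ul : ∀ g, star (u g) * u g = 1 := fun g =>
    congrArg (fun z : A.toStarSubalgebra => (z : H →L[ℂ] H)) (Unitary.coe_star_mul_self g)
  have ur : ∀ g, u g * star (u g) = 1 := fun g =>
    congrArg (fun z : A.toStarSubalgebra => (z : H →L[ℂ] H)) (Unitary.coe_mul_star_self g)
  have hnear := fun g => near_unitary (by linarith) hAN (umem g) (ul g) (ur g)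
  choose f fN fl fr fd using hnear
  have hγ0 : 0 ≤ γ := by
    have := (norm_nonneg _).trans (fd 1)
    linarith
  have hf : UMap N f (12 * γ) := by
    refine ⟨fN, fl, fr, fun g k => ?_⟩
    have e : f (g * k) - f g * f k = (f (g * k) - u (g * k)) - (f g - u g) * u k -
        f g * (f k - u k) := by
      rw [umul]
      noncomm_ring
    rw [e]
    have h1 : ‖(f g - u g) * u k‖ ≤ 4 * γ := (norm_unitary_mul (ul k) _).trans (fd g)
    have h2 : ‖f g * (f k - u k)‖ ≤ 4 * γ := (norm_mul_unitary (fl g) _).trans (fd k)
    have h3 := norm_sub_le ((f (g * k) - u (g * k)) - (f g - u g) * u k) (f g * (f k - u k))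
    have h4 := norm_sub_le (f (g * k) - u (g * k)) ((f g - u g) * u k)
    have h5 := fd (g * k)
    linarith
  obtain ⟨v, vN, vl, vr, vmul, vd⟩ := kazhdan N (by linarith) hf
  have hvu : ∀ g, ‖v g - u g‖ ≤ 28 * γ := by
    intro g
    have e : v g - u g = (v g - f g) + (f g - u g) := by abel
    rw [e]
    refine (norm_add_le _ _).trans ?_
    linarith [vd g, fd g]
  obtain ⟨cm, m, hm⟩ := exists_opMean G H
  let F : G → (H →L[ℂ] H) := fun g => v g * star (u g)
  have bF : BddO F := ⟨1, fun g => (norm_mul_unitary (vl g) _).trans (by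
    rw [norm_star]; exact norm_le_one_of (ul g))⟩
  let x : H →L[ℂ] H := m F
  have hFd : ∀ g, ‖F g - 1‖ ≤ 28 * γ := by
    intro g
    have e : F g - 1 = (v g - u g) * star (u g) := by
      rw [sub_mul, ur]
    rw [e]
    exact (norm_unitary_mul (by rw [star_star]; exact ur g) _).trans (hvu g)
  have hx1 : ‖x - 1‖ ≤ 28 * γ := by
    have e : x - 1 = m (fun g => F g - 1) := by
      rw [hm.sub bF (BddO.const 1), hm.const]
    rw [e]
    exact hm.bound hFd
  have hvx : ∀ k, v k * x = x * u k := by
    intro k
    have e1 : v k * x = m (fun g => v k * F g) := (hm.mul_left (v k) bF).symm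
    have e2 : x * u k = m (fun g => F g * u k) := (hm.mul_right (u k) bF).symm
    have b2 : BddO (fun g => F g * u k) := bF.mul (BddO.const (u k))
    rw [e1, e2, ← hm.inv k b2]
    congr 1
    funext g
    show v k * (v g * star (u g)) = v (k * g) * star (u (k * g)) * u k
    rw [vmul, mul_comm k g, umul, star_mul]
    calc v k * (v g * star (u g)) = v k * v g * (1 * star (u g)) := by noncomm_ring
      _ = v k * v g * ((star (u k) * u k) * star (u g)) := by rw [ul]
      _ = v k * v g * (star (u k) * (u k * star (u g))) := by noncomm_ring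
      _ = v k * v g * (star (u k) * (star (u g) * u k)) := by
          rw [hA (u k) (umem k) (star (u g)) (star_mem (umem g))]
      _ = v k * v g * (star (u k) * star (u g)) * u k := by noncomm_ring
  have hxt : ∀ t ∈ A.commutant, t ∈ N.commutant → x * t = t * x := by
    intro t htA htN
    have e1 : t * x = m (fun g => t * F g) := (hm.mul_left t bF).symm
    have e2 : x * t = m (fun g => F g * t) := (hm.mul_right t bF).symm
    rw [e1, e2]
    congr 1
    funext g
    show v g * star (u g) * t = t * (v g * star (u g))
    rw [mul_assoc, comm_of_mem A (star_mem (umem g)) htA, ← mul_assoc, comm_of_mem N (vN g) htN,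
      mul_assoc]
  have hxu : ∀ k, star x * x * u k = u k * (star x * x) := by
    intro k
    -- `star (v k) * x = x * star (u k)`
    have h1 := hvx k
    have h2 : star (v k) * x = x * star (u k) := by
      calc star (v k) * x = star (v k) * (x * (u k * star (u k))) := by rw [ur, mul_one]
        _ = star (v k) * ((x * u k) * star (u k)) := by noncomm_ring
        _ = star (v k) * ((v k * x) * star (u k)) := by rw [h1]
        _ = (star (v k) * v k) * x * star (u k) := by noncomm_ring
        _ = x * star (u k) := by rw [vl, one_mul]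
    have h3 : star x * v k = u k * star x := by
      have := congrArg star h2
      rwa [star_mul, star_star, star_mul, star_star] at this
    calc star x * x * u k = star x * (x * u k) := mul_assoc _ _ _
      _ = star x * (v k * x) := by rw [h1]
      _ = (star x * v k) * x := by rw [mul_assoc]
      _ = (u k * star x) * x := by rw [h3]
      _ = u k * (star x * x) := by rw [mul_assoc]
  obtain ⟨hd1, hd2⟩ := almost_unitary (x := x) (u := (1 : H →L[ℂ] H)) (θ := 28 * γ)
    (by linarith) (by simp) (by simp) (by rw [norm_sub_rev]; exact hx1)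
  obtain ⟨k, -, hk, hw1, hw2, hw3⟩ := polar x (3 * (28 * γ)) (by linarith) hd1 hd2
  refine ⟨x * k, hw1, hw2, ?_, ?_, ?_⟩
  · have e : x * k - 1 = (x * k - x) + (x - 1) := by abel
    rw [e]
    refine (norm_add_le _ _).trans ?_
    linarith
  · intro a ha
    have key : ∀ b : A.toStarSubalgebra, x * k * (b : H →L[ℂ] H) * star (x * k) ∈ N := by
      intro b
      have hb : b ∈ Submodule.span ℂ (unitary A.toStarSubalgebra : Set A.toStarSubalgebra) := by
        rw [CStarAlgebra.span_unitary]
        trivial
      induction hb using Submodule.span_induction with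
      | mem b hb =>
        have h1 := hk (u ⟨b, hb⟩) (hxu ⟨b, hb⟩)
        have h2 := hvx ⟨b, hb⟩
        have e : x * k * (b : H →L[ℂ] H) * star (x * k) = v ⟨b, hb⟩ := by
          change x * k * u ⟨b, hb⟩ * star (x * k) = _
          calc x * k * u ⟨b, hb⟩ * star (x * k) = x * (k * u ⟨b, hb⟩) * star (x * k) := by
                rw [mul_assoc x]
            _ = x * (u ⟨b, hb⟩ * k) * star (x * k) := by rw [h1]
            _ = (x * u ⟨b, hb⟩) * k * star (x * k) := by simp only [mul_assoc]
            _ = v ⟨b, hb⟩ * ((x * k) * star (x * k)) := by rw [← h2]; simp only [mul_assoc]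
            _ = v ⟨b, hb⟩ := by rw [hw2, mul_one]
        rw [e]
        exact vN _
      | zero =>
        rw [ZeroMemClass.coe_zero, mul_zero, zero_mul]
        exact zero_mem N
      | add b c _ _ hb hc =>
        rw [AddMemClass.coe_add, mul_add, add_mul]
        exact add_mem hb hc
      | smul r b _ hb =>
        rw [SetLike.val_smul, mul_smul_comm, smul_mul_assoc]
        exact N.toStarSubalgebra.smul_mem hb r
    exact key ⟨a, ha⟩
  · intro t htA htN
    have h1 := hxt t htA htN
    have h2 : star x * t = t * star x := by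
      have := hxt (star t) (star_mem htA) (star_mem htN)
      have := congrArg star this
      rw [star_mul, star_mul, star_star] at this
      exact this.symm
    have h3 : k * t = t * k := hk t (by
      rw [mul_assoc, h1, ← mul_assoc, h2, mul_assoc])
    rw [mul_assoc, h3, ← mul_assoc, h1, mul_assoc]

end Pool.Agent.R298.CC
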