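import Mathlib
import Pool.Agent.Helper278.DefsG

/-!
Kadison–Kastler distance and Murray–von Neumann dimension.
-/

set_option autoImplicit false

open scoped InnerProductSpace ENNReal

namespace Pool.Agent.R298.CC

open Pool.Agent.Helper278

variable {H : Type} [NormedAddCommGroup H] [InnerProductSpace ℂ H] [CompleteSpace H]

/-- The Kadison–Kastler distance: the Hausdorff distance of the closed unit balls with respect to
the operator norm. -/
noncomputable def kkDist (M N : VonNeumannAlgebra H) : ℝ :=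
  Metric.hausdorffDist {x : H →L[ℂ] H | x ∈ M ∧ ‖x‖ ≤ 1} {x : H →L[ℂ] H | x ∈ N ∧ ‖x‖ ≤ 1}

/-- A family of vectors `ξ i` and projections `p i` of `M` such that `x p_i ↦ x ξ_i` is an isometric
embedding of the left `M`-module `⨁ L²(M, τ) p_i` into `H`: `⟪x ξ_i, y ξ_i⟫ = τ(x* y p_i)`, that is,
the vector state of `ξ_i` on `M` is `τ(· p_i)`, and the submodules `M ξ_i` are pairwise
orthogonal. -/
structure IsModFamily (M : VonNeumannAlgebra H) (τ : Elt M → ℂ) {ι : Type} (ξ : ι → H)
    (p : ι → Elt M) : Prop where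
  star_eq : ∀ i, star (p i) = p i
  idem : ∀ i, p i * p i = p i
  diag : ∀ i (x : Elt M), ⟪ξ i, (x : H →L[ℂ] H) (ξ i)⟫_ℂ = τ (x * p i)
  orth : ∀ i j, i ≠ j → ∀ x : Elt M, ⟪ξ i, (x : H →L[ℂ] H) (ξ j)⟫_ℂ = 0

/-- The family generates `H`: with `IsModFamily` this says that the left `M`-module `H` is
isomorphic to `⨁ L²(M, τ) p_i`. -/
def IsTotal (M : VonNeumannAlgebra H) {ι : Type} (ξ : ι → H) : Prop :=
  ∀ η : H, (∀ i (x : Elt M), ⟪(x : H →L[ℂ] H) (ξ i), η⟫_ℂ = 0) → η = 0

/-- The Murray–von Neumann dimension (coupling constant) of `H` as a left module over the II₁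
factor `M` with trace `τ`: the supremum of the numbers `∑ τ(p_i)` over all finite families of
projections such that `⨁ L²(M, τ) p_i` embeds into `H` as a left `M`-module. -/
noncomputable def dimM (M : VonNeumannAlgebra H) (τ : Elt M → ℂ) : ℝ≥0∞ :=
  ⨆ (n : ℕ) (ξ : Fin n → H) (p : Fin n → Elt M) (_ : IsModFamily M τ ξ p),
    ∑ i, ENNReal.ofReal (τ (p i)).re

end Pool.Agent.R298.CC
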