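import Mathlib
import Pool.Agent.R298.CC.Conj
import Pool.Agent.Helper278.Masa

/-!
Conjugated algebras, masas and averages over the unitary group of an abelian algebra.
-/

set_option autoImplicit false
set_option linter.unusedSectionVars false
set_option linter.unusedVariables false

open scoped InnerProductSpace

namespace Pool.Agent.R298.CC

variable {H : Type} [NormedAddCommGroup H] [InnerProductSpace ℂ H] [CompleteSpace H]

lemma conj_mul (w : H →L[ℂ] H) (h1 : star w * w = 1) (a b : H →L[ℂ] H) :
    w * (a * b) * star w = (w * a * star w) * (w * b * star w) := by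
  calc w * (a * b) * star w = w * a * 1 * b * star w := by noncomm_ring
    _ = w * a * (star w * w) * b * star w := by rw [h1]
    _ = _ := by noncomm_ring

/-- The algebra `star w * N * w`. -/
noncomputable def conjVN (w : H →L[ℂ] H) (h1 : star w * w = 1) (h2 : w * star w = 1)
    (N : VonNeumannAlgebra H) : VonNeumannAlgebra H where
  toStarSubalgebra :=
    { carrier := {x | w * x * star w ∈ N}
      mul_mem' := by
        intro a b ha hb
        show w * (a * b) * star w ∈ N
        rw [conj_mul w h1]
        exact mul_mem ha hb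
      add_mem' := by
        intro a b ha hb
        show w * (a + b) * star w ∈ N
        rw [mul_add, add_mul]
        exact add_mem ha hb
      algebraMap_mem' := by
        intro c
        show w * (algebraMap ℂ (H →L[ℂ] H) c) * star w ∈ N
        rw [← Algebra.commutes c w, mul_assoc, h2, mul_one]
        exact N.toStarSubalgebra.algebraMap_mem c
      star_mem' := by
        intro a ha
        show w * star a * star w ∈ N
        have : w * star a * star w = star (w * a * star w) := by
          rw [star_mul, star_mul, star_star, mul_assoc]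
        rw [this]
        exact star_mem ha }
  centralizer_centralizer' := by
    apply Set.Subset.antisymm
    · intro z hz
      show w * z * star w ∈ N
      refine mem_of_comm N ?_
      intro t ht
      have h3 : star w * t * w ∈ Set.centralizer {x : H →L[ℂ] H | w * x * star w ∈ N} := by
        intro s hs
        have h4 : (w * s * star w) * t = t * (w * s * star w) := comm_of_mem N hs ht
        calc s * (star w * t * w) = (star w * w) * s * (star w * t * w) := by rw [h1, one_mul]
          _ = star w * ((w * s * star w) * t) * w := by noncomm_ring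
          _ = star w * (t * (w * s * star w)) * w := by rw [h4]
          _ = star w * t * w * s * (star w * w) := by noncomm_ring
          _ = star w * t * w * s := by rw [h1, mul_one]
      have h5 : star w * t * w * z = z * (star w * t * w) := hz _ h3
      calc w * z * star w * t = w * z * star w * t * (w * star w) := by rw [h2, mul_one]
        _ = w * (z * (star w * t * w)) * star w := by noncomm_ring
        _ = w * (star w * t * w * z) * star w := by rw [h5]
        _ = (w * star w) * t * w * z * star w := by noncomm_ring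
        _ = t * (w * z * star w) := by rw [h2]; noncomm_ring
    · exact Set.subset_centralizer_centralizer

lemma mem_conjVN (w : H →L[ℂ] H) (h1 : star w * w = 1) (h2 : w * star w = 1)
    (N : VonNeumannAlgebra H) (x : H →L[ℂ] H) :
    x ∈ conjVN w h1 h2 N ↔ w * x * star w ∈ N := Iff.rfl

lemma back_mem_conjVN (w : H →L[ℂ] H) (h1 : star w * w = 1) (h2 : w * star w = 1)
    (N : VonNeumannAlgebra H) {x : H →L[ℂ] H} (hx : x ∈ N) :
    star w * x * w ∈ conjVN w h1 h2 N := by
  rw [mem_conjVN]
  have : w * (star w * x * w) * star w = x := by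
    calc w * (star w * x * w) * star w = (w * star w) * x * (w * star w) := by noncomm_ring
      _ = x := by rw [h2, one_mul, mul_one]
  rwa [this]

lemma mem_comm_conjVN (w : H →L[ℂ] H) (h1 : star w * w = 1) (h2 : w * star w = 1)
    (N : VonNeumannAlgebra H) (t : H →L[ℂ] H) (ht : w * t * star w ∈ N.commutant) :
    t ∈ (conjVN w h1 h2 N).commutant := by
  rw [mem_comm_iff]
  intro x hx
  have h3 := comm_of_mem N hx ht
  calc x * t = (star w * w) * (x * t) * (star w * w) := by rw [h1, one_mul, mul_one]
    _ = star w * (w * (x * t) * star w) * w := by noncomm_ring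
    _ = star w * ((w * x * star w) * (w * t * star w)) * w := by rw [conj_mul w h1]
    _ = star w * ((w * t * star w) * (w * x * star w)) * w := by rw [h3]
    _ = star w * (w * (t * x) * star w) * w := by rw [conj_mul w h1]
    _ = (star w * w) * (t * x) * (star w * w) := by noncomm_ring
    _ = t * x := by rw [h1, one_mul, mul_one]

lemma norm_conj_sub (w : H →L[ℂ] H) (h1 : star w * w = 1) (y : H →L[ℂ] H) :
    ‖star w * y * w - y‖ ≤ 2 * ‖w - 1‖ * ‖y‖ := by
  have e : star w * y * w - y = star w * (y * (w - 1) - (w - 1) * y) := by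
    have : y = star w * w * y := by rw [h1, one_mul]
    calc star w * y * w - y = star w * y * w - star w * w * y := by rw [h1, one_mul]
      _ = _ := by noncomm_ring
  rw [e]
  refine (norm_mul_le _ _).trans ?_
  have h2 : ‖star w‖ ≤ 1 := by rw [norm_star]; exact norm_le_one_of h1
  have h3 : ‖y * (w - 1) - (w - 1) * y‖ ≤ 2 * ‖w - 1‖ * ‖y‖ := by
    refine (norm_sub_le _ _).trans ?_
    have a1 := norm_mul_le y (w - 1)
    have a2 := norm_mul_le (w - 1) y
    nlinarith
  calc ‖star w‖ * ‖y * (w - 1) - (w - 1) * y‖ ≤ 1 * (2 * ‖w - 1‖ * ‖y‖) :=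
        mul_le_mul h2 h3 (norm_nonneg _) zero_le_one
    _ = _ := one_mul _

lemma norm_conj_sub' (w : H →L[ℂ] H) (h1 : star w * w = 1) (h2 : w * star w = 1)
    (y : H →L[ℂ] H) : ‖w * y * star w - y‖ ≤ 2 * ‖w - 1‖ * ‖y‖ := by
  have h := norm_conj_sub (star w) (by rw [star_star]; exact h2) y
  rw [star_star] at h
  have e : ‖star w - 1‖ = ‖w - 1‖ := by
    rw [← norm_star (w - 1), star_sub, star_one]
  rwa [e] at h

lemma near_conj_right {M N : VonNeumannAlgebra H} {γ c : ℝ} (hγ : γ ≤ 1) (w : H →L[ℂ] H)
    (h1 : star w * w = 1) (h2 : w * star w = 1) (hw : ‖w - 1‖ ≤ c) (h : Near γ M N) :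
    Near (γ + 4 * c) M (conjVN w h1 h2 N) := by
  intro x hx hx1
  obtain ⟨y, hy, hd⟩ := h x hx hx1
  refine ⟨star w * y * w, back_mem_conjVN w h1 h2 N hy, ?_⟩
  have ny : ‖y‖ ≤ 2 := by
    have : y = x - (x - y) := by abel
    rw [this]
    refine (norm_sub_le _ _).trans ?_
    linarith
  have e : x - star w * y * w = (x - y) - (star w * y * w - y) := by abel
  rw [e]
  refine (norm_sub_le _ _).trans ?_
  have h3 := norm_conj_sub w h1 y
  nlinarith [norm_nonneg (w - 1), norm_nonneg y]

lemma near_conj_left {M N : VonNeumannAlgebra H} {γ c : ℝ} (w : H →L[ℂ] H)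
    (h1 : star w * w = 1) (h2 : w * star w = 1) (hw : ‖w - 1‖ ≤ c) (h : Near γ N M) :
    Near (γ + 4 * c) (conjVN w h1 h2 N) M := by
  intro x hx hx1
  have n1 : ‖w * x * star w‖ ≤ 1 :=
    (norm_unitary_mul (by rw [star_star]; exact h2) _).trans ((norm_mul_unitary h1 x).trans hx1)
  obtain ⟨y, hy, hd⟩ := h _ hx n1
  refine ⟨y, hy, ?_⟩
  have e : x - y = (w * x * star w - y) - (w * x * star w - x) := by abel
  rw [e]
  refine (norm_sub_le _ _).trans ?_
  have h3 := norm_conj_sub' w h1 h2 x
  nlinarith [norm_nonneg (w - 1), norm_nonneg x]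

open Pool.Agent.Helper278 in
/-- Masas as von Neumann algebras. -/
theorem exists_masaVN (N : VonNeumannAlgebra H) (S : Set (H →L[ℂ] H)) (hSN : ∀ x ∈ S, x ∈ N)
    (hSs : ∀ x ∈ S, star x ∈ S) (hSc : ∀ x ∈ S, ∀ y ∈ S, x * y = y * x) :
    ∃ A : VonNeumannAlgebra H, (∀ x ∈ A, x ∈ N) ∧ (∀ x ∈ A, ∀ y ∈ A, x * y = y * x) ∧
      (∀ x ∈ N, (∀ y ∈ A, x * y = y * x) → x ∈ A) ∧ ∀ x ∈ S, x ∈ A := by
  obtain ⟨D, hD, hSD⟩ := exists_masa N S hSN hSs hSc
  let A : VonNeumannAlgebra H :=
    { toStarSubalgebra := D
      centralizer_centralizer' := by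
        apply Set.Subset.antisymm
        · intro z hz
          refine hD.max z ?_ ?_
          · refine mem_of_comm N ?_
            intro t ht
            refine (hz t ?_).symm
            intro s hs
            exact comm_of_mem N (hD.le s hs) ht
          · intro y hy
            refine (hz y ?_).symm
            intro s hs
            exact hD.comm s hs y hy
        · exact Set.subset_centralizer_centralizer }
  exact ⟨A, hD.le, hD.comm, hD.max, hSD⟩

/-- The average over the unitary group of an abelian algebra. -/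
theorem exists_avg (A : VonNeumannAlgebra H) (hA : ∀ a ∈ A, ∀ b ∈ A, a * b = b * a) :
    ∃ (cm : (unitary A.toStarSubalgebra → ℂ) → ℂ) (E : (H →L[ℂ] H) → (H →L[ℂ] H)),
      @CMean (unitary A.toStarSubalgebra) (ucg A hA) cm ∧
      (∀ z (ξ η : H), ⟪η, E z ξ⟫_ℂ = cm (fun g =>
        ⟪η, (((g : A.toStarSubalgebra) : H →L[ℂ] H) * z *
          star ((g : A.toStarSubalgebra) : H →L[ℂ] H)) ξ⟫_ℂ)) ∧
      (∀ M : VonNeumannAlgebra H, (∀ a ∈ A, a ∈ M) → ∀ z ∈ M, E z ∈ M) ∧
      (∀ z, E z ∈ A.commutant) ∧
      (∀ z y, y ∈ A.commutant → ‖y - E z‖ ≤ ‖y - z‖) ∧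
      (∀ z y, y ∈ A.commutant → E (z * y) = E z * y) := by
  letI := ucg A hA
  let G := unitary A.toStarSubalgebra
  let u : G → (H →L[ℂ] H) := fun g => ((g : A.toStarSubalgebra) : H →L[ℂ] H)
  have umem : ∀ g, u g ∈ A := fun g => g.1.2
  have umul : ∀ g h, u (g * h) = u g * u h := fun g h => rfl
  have ul : ∀ g, star (u g) * u g = 1 := fun g =>
    congrArg (fun z : A.toStarSubalgebra => (z : H →L[ℂ] H)) (Unitary.coe_star_mul_self g)
  have ur : ∀ g, u g * star (u g) = 1 := fun g =>
    congrArg (fun z : A.toStarSubalgebra => (z : H →L[ℂ] H)) (Unitary.coe_mul_star_self g)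
  obtain ⟨cm, m, hm⟩ := exists_opMean G H
  let F : (H →L[ℂ] H) → G → (H →L[ℂ] H) := fun z g => u g * z * star (u g)
  have nF : ∀ z g, ‖F z g‖ ≤ ‖z‖ := fun z g =>
    (norm_unitary_mul (by rw [star_star]; exact ur g) _).trans (norm_mul_unitary (ul g) z)
  have bF : ∀ z, BddO (F z) := fun z => ⟨‖z‖, nF z⟩
  refine ⟨cm, fun z => m (F z), hm.cmean, fun z ξ η => hm.inner (F z) (bF z) ξ η, ?_, ?_, ?_, ?_⟩
  · intro M hAM z hz
    exact hm.mem M (bF z) fun g => mul_mem (mul_mem (hAM _ (umem g)) hz)
      (star_mem (hAM _ (umem g)))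
  · intro z
    rw [mem_comm_iff]
    -- commutes with the unitaries
    have hk : ∀ k, u k * m (F z) = m (F z) * u k := by
      intro k
      have h1 : u k * m (F z) * star (u k) = m (F z) := by
        rw [← hm.mul_left (u k) (bF z), ← hm.mul_right (star (u k))
          (f := fun g => u k * F z g) ((BddO.const (u k)).mul (bF z)), ← hm.inv k (bF z)]
        congr 1
        funext g
        show u k * (u g * z * star (u g)) * star (u k) = u (k * g) * z * star (u (k * g))
        rw [umul, star_mul]
        noncomm_ring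
      calc u k * m (F z) = u k * m (F z) * (star (u k) * u k) := by rw [ul, mul_one]
        _ = (u k * m (F z) * star (u k)) * u k := by noncomm_ring
        _ = m (F z) * u k := by rw [h1]
    intro a ha
    have key : ∀ b : A.toStarSubalgebra, (b : H →L[ℂ] H) * m (F z) = m (F z) * b := by
      intro b
      have hb : b ∈ Submodule.span ℂ (unitary A.toStarSubalgebra : Set A.toStarSubalgebra) := by
        rw [CStarAlgebra.span_unitary]
        trivial
      induction hb using Submodule.span_induction with
      | mem b hb => exact hk ⟨b, hb⟩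
      | zero => rw [ZeroMemClass.coe_zero, mul_zero, zero_mul]
      | add b c _ _ hb hc => rw [AddMemClass.coe_add, mul_add, add_mul, hb, hc]
      | smul r b _ hb => rw [SetLike.val_smul, mul_smul_comm, smul_mul_assoc, hb]
    exact key ⟨a, ha⟩
  · intro z y hy
    have h1 : ∀ g, F y g = y := by
      intro g
      show u g * y * star (u g) = y
      rw [comm_of_mem A (umem g) hy, mul_assoc, ur, mul_one]
    have e : y - m (F z) = m (fun g => F (y - z) g) := by
      have e1 : (fun g => F (y - z) g) = fun g => y - F z g := by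
        funext g
        have e2 : F (y - z) g = F y g - F z g := by
          show u g * (y - z) * star (u g) = u g * y * star (u g) - u g * z * star (u g)
          noncomm_ring
        rw [e2, h1]
      rw [e1, hm.sub (f := fun _ => y) (BddO.const y) (bF z), hm.const]
    rw [e]
    exact hm.bound (nF (y - z))
  · intro z y hy
    show m (F (z * y)) = m (F z) * y
    rw [← hm.mul_right y (bF z)]
    congr 1
    funext g
    show u g * (z * y) * star (u g) = u g * z * star (u g) * y
    have := comm_of_mem A (star_mem (umem g)) hy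
    calc u g * (z * y) * star (u g) = u g * z * (y * star (u g)) := by noncomm_ring
      _ = u g * z * (star (u g) * y) := by rw [this]
      _ = _ := by noncomm_ring

/-- A masa of `M` contained in a close algebra `N` is a masa of `N`. -/
theorem masa_of_near (A M N : VonNeumannAlgebra H) (hA : ∀ a ∈ A, ∀ b ∈ A, a * b = b * a)
    (hAM : ∀ a ∈ A, a ∈ M) (hAN : ∀ a ∈ A, a ∈ N)
    (hmax : ∀ x ∈ M, (∀ y ∈ A, x * y = y * x) → x ∈ A) {γ : ℝ} (hγ : γ ≤ 1 / 2)
    (hNM : Near γ N M) : ∀ x ∈ N, (∀ y ∈ A, x * y = y * x) → x ∈ A := by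
  intro x hx hxA
  obtain ⟨cm, E, -, -, hEM, hEA, hEd, -⟩ := exists_avg A hA
  have key : ∀ n : ℕ, ∃ a ∈ A, ‖x - a‖ ≤ (1 / 2) ^ n * ‖x‖ := by
    intro n
    induction n with
    | zero => exact ⟨0, zero_mem A, by simp⟩
    | succ n ih =>
      obtain ⟨a, ha, hd⟩ := ih
      obtain ⟨z, hz, hdz⟩ := hNM.norm (sub_mem hx (hAN a ha))
      have hc : x - a ∈ A.commutant := by
        rw [mem_comm_iff]
        intro y hy
        rw [mul_sub, sub_mul, hxA y hy, hA y hy a ha]
      have hEz : E z ∈ A := by
        refine hmax _ (hEM M hAM z hz) ?_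
        intro y hy
        exact (comm_of_mem A hy (hEA z)).symm
      refine ⟨a + E z, add_mem ha hEz, ?_⟩
      have h1 := hEd z _ hc
      have e : x - (a + E z) = x - a - E z := by abel
      rw [e]
      refine h1.trans (hdz.trans ?_)
      rw [pow_succ]
      nlinarith [norm_nonneg (x - a)]
  refine mem_of_comm A ?_
  intro t ht
  have hlim : ∀ ε : ℝ, 0 < ε → ‖x * t - t * x‖ ≤ ε := by
    intro ε hε
    have h0 : Filter.Tendsto (fun n : ℕ => (1 / 2 : ℝ) ^ n * ‖x‖ * (2 * ‖t‖)) Filter.atTop
        (nhds 0) := by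
      have := ((tendsto_pow_atTop_nhds_zero_of_lt_one (r := (1 / 2 : ℝ)) (by norm_num)
          (by norm_num)).mul_const ‖x‖).mul_const (2 * ‖t‖)
      rwa [zero_mul, zero_mul] at this
    obtain ⟨n, hn⟩ := ((tendsto_order.1 h0).2 ε hε).exists
    obtain ⟨a, ha, hd⟩ := key n
    have e : x * t - t * x = (x - a) * t - t * (x - a) := by
      rw [sub_mul, mul_sub, comm_of_mem A ha ht]
      abel
    rw [e]
    have a1 := norm_mul_le (x - a) t
    have a2 := norm_mul_le t (x - a)
    have a3 := norm_sub_le ((x - a) * t) (t * (x - a))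
    have a4 : ‖x - a‖ * (2 * ‖t‖) ≤ (1 / 2 : ℝ) ^ n * ‖x‖ * (2 * ‖t‖) :=
      mul_le_mul_of_nonneg_right hd (by positivity)
    nlinarith
  have h0 : ‖x * t - t * x‖ ≤ 0 := le_of_forall_pos_le_add (fun ε hε => by
    rw [zero_add]; exact hlim ε hε)
  exact sub_eq_zero.1 (norm_le_zero_iff.1 h0)

end Pool.Agent.R298.CC
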