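import Mathlib
import Pool.Agent.R298.CC.VN
import Pool.Agent.Helper278.GroupMain

/-!
Traces of close II₁ factors agree on the intersection.
-/

set_option autoImplicit false
set_option linter.unusedSectionVars false
set_option linter.unusedVariables false

open scoped InnerProductSpace ComplexOrder

namespace Pool.Agent.R298.CC

open Pool.Agent.Helper278

variable {H : Type} [NormedAddCommGroup H] [InnerProductSpace ℂ H] [CompleteSpace H]

/-- Projections at distance less than one have the same trace. -/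
theorem tau_eq_of_close {N : VonNeumannAlgebra H} (T : TracialState N) (e f : Elt N)
    (he : star e = e) (hee : e * e = e) (hf : star f = f) (hff : f * f = f)
    (h : ‖(e : H →L[ℂ] H) - (f : H →L[ℂ] H)‖ < 1) : T.τ e = T.τ f := by
  let z : Elt N := e * f + (1 - e) * (1 - f)
  have hz : 1 - z = (1 - (e + e)) * (f - e) := by
    have : (1 - (e + e)) * (f - e) = f - e - (e * f + e * f) + (e * e + e * e) := by noncomm_ring
    rw [this, hee]
    show 1 - (e * f + (1 - e) * (1 - f)) = _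
    noncomm_ring
  have hn : ‖(1 - (e + e) : H →L[ℂ] H)‖ ≤ 1 := by
    apply norm_le_one_of
    have he' : star (e : H →L[ℂ] H) = e := congrArg Subtype.val he
    have hee' : (e : H →L[ℂ] H) * e = e := congrArg Subtype.val hee
    rw [star_sub, star_add, star_one, he']
    calc (1 - ((e : H →L[ℂ] H) + e)) * (1 - ((e : H →L[ℂ] H) + e)) =
        1 - (e : H →L[ℂ] H) - e - e - e + (e * e + e * e + e * e + e * e) := by noncomm_ring
      _ = 1 := by rw [hee']; abel
  have hnz : ‖1 - z‖ < 1 := by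
    rw [hz]
    have h1 : ‖(1 - (e + e)) * (f - e)‖ ≤ ‖(1 - (e + e) : Elt N)‖ * ‖f - e‖ := norm_mul_le _ _
    have h2 : ‖(1 - (e + e) : Elt N)‖ ≤ 1 := hn
    have h3 : ‖f - e‖ < 1 := by
      rw [norm_sub_rev]
      exact h
    nlinarith [norm_nonneg (f - e), norm_nonneg (1 - (e + e) : Elt N)]
  have hu : IsUnit z := by
    have : z = 1 - (1 - z) := by abel
    rw [this]
    exact isUnit_one_sub_of_norm_lt_one hnz
  obtain ⟨u, hu⟩ := hu
  have h1 : e * z = z * f := by
    have a1 : e * z = (e * e) * f + (e - e * e) * (1 - f) := by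
      show e * (e * f + (1 - e) * (1 - f)) = _
      noncomm_ring
    have a2 : z * f = e * (f * f) + (1 - e) * (f - f * f) := by
      show (e * f + (1 - e) * (1 - f)) * f = _
      noncomm_ring
    rw [a1, a2, hee, hff]
    noncomm_ring
  have h2 : e = (u : Elt N) * f * (↑u⁻¹ : Elt N) := by
    rw [hu, ← h1, ← hu, mul_assoc, Units.mul_inv, mul_one]
  rw [h2, T.tracial, ← mul_assoc, Units.inv_mul, one_mul]

theorem tau_norm_le {N : VonNeumannAlgebra H} (T : TracialState N) (x : Elt N) :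
    ‖T.τ x‖ ≤ ‖(x : H →L[ℂ] H)‖ := by
  have h := trAlg T
  have h1 := h.norm_le x
  have h2 := n2_mul_le T x 1
  rw [mul_one, h.n2_one, mul_one] at h2
  exact h1.trans h2

theorem tau_proj {N : VonNeumannAlgebra H} (T : TracialState N) (e : Elt N)
    (he : star e = e) (hee : e * e = e) : T.τ e = ((T.τ e).re : ℂ) ∧ 0 ≤ (T.τ e).re := by
  have h := (trAlg T).nonneg e
  rw [he, hee] at h
  have h1 := Complex.nonneg_iff.1 h
  refine ⟨?_, h1.1⟩
  apply Complex.ext
  · simp
  · simp [← h1.2]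

/-- Projections of the same trace in a factor are unitarily conjugate. -/
theorem exists_unitary_conj {M : VonNeumannAlgebra H} (T : TracialState M)
    (hM : HasTrivialCenter M) (p q : Elt M) (hp : star p = p) (hpp : p * p = p)
    (hq : star q = q) (hqq : q * q = q) (hτ : T.τ p = T.τ q) :
    ∃ u : Elt M, star u * u = 1 ∧ u * star u = 1 ∧ u * p * star u = q := by
  have hA := trAlg T
  have pvm : ∀ p : Elt M, star p = p → p * p = p → PVM (A := Elt M) ![p, 1 - p] := by
    intro p hp hpp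
    have h1 : star (1 - p) = 1 - p := by rw [star_sub, star_one, hp]
    have h2 : (1 - p) * (1 - p) = 1 - p := by
      calc (1 - p) * (1 - p) = 1 - p - p + p * p := by noncomm_ring
        _ = 1 - p := by rw [hpp]; abel
    refine ⟨?_, ?_, ?_, ?_⟩
    · intro i
      fin_cases i
      · exact hp
      · exact h1
    · intro i
      fin_cases i
      · exact hpp
      · exact h2
    · intro i j hij
      fin_cases i <;> fin_cases j
      · exact absurd rfl hij
      · show p * (1 - p) = 0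
        rw [mul_sub, mul_one, hpp, sub_self]
      · show (1 - p) * p = 0
        rw [sub_mul, one_mul, hpp, sub_self]
      · exact absurd rfl hij
    · rw [Fin.sum_univ_two]
      show p + (1 - p) = 1
      abel
  have hP := pvm p hp hpp
  have hQ := pvm q hq hqq
  obtain ⟨u, hu1, hu2, hu3⟩ := hA.conj_pvm ![p, 1 - p] ![q, 1 - q] hP hQ (by
    intro i
    fin_cases i
    · exact exists_equiv T hM p q hp hpp hq hqq hτ
    · refine exists_equiv T hM (1 - p) (1 - q) (hP.star_eq 1) (hP.idem 1) (hQ.star_eq 1)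
        (hQ.idem 1) ?_
      rw [map_sub, map_sub, hτ])
  exact ⟨u, hu1, hu2, hu3 0⟩

/-- Partitions of unity into projections of equal trace adapted to a projection. -/
theorem exists_partition {M : VonNeumannAlgebra H} (T : TracialState M) (hd : IsDiffuse M)
    (e : Elt M) (he : star e = e) (hee : e * e = e) (k l : ℕ) (hl : 1 ≤ l) (hk : 1 ≤ k)
    (hkl : (k : ℝ) / (k + l) ≤ (T.τ e).re) :
    ∃ p : Fin k ⊕ Fin l → Elt M, PVM p ∧ (∀ i, T.τ (p i) = ((1 / (k + l) : ℝ) : ℂ)) ∧
      (∀ i, p (Sum.inl i) * e = p (Sum.inl i)) ∧ (∀ i j, p i * p j = p j * p i) ∧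
      ∀ i, p i * e = e * p i := by
  have hA := trAlg T
  have hk0 : (0 : ℝ) < k := by exact_mod_cast hk
  have hl0 : (0 : ℝ) < l := by exact_mod_cast hl
  have hn0 : (0 : ℝ) < k + l := by linarith
  obtain ⟨hte, ht0⟩ := tau_proj T e he hee
  set t : ℝ := (T.τ e).re with ht
  have htpos : 0 < t := lt_of_lt_of_le (div_pos hk0 hn0) hkl
  have hkt : (k : ℝ) / ((k + l) * t) ≤ 1 := by
    rw [div_le_one (by positivity)]
    rw [div_le_iff₀ hn0] at hkl
    linarith
  have hs1 : star (1 - e) = 1 - e := by rw [star_sub, star_one, he]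
  have hs2 : (1 - e) * (1 - e) = 1 - e := by
    calc (1 - e) * (1 - e) = 1 - e - e + e * e := by noncomm_ring
      _ = 1 - e := by rw [hee]; abel
  have he1 : e * (1 - e) = 0 := by rw [mul_sub, mul_one, hee, sub_self]
  obtain ⟨D, hSD, hDc, hD⟩ := lyapProp T hd {e} (by
      intro x hx
      rw [Set.mem_singleton_iff] at hx ⊢
      rw [hx, he]) (by
      intro x hx y hy
      rw [Set.mem_singleton_iff] at hx hy
      rw [hx, hy])
  have heD : e ∈ D := hSD e rfl
  let c : ℝ := 1 / ((k + l) * t)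
  have hc0 : 0 ≤ c := by positivity
  let x : Fin k ⊕ Fin l → Elt M := Sum.elim (fun _ => (c : ℂ) • e)
    (fun _ => ((1 / l : ℝ) : ℂ) • (1 - e) + ((1 / l * (1 - k * c) : ℝ) : ℂ) • e)
  have hkc : 0 ≤ 1 - k * c := by
    have : (k : ℝ) * c = k / ((k + l) * t) := by simp only [c]; ring
    rw [this]
    linarith
  have hxD : ∀ i, x i ∈ D := by
    intro i
    rcases i with i | i
    · exact D.smul_mem heD _
    · exact add_mem (D.smul_mem (sub_mem (one_mem D) heD) _) (D.smul_mem heD _)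
  have hxP : ∀ i, Pos (x i) := by
    intro i
    rcases i with i | i
    · exact pos_proj he hee c hc0
    · exact pos_add (pos_proj hs1 hs2 _ (by positivity))
        (pos_proj he hee _ (mul_nonneg (by positivity) hkc))
  have hlC : (l : ℂ) ≠ 0 := by exact_mod_cast hl0.ne'
  have hxs : ∑ i, x i = 1 := by
    rw [Fintype.sum_sum_type]
    simp only [x, Sum.elim_inl, Sum.elim_inr, Finset.sum_const, Finset.card_univ, Fintype.card_fin]
    rw [← Nat.cast_smul_eq_nsmul ℂ, ← Nat.cast_smul_eq_nsmul ℂ, smul_add, smul_smul, smul_smul,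
      smul_smul]
    have a1 : (l : ℂ) * ((1 / l : ℝ) : ℂ) = 1 := by
      push_cast
      field_simp
    have a2 : (l : ℂ) * ((1 / l * (1 - k * c) : ℝ) : ℂ) = 1 - k * c := by
      push_cast
      field_simp
    rw [a1, a2, one_smul, sub_smul, one_smul]
    abel
  have hxτ : ∀ i, T.τ (x i) = ((1 / (k + l) : ℝ) : ℂ) := by
    intro i
    have hctr : c * t = 1 / (k + l) := by
      simp only [c]
      field_simp
    rcases i with i | i
    · show T.τ ((c : ℂ) • e) = _
      rw [map_smul, hte, smul_eq_mul, ← Complex.ofReal_mul, hctr]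
    · show T.τ (((1 / l : ℝ) : ℂ) • (1 - e) + ((1 / l * (1 - k * c) : ℝ) : ℂ) • e) = _
      rw [map_add, map_smul, map_smul, map_sub, T.map_one, hte, smul_eq_mul, smul_eq_mul]
      have : (1 / l : ℝ) * (1 - t) + (1 / l * (1 - k * c)) * t = 1 / (k + l) := by
        have h1 : (1 / l : ℝ) * (1 - t) + (1 / l * (1 - k * c)) * t = 1 / l * (1 - k * (c * t)) := by
          ring
        rw [h1, hctr]
        field_simp
        ring
      rw [← this]
      push_cast
      ring
  obtain ⟨p, hpD, hp, hpτ⟩ := hD (Fin k ⊕ Fin l) (Fin 2) x ![1, 1 - e] hxD hxP hxs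
  have hpe : ∀ i, p i * e = e * p i := fun i => hDc _ (hpD i) _ heD
  refine ⟨p, hp, ?_, ?_, fun i j => hDc _ (hpD i) _ (hpD j), hpe⟩
  · intro i
    have := hpτ i 0
    change T.τ (p i * 1) = T.τ (x i * 1) at this
    rw [mul_one, mul_one] at this
    rw [this, hxτ]
  · intro i
    have h1 := hpτ (Sum.inl i) 1
    change T.τ (p (Sum.inl i) * (1 - e)) = T.τ (((c : ℂ) • e) * (1 - e)) at h1
    rw [smul_mul_assoc, he1, smul_zero, map_zero] at h1
    have h2 : star (p (Sum.inl i) * (1 - e)) * (p (Sum.inl i) * (1 - e)) =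
        p (Sum.inl i) * (1 - e) := by
      have hcm : p (Sum.inl i) * (1 - e) = (1 - e) * p (Sum.inl i) := by
        rw [mul_sub, sub_mul, mul_one, one_mul, hpe]
      rw [star_mul, hs1, hp.star_eq]
      calc (1 - e) * p (Sum.inl i) * (p (Sum.inl i) * (1 - e)) =
          (1 - e) * (p (Sum.inl i) * p (Sum.inl i)) * (1 - e) := by noncomm_ring
        _ = (1 - e) * p (Sum.inl i) * (1 - e) := by rw [hp.idem]
        _ = p (Sum.inl i) * ((1 - e) * (1 - e)) := by rw [← hcm]; noncomm_ring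
        _ = p (Sum.inl i) * (1 - e) := by rw [hs2]
    have h3 : p (Sum.inl i) * (1 - e) = 0 := by
      apply hA.faithful
      rw [h2, h1]
    rw [mul_sub, mul_one] at h3
    exact (sub_eq_zero.1 h3).symm

/-- One inequality between the traces of close algebras. -/
theorem trace_le_aux (M N : VonNeumannAlgebra H) (TM : TracialState M) (TN : TracialState N)
    (hMc : HasTrivialCenter M) (hMd : IsDiffuse M) {γ : ℝ} (hγ : γ ≤ 1 / 768)
    (hMN : Near γ M N) (e : H →L[ℂ] H) (heM : e ∈ M) (heN : e ∈ N) (he : star e = e)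
    (hee : e * e = e) (k l : ℕ) (hl : 1 ≤ l) (hk : 1 ≤ k)
    (hkl : (k : ℝ) / (k + l) ≤ (TM.τ ⟨e, heM⟩).re) :
    (k : ℝ) / (k + l) ≤ (TN.τ ⟨e, heN⟩).re := by
  have hk0 : (0 : ℝ) < k := by exact_mod_cast hk
  have hl0 : (0 : ℝ) < l := by exact_mod_cast hl
  have hn0 : (0 : ℝ) < k + l := by linarith
  obtain ⟨p, hp, hpτ, hpe, hpc, hpec⟩ := exists_partition TM hMd ⟨e, heM⟩ (Subtype.ext he)
    (Subtype.ext hee) k l hl hk hkl
  let P : Fin k ⊕ Fin l → (H →L[ℂ] H) := fun i => (p i : H →L[ℂ] H)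
  have hPs : ∀ i, star (P i) = P i := fun i => congrArg Subtype.val (hp.star_eq i)
  have hPi : ∀ i, P i * P i = P i := fun i => congrArg Subtype.val (hp.idem i)
  have hPo : ∀ i j, i ≠ j → P i * P j = 0 := fun i j h => congrArg Subtype.val (hp.orth i j h)
  have hPsum : ∑ i, P i = 1 := by
    have := congrArg Subtype.val hp.sum
    rwa [AddSubmonoidClass.coe_finsetSum] at this
  have hPe : ∀ i, P (Sum.inl i) * e = P (Sum.inl i) := fun i => congrArg Subtype.val (hpe i)
  have hPc : ∀ i j, P i * P j = P j * P i := fun i j => congrArg Subtype.val (hpc i j)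
  have hPec : ∀ i, P i * e = e * P i := fun i => congrArg Subtype.val (hpec i)
  -- an abelian algebra
  obtain ⟨A, hAM, hA, -, hSA⟩ := exists_masaVN M (insert e (Set.range P)) (by
      rintro x (rfl | ⟨i, rfl⟩)
      · exact heM
      · exact (p i).2) (by
      rintro x (rfl | ⟨i, rfl⟩)
      · rw [he]; exact Or.inl rfl
      · rw [hPs]; exact Or.inr ⟨i, rfl⟩) (by
      rintro x (rfl | ⟨i, rfl⟩) y (rfl | ⟨j, rfl⟩)
      · rfl
      · exact (hPec j).symm
      · exact hPec i
      · exact hPc i j)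
  have heA : e ∈ A := hSA e (Or.inl rfl)
  have hPA : ∀ i, P i ∈ A := fun i => hSA _ (Or.inr ⟨i, rfl⟩)
  have hAN : Near γ A N := fun x hx hx1 => hMN x (hAM x hx) hx1
  obtain ⟨w, hw1, hw2, hwn, hwN, -⟩ := conj_into A N hA γ hγ hAN
  have hγ0 : 0 ≤ γ := by
    obtain ⟨y, _, hy⟩ := hAN 0 (zero_mem A) (by simp)
    exact (norm_nonneg _).trans hy
  -- conjugated projections
  let c : (H →L[ℂ] H) → (H →L[ℂ] H) := fun x => w * x * star w
  have cmul : ∀ a b, c (a * b) = c a * c b := fun a b => conj_mul w hw1 a b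
  have cstar : ∀ a, star (c a) = c (star a) := fun a => by
    show star (w * a * star w) = w * star a * star w
    rw [star_mul, star_mul, star_star, mul_assoc]
  have csub : ∀ a b, c (a - b) = c a - c b := fun a b => by
    show w * (a - b) * star w = w * a * star w - w * b * star w
    noncomm_ring
  have cadd : ∀ a b, c (a + b) = c a + c b := fun a b => by
    show w * (a + b) * star w = w * a * star w + w * b * star w
    noncomm_ring
  have nP : ∀ q : H →L[ℂ] H, star q = q → q * q = q → ‖q‖ ≤ 1 := by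
    intro q hq hqq
    have h1 : ‖q‖ * ‖q‖ = ‖q‖ := by
      rw [← CStarRing.norm_star_mul_self, hq, hqq]
    nlinarith [norm_nonneg q, sq_nonneg (‖q‖ - 1)]
  have cnear : ∀ q : H →L[ℂ] H, star q = q → q * q = q → ‖c q - q‖ ≤ 224 * γ := by
    intro q hq hqq
    have h1 := norm_conj_sub' w hw1 hw2 q
    have h2 := nP q hq hqq
    have h3 : ‖w * q * star w - q‖ ≤ 224 * γ := by
      nlinarith [norm_nonneg (w - 1), norm_nonneg q]
    exact h3
  let Q : Fin k ⊕ Fin l → Elt N := fun i => ⟨c (P i), hwN _ (hPA i)⟩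
  have hQs : ∀ i, star (Q i) = Q i := fun i => Subtype.ext (by
    show star (c (P i)) = c (P i)
    rw [cstar, hPs])
  have hQi : ∀ i, Q i * Q i = Q i := fun i => Subtype.ext (by
    show c (P i) * c (P i) = c (P i)
    rw [← cmul, hPi])
  -- the traces agree
  have hQτ : ∀ i j, TN.τ (Q i) = TN.τ (Q j) := by
    intro i j
    obtain ⟨u, hu1, hu2, hu3⟩ := exists_unitary_conj TM hMc (p i) (p j) (hp.star_eq i) (hp.idem i)
      (hp.star_eq j) (hp.idem j) (by rw [hpτ, hpτ])
    have hu1' : star (u : H →L[ℂ] H) * u = 1 := congrArg Subtype.val hu1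
    have hu2' : (u : H →L[ℂ] H) * star (u : H →L[ℂ] H) = 1 := congrArg Subtype.val hu2
    have hu3' : (u : H →L[ℂ] H) * P i * star (u : H →L[ℂ] H) = P j := congrArg Subtype.val hu3
    obtain ⟨g, hgN, hg1, hg2, hgd⟩ := near_unitary (by linarith) hMN u.2 hu1' hu2'
    let g' : Elt N := ⟨g, hgN⟩
    have e1 : TN.τ (g' * Q i * star g') = TN.τ (Q i) := by
      rw [TN.tracial, ← mul_assoc]
      have : star g' * g' = 1 := Subtype.ext hg1
      rw [this, one_mul]
    rw [← e1]
    refine tau_eq_of_close TN _ _ ?_ ?_ (hQs j) (hQi j) ?_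
    · rw [star_mul, star_mul, star_star, hQs, mul_assoc]
    · have : star g' * g' = 1 := Subtype.ext hg1
      calc g' * Q i * star g' * (g' * Q i * star g') =
          g' * Q i * (star g' * g') * Q i * star g' := by noncomm_ring
        _ = g' * (Q i * Q i) * star g' := by rw [this]; noncomm_ring
        _ = g' * Q i * star g' := by rw [hQi]
    · show ‖g * c (P i) * star g - c (P j)‖ < 1
      have hc1 := cnear (P i) (hPs i) (hPi i)
      have hc2 := cnear (P j) (hPs j) (hPi j)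
      have e2 : g * c (P i) * star g - c (P j) =
          (g - (u : H →L[ℂ] H)) * (c (P i) * star g) +
          (u : H →L[ℂ] H) * c (P i) * star (g - (u : H →L[ℂ] H)) +
          (u : H →L[ℂ] H) * (c (P i) - P i) * star (u : H →L[ℂ] H) - (c (P j) - P j) := by
        rw [← hu3', star_sub]
        noncomm_ring
      rw [e2]
      have nci : ‖c (P i)‖ ≤ 1 := nP _ (by rw [cstar, hPs]) (by rw [← cmul, hPi])
      have b1 : ‖(g - (u : H →L[ℂ] H)) * (c (P i) * star g)‖ ≤ 4 * γ := by
        refine (norm_mul_le _ _).trans ?_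
        have : ‖c (P i) * star g‖ ≤ 1 :=
          (norm_unitary_mul (by rw [star_star]; exact hg2) _).trans nci
        nlinarith [norm_nonneg (g - (u : H →L[ℂ] H)), norm_nonneg (c (P i) * star g)]
      have b2 : ‖(u : H →L[ℂ] H) * c (P i) * star (g - (u : H →L[ℂ] H))‖ ≤ 4 * γ := by
        refine (norm_mul_le _ _).trans ?_
        rw [norm_star]
        have : ‖(u : H →L[ℂ] H) * c (P i)‖ ≤ 1 := (norm_mul_unitary hu1' _).trans nci
        nlinarith [norm_nonneg (g - (u : H →L[ℂ] H)), norm_nonneg ((u : H →L[ℂ] H) * c (P i))]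
      have b3 : ‖(u : H →L[ℂ] H) * (c (P i) - P i) * star (u : H →L[ℂ] H)‖ ≤ 224 * γ :=
        (norm_unitary_mul (by rw [star_star]; exact hu2') _).trans
          ((norm_mul_unitary hu1' _).trans hc1)
      have n1 := norm_sub_le ((g - (u : H →L[ℂ] H)) * (c (P i) * star g) +
          (u : H →L[ℂ] H) * c (P i) * star (g - (u : H →L[ℂ] H)) +
          (u : H →L[ℂ] H) * (c (P i) - P i) * star (u : H →L[ℂ] H)) (c (P j) - P j)
      have n2 := norm_add_le ((g - (u : H →L[ℂ] H)) * (c (P i) * star g) +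
          (u : H →L[ℂ] H) * c (P i) * star (g - (u : H →L[ℂ] H)))
          ((u : H →L[ℂ] H) * (c (P i) - P i) * star (u : H →L[ℂ] H))
      have n3 := norm_add_le ((g - (u : H →L[ℂ] H)) * (c (P i) * star g))
          ((u : H →L[ℂ] H) * c (P i) * star (g - (u : H →L[ℂ] H)))
      linarith
  have hQsum : ∑ i, Q i = 1 := by
    apply Subtype.ext
    rw [AddSubmonoidClass.coe_finsetSum]
    show ∑ i, w * P i * star w = 1
    rw [← Finset.sum_mul, ← Finset.mul_sum, hPsum, mul_one, hw2]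
  have hQval : ∀ i, TN.τ (Q i) = ((1 / (k + l) : ℝ) : ℂ) := by
    intro i
    have h1 : ∑ j, TN.τ (Q j) = 1 := by rw [← map_sum, hQsum, TN.map_one]
    rw [Finset.sum_congr rfl (fun j _ => hQτ j i), Finset.sum_const, Finset.card_univ,
      Fintype.card_sum, Fintype.card_fin, Fintype.card_fin, nsmul_eq_mul] at h1
    have h2 : ((k + l : ℕ) : ℂ) ≠ 0 := by
      have : (0 : ℝ) < ((k + l : ℕ) : ℝ) := by push_cast; exact hn0
      exact_mod_cast this.ne'
    rw [eq_comm]
    push_cast at h1 h2 ⊢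
    rw [one_div, inv_eq_of_mul_eq_one_right h1]
  -- comparison with the projection
  let E : Elt N := ⟨c e, hwN _ heA⟩
  have hEs : star E = E := Subtype.ext (by
    show star (c e) = c e
    rw [cstar, he])
  have hEi : E * E = E := Subtype.ext (by
    show c e * c e = c e
    rw [← cmul, hee])
  have hEτ : TN.τ E = TN.τ ⟨e, heN⟩ := by
    refine tau_eq_of_close TN _ _ hEs hEi (Subtype.ext he) (Subtype.ext hee) ?_
    show ‖c e - e‖ < 1
    have := cnear e he hee
    linarith
  let S : Elt N := ∑ i : Fin k, Q (Sum.inl i)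
  have hQE : ∀ i, Q (Sum.inl i) * E = Q (Sum.inl i) := fun i => Subtype.ext (by
    show c (P (Sum.inl i)) * c e = c (P (Sum.inl i))
    rw [← cmul, hPe])
  have hEQ : ∀ i, E * Q (Sum.inl i) = Q (Sum.inl i) := fun i => by
    have := congrArg star (hQE i)
    rwa [star_mul, hQs, hEs] at this
  have hSE : S * E = S := by
    rw [Finset.sum_mul]
    exact Finset.sum_congr rfl fun i _ => hQE i
  have hES : E * S = S := by
    rw [Finset.mul_sum]
    exact Finset.sum_congr rfl fun i _ => hEQ i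
  have hSs : star S = S := by
    rw [star_sum]
    exact Finset.sum_congr rfl fun i _ => hQs _
  have hSS : S * S = S := by
    show (∑ i : Fin k, Q (Sum.inl i)) * S = S
    rw [Finset.sum_mul]
    refine Finset.sum_congr rfl fun i _ => ?_
    show Q (Sum.inl i) * (∑ j : Fin k, Q (Sum.inl j)) = _
    rw [Finset.mul_sum, Finset.sum_eq_single i]
    · exact hQi _
    · intro j _ hij
      apply Subtype.ext
      show c (P (Sum.inl i)) * c (P (Sum.inl j)) = 0
      rw [← cmul, hPo _ _ (fun h => hij (Sum.inl_injective h).symm)]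
      show w * 0 * star w = 0
      rw [mul_zero, zero_mul]
    · simp
  have hR : star (E - S) * (E - S) = E - S := by
    rw [star_sub, hEs, hSs]
    calc (E - S) * (E - S) = E * E - E * S - S * E + S * S := by noncomm_ring
      _ = E - S := by rw [hEi, hES, hSE, hSS]; abel
  have hpos := (trAlg TN).nonneg (E - S)
  rw [hR, map_sub, hEτ] at hpos
  have hS : TN.τ S = ((k / (k + l) : ℝ) : ℂ) := by
    show TN.τ (∑ i : Fin k, Q (Sum.inl i)) = _
    rw [map_sum, Finset.sum_congr rfl (fun i _ => hQval _), Finset.sum_const, Finset.card_univ,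
      Fintype.card_fin, nsmul_eq_mul]
    push_cast
    ring
  rw [hS] at hpos
  have := (Complex.nonneg_iff.1 hpos).1
  rw [Complex.sub_re, Complex.ofReal_re] at this
  linarith

theorem trace_le (M N : VonNeumannAlgebra H) (TM : TracialState M) (TN : TracialState N)
    (hMc : HasTrivialCenter M) (hMd : IsDiffuse M) {γ : ℝ} (hγ : γ ≤ 1 / 768)
    (hMN : Near γ M N) (e : H →L[ℂ] H) (heM : e ∈ M) (heN : e ∈ N) (he : star e = e)
    (hee : e * e = e) : (TM.τ ⟨e, heM⟩).re ≤ (TN.τ ⟨e, heN⟩).re := by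
  by_contra hcon
  push Not at hcon
  obtain ⟨q, hq1, hq2⟩ := exists_rat_btwn hcon
  have h0 : 0 ≤ (TN.τ ⟨e, heN⟩).re := (tau_proj TN ⟨e, heN⟩ (Subtype.ext he) (Subtype.ext hee)).2
  have hM1 : (TM.τ ⟨e, heM⟩).re ≤ 1 := by
    have h1 := (tau_proj TM (1 - ⟨e, heM⟩) (by
      rw [star_sub, star_one]; congr 1; exact Subtype.ext he) (by
      have : (⟨e, heM⟩ : Elt M) * ⟨e, heM⟩ = ⟨e, heM⟩ := Subtype.ext hee
      calc (1 - (⟨e, heM⟩ : Elt M)) * (1 - ⟨e, heM⟩) =
        1 - ⟨e, heM⟩ - ⟨e, heM⟩ + (⟨e, heM⟩ : Elt M) * ⟨e, heM⟩ := by noncomm_ring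
        _ = _ := by rw [this]; abel)).2
    rw [map_sub, TM.map_one, Complex.sub_re, Complex.one_re] at h1
    linarith
  have hq0 : (0 : ℝ) < q := lt_of_le_of_lt h0 hq1
  have hqlt : (q : ℝ) < 1 := lt_of_lt_of_le hq2 hM1
  have hq0' : 0 < q := by exact_mod_cast hq0
  have hq1' : q < 1 := by exact_mod_cast hqlt
  -- numerator and denominator
  have hnum : 0 < q.num := Rat.num_pos.2 hq0'
  obtain ⟨k, hk⟩ := Int.eq_ofNat_of_zero_le hnum.le
  have hk1 : 1 ≤ k := by
    have : (0 : ℤ) < (k : ℤ) := by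
      have h1 := hnum
      rw [hk] at h1
      exact h1
    exact_mod_cast this
  have hlt : k < q.den := by
    have h1 : q.num < q.den := Rat.num_lt_denom_iff.2 hq1'
    rw [hk] at h1
    have h2 : (k : ℤ) < (q.den : ℤ) := h1
    exact_mod_cast h2
  obtain ⟨l, hl⟩ := Nat.exists_eq_add_of_lt hlt
  have hqe : (q : ℝ) = (k : ℝ) / (k + (l + 1 : ℕ)) := by
    have h1 : (q : ℝ) = (q.num : ℝ) / (q.den : ℝ) := by exact_mod_cast (Rat.num_div_den q).symm
    rw [h1, hk, hl]
    push_cast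
    ring
  have := trace_le_aux M N TM TN hMc hMd hγ hMN e heM heN he hee k (l + 1) (by omega) hk1 (by
    rw [← hqe]
    exact hq2.le)
  rw [← hqe] at this
  linarith

/-- Traces of close factors agree on common projections. -/
theorem trace_eq_proj (M N : VonNeumannAlgebra H) (TM : TracialState M) (TN : TracialState N)
    (hMc : HasTrivialCenter M) (hMd : IsDiffuse M) {γ : ℝ} (hγ : γ ≤ 1 / 768)
    (hMN : Near γ M N) (e : H →L[ℂ] H) (heM : e ∈ M) (heN : e ∈ N) (he : star e = e)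
    (hee : e * e = e) : TM.τ ⟨e, heM⟩ = TN.τ ⟨e, heN⟩ := by
  have h1 := trace_le M N TM TN hMc hMd hγ hMN e heM heN he hee
  have h2 := trace_le M N TM TN hMc hMd hγ hMN (1 - e) (sub_mem (one_mem M) heM)
    (sub_mem (one_mem N) heN) (by rw [star_sub, star_one, he]) (by
      calc (1 - e) * (1 - e) = 1 - e - e + e * e := by noncomm_ring
        _ = 1 - e := by rw [hee]; abel)
  have e1 : TM.τ ⟨1 - e, sub_mem (one_mem M) heM⟩ = 1 - TM.τ ⟨e, heM⟩ := by
    rw [← TM.map_one, ← map_sub]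
    rfl
  have e2 : TN.τ ⟨1 - e, sub_mem (one_mem N) heN⟩ = 1 - TN.τ ⟨e, heN⟩ := by
    rw [← TN.map_one, ← map_sub]
    rfl
  rw [e1, e2, Complex.sub_re, Complex.sub_re] at h2
  rw [(tau_proj TM ⟨e, heM⟩ (Subtype.ext he) (Subtype.ext hee)).1,
    (tau_proj TN ⟨e, heN⟩ (Subtype.ext he) (Subtype.ext hee)).1]
  congr 1
  linarith

open H759R2.Kad H710R2.DP in
/-- Traces of close factors agree on common abelian von Neumann subalgebras. -/
theorem trace_eq_abelian (M N A : VonNeumannAlgebra H) (TM : TracialState M)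
    (TN : TracialState N) (hMc : HasTrivialCenter M) (hMd : IsDiffuse M) {γ : ℝ}
    (hγ : γ ≤ 1 / 768) (hMN : Near γ M N) (hA : ∀ a ∈ A, ∀ b ∈ A, a * b = b * a)
    (hAM : ∀ a ∈ A, a ∈ M) (hAN : ∀ a ∈ A, a ∈ N) (x : H →L[ℂ] H) (hx : x ∈ A) :
    TM.τ ⟨x, hAM x hx⟩ = TN.τ ⟨x, hAN x hx⟩ := by
  have key : ∀ ε : ℝ, 0 < ε → ‖TM.τ ⟨x, hAM x hx⟩ - TN.τ ⟨x, hAN x hx⟩‖ ≤ 2 * ε := by
    intro ε hε
    obtain ⟨n, c, p, hp, hd⟩ := dp_span fin_bin H A x ⟨hx, fun a ha => hA x hx a ha⟩ ε hε
    have hpA : ∀ k, p k ∈ A := fun k => (hp k).2.1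
    have hsA : ∑ k, c k • p k ∈ A := sum_mem fun k _ => A.toStarSubalgebra.smul_mem (hpA k) _
    have e1 : TM.τ ⟨∑ k, c k • p k, hAM _ hsA⟩ = ∑ k, c k * TM.τ ⟨p k, hAM _ (hpA k)⟩ := by
      have : (⟨∑ k, c k • p k, hAM _ hsA⟩ : Elt M) = ∑ k, c k • (⟨p k, hAM _ (hpA k)⟩ : Elt M) := by
        apply Subtype.ext
        rw [AddSubmonoidClass.coe_finsetSum]
        rfl
      rw [this, map_sum]
      refine Finset.sum_congr rfl fun k _ => ?_
      rw [map_smul, smul_eq_mul]
    have e2 : TN.τ ⟨∑ k, c k • p k, hAN _ hsA⟩ = ∑ k, c k * TN.τ ⟨p k, hAN _ (hpA k)⟩ := by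
      have : (⟨∑ k, c k • p k, hAN _ hsA⟩ : Elt N) = ∑ k, c k • (⟨p k, hAN _ (hpA k)⟩ : Elt N) := by
        apply Subtype.ext
        rw [AddSubmonoidClass.coe_finsetSum]
        rfl
      rw [this, map_sum]
      refine Finset.sum_congr rfl fun k _ => ?_
      rw [map_smul, smul_eq_mul]
    have e3 : TM.τ ⟨∑ k, c k • p k, hAM _ hsA⟩ = TN.τ ⟨∑ k, c k • p k, hAN _ hsA⟩ := by
      rw [e1, e2]
      refine Finset.sum_congr rfl fun k _ => ?_
      congr 1
      exact trace_eq_proj M N TM TN hMc hMd hγ hMN (p k) (hAM _ (hpA k)) (hAN _ (hpA k))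
        (hp k).1.1 (hp k).1.2
    have e4 : TM.τ ⟨x, hAM x hx⟩ - TN.τ ⟨x, hAN x hx⟩ =
        TM.τ (⟨x, hAM x hx⟩ - ⟨∑ k, c k • p k, hAM _ hsA⟩) -
        TN.τ (⟨x, hAN x hx⟩ - ⟨∑ k, c k • p k, hAN _ hsA⟩) := by
      rw [map_sub, map_sub, e3]
      ring
    rw [e4]
    have n1 := tau_norm_le TM (⟨x, hAM x hx⟩ - ⟨∑ k, c k • p k, hAM _ hsA⟩)
    have n2 := tau_norm_le TN (⟨x, hAN x hx⟩ - ⟨∑ k, c k • p k, hAN _ hsA⟩)
    change _ ≤ ‖x - ∑ k, c k • p k‖ at n1
    change _ ≤ ‖x - ∑ k, c k • p k‖ at n2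
    refine (norm_sub_le _ _).trans ?_
    linarith
  have h0 : ‖TM.τ ⟨x, hAM x hx⟩ - TN.τ ⟨x, hAN x hx⟩‖ ≤ 0 := by
    refine le_of_forall_pos_le_add (fun ε hε => ?_)
    have := key (ε / 2) (by positivity)
    linarith
  exact sub_eq_zero.1 (norm_le_zero_iff.1 h0)

end Pool.Agent.R298.CC
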