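import Mathlib
import Pool.Agent.R298.CC.Defs
import Pool.Agent.R298.CC.Tr

/-!
The Murray–von Neumann dimension is computed by every decomposition.
-/

set_option autoImplicit false
set_option linter.unusedSectionVars false
set_option linter.unusedVariables false

open scoped InnerProductSpace ComplexOrder ENNReal

namespace Pool.Agent.R298.CC

open Pool.Agent.Helper278

variable {H : Type} [NormedAddCommGroup H] [InnerProductSpace ℂ H] [CompleteSpace H]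

/-- evaluation at a vector -/
noncomputable def ev (M : VonNeumannAlgebra H) (ξ : H) : Elt M →ₗ[ℂ] H where
  toFun x := (x : H →L[ℂ] H) ξ
  map_add' x y := rfl
  map_smul' c x := rfl

/-- the closed submodule generated by a vector -/
noncomputable def cyc (M : VonNeumannAlgebra H) (ξ : H) : Submodule ℂ H :=
  (LinearMap.range (ev M ξ)).topologicalClosure

instance (M : VonNeumannAlgebra H) (ξ : H) : (cyc M ξ).HasOrthogonalProjection := by
  have : CompleteSpace (cyc M ξ) :=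
    (Submodule.isClosed_topologicalClosure (LinearMap.range (ev M ξ))).completeSpace_coe
  infer_instance

/-- the projection onto the closed submodule generated by a vector -/
noncomputable def Pc (M : VonNeumannAlgebra H) (ξ : H) : H →L[ℂ] H := (cyc M ξ).starProjection

variable {M : VonNeumannAlgebra H}

lemma mem_cyc (x : Elt M) (ξ : H) : (x : H →L[ℂ] H) ξ ∈ cyc M ξ :=
  Submodule.le_topologicalClosure _ ⟨x, rfl⟩

/-- closed conditions on the generated submodule -/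
lemma cyc_induction {ξ : H} {C : H → Prop} (hC : IsClosed {v | C v})
    (h : ∀ x : Elt M, C ((x : H →L[ℂ] H) ξ)) {v : H} (hv : v ∈ cyc M ξ) : C v := by
  have h1 : (cyc M ξ : Set H) ⊆ {v | C v} := by
    unfold cyc
    rw [Submodule.topologicalClosure_coe]
    refine closure_minimal ?_ hC
    rintro _ ⟨x, rfl⟩
    exact h x
  exact h1 hv

lemma cyc_inv (ξ : H) (y : H →L[ℂ] H) (hy : y ∈ M) {v : H} (hv : v ∈ cyc M ξ) :
    y v ∈ cyc M ξ := by
  refine cyc_induction (C := fun v => y v ∈ cyc M ξ) ?_ ?_ hv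
  · exact (Submodule.isClosed_topologicalClosure _).preimage y.continuous
  · intro x
    exact mem_cyc ((⟨y, hy⟩ : Elt M) * x) ξ

lemma Pc_comm (ξ : H) : Pc M ξ ∈ M.commutant := by
  rw [mem_comm_iff]
  intro x hx
  exact (commute_starProjection (cyc M ξ) x (fun v hv => cyc_inv ξ x hx hv)
    (fun v hv => cyc_inv ξ (star x) (star_mem hx) hv)).symm

lemma Pc_of_mem {ξ v : H} (hv : v ∈ cyc M ξ) : Pc M ξ v = v :=
  Submodule.starProjection_eq_self_iff.2 hv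

lemma Pc_mem (ξ v : H) : Pc M ξ v ∈ cyc M ξ := Submodule.starProjection_apply_mem _ _

lemma self_mem_cyc (ξ : H) : ξ ∈ cyc M ξ := mem_cyc (1 : Elt M) ξ

lemma Pc_self (ξ : H) : Pc M ξ ξ = ξ := Pc_of_mem (self_mem_cyc ξ)

lemma Pc_star (ξ : H) : star (Pc M ξ) = Pc M ξ := by
  have : IsSelfAdjoint (Pc M ξ) := isSelfAdjoint_starProjection _
  exact this

lemma Pc_idem (ξ : H) : Pc M ξ * Pc M ξ = Pc M ξ := by
  ext v
  exact Pc_of_mem (Pc_mem ξ v)

lemma inner_star (T : H →L[ℂ] H) (ξ η : H) : ⟪T ξ, η⟫_ℂ = ⟪ξ, star T η⟫_ℂ := by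
  rw [ContinuousLinearMap.star_eq_adjoint, ContinuousLinearMap.adjoint_inner_right]

lemma inner_star' (T : H →L[ℂ] H) (ξ η : H) : ⟪ξ, T η⟫_ℂ = ⟪star T ξ, η⟫_ℂ := by
  rw [inner_star, star_star]

lemma Pc_orth {ξ η : H} (h : ∀ x : Elt M, ⟪ξ, (x : H →L[ℂ] H) η⟫_ℂ = 0) {v w : H}
    (hv : v ∈ cyc M ξ) (hw : w ∈ cyc M η) : ⟪v, w⟫_ℂ = 0 := by
  refine cyc_induction (C := fun v => ⟪v, w⟫_ℂ = 0) ?_ ?_ hv
  · exact isClosed_eq (by fun_prop) continuous_const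
  · intro x
    refine cyc_induction (C := fun w => ⟪(x : H →L[ℂ] H) ξ, w⟫_ℂ = 0) ?_ ?_ hw
    · exact isClosed_eq (by fun_prop) continuous_const
    · intro y
      rw [inner_star]
      exact h (star x * y)

lemma Pc_mul_orth {ξ η : H} (h : ∀ x : Elt M, ⟪ξ, (x : H →L[ℂ] H) η⟫_ℂ = 0) :
    Pc M ξ * Pc M η = 0 := by
  ext v
  refine ext_inner_left ℂ fun w => ?_
  show ⟪w, Pc M ξ (Pc M η v)⟫_ℂ = ⟪w, 0⟫_ℂ
  rw [inner_star', Pc_star, inner_zero_right]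
  exact Pc_orth h (Pc_mem ξ w) (Pc_mem η v)

lemma norm_sq_Pc (ξ v : H) : ((‖Pc M ξ v‖ ^ 2 : ℝ) : ℂ) = ⟪v, Pc M ξ v⟫_ℂ := by
  have h1 : Pc M ξ v = Pc M ξ (Pc M ξ v) := (Pc_of_mem (Pc_mem ξ v)).symm
  rw [h1, inner_star', Pc_star, ← h1, inner_self_eq_norm_sq_to_K]
  push_cast
  rfl

/-- The vector state is `τ(· p)`. -/
structure IsVec (T : TracialState M) (ξ : H) (p : Elt M) : Prop where
  star_eq : star p = p
  idem : p * p = p
  diag : ∀ x : Elt M, ⟪ξ, (x : H →L[ℂ] H) ξ⟫_ℂ = T.τ (x * p)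

variable {T : TracialState M}

lemma IsVec.norm {ξ : H} {p : Elt M} (h : IsVec T ξ p) (x : Elt M) :
    ‖(x : H →L[ℂ] H) ξ‖ = n2 T.τ (x * p) := by
  have h1 : ((‖(x : H →L[ℂ] H) ξ‖ ^ 2 : ℝ) : ℂ) = T.τ (star (x * p) * (x * p)) := by
    have h2 : ⟪(x : H →L[ℂ] H) ξ, (x : H →L[ℂ] H) ξ⟫_ℂ = T.τ (star x * x * p) := by
      rw [inner_star]
      exact h.diag (star x * x)
    have h3 : T.τ (star (x * p) * (x * p)) = T.τ (star x * x * p) := by
      rw [star_mul, h.star_eq, mul_assoc, T.tracial, mul_assoc, mul_assoc, mul_assoc,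
        ← mul_assoc x p p]
      rw [mul_assoc x p p, h.idem]
    rw [h3, ← h2, inner_self_eq_norm_sq_to_K]
    push_cast
    rfl
  unfold n2
  rw [← h1, Complex.ofReal_re, Real.sqrt_sq (norm_nonneg _)]

lemma IsVec.fix {ξ : H} {p : Elt M} (h : IsVec T ξ p) : (p : H →L[ℂ] H) ξ = ξ := by
  have h1 := h.norm (1 - p)
  have h2 : (1 - p) * p = 0 := by rw [sub_mul, one_mul, h.idem, sub_self]
  rw [h2, (trAlg T).n2_zero, norm_eq_zero] at h1
  have h3 : ((1 - p : Elt M) : H →L[ℂ] H) ξ = ξ - (p : H →L[ℂ] H) ξ := rfl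
  rw [h3, sub_eq_zero] at h1
  exact h1.symm

lemma IsVec.norm_sq {ξ : H} {p : Elt M} (h : IsVec T ξ p) : ‖ξ‖ ^ 2 = (T.τ p).re := by
  have h1 := h.diag 1
  rw [one_mul] at h1
  rw [← h1]
  show ‖ξ‖ ^ 2 = (⟪ξ, ξ⟫_ℂ).re
  rw [inner_self_eq_norm_sq_to_K]
  rw [← Complex.ofReal_re (‖ξ‖ ^ 2)]
  push_cast
  rfl

/-- One half of the symmetry of the relative position of two vectors. -/
lemma sym_le {ξ η : H} {p q : Elt M} (hξ : IsVec T ξ p) (hη : IsVec T η q) :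
    ‖Pc M ξ η‖ ≤ ‖Pc M η ξ‖ := by
  have h1 : ∀ v ∈ cyc M ξ, ‖⟪v, η⟫_ℂ‖ ≤ ‖Pc M η ξ‖ * ‖v‖ := by
    intro v hv
    refine cyc_induction (C := fun v => ‖⟪v, η⟫_ℂ‖ ≤ ‖Pc M η ξ‖ * ‖v‖) ?_ ?_ hv
    · exact isClosed_le (by fun_prop) (by fun_prop)
    · intro m
      let n : Elt M := p * star m * q
      have e1 : ⟪(m : H →L[ℂ] H) ξ, η⟫_ℂ = ⟪ξ, (n : H →L[ℂ] H) η⟫_ℂ := by
        have a1 : (n : H →L[ℂ] H) η = (p : H →L[ℂ] H) ((star (m : H →L[ℂ] H))
          ((q : H →L[ℂ] H) η)) := rfl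
        have ps : star (p : H →L[ℂ] H) = p := congrArg Subtype.val hξ.star_eq
        rw [a1, hη.fix, inner_star', ps, hξ.fix, inner_star]
      have e2 : ⟪ξ, (n : H →L[ℂ] H) η⟫_ℂ = ⟪Pc M η ξ, (n : H →L[ℂ] H) η⟫_ℂ := by
        rw [inner_star, Pc_star, Pc_of_mem (mem_cyc n η)]
      rw [e1, e2]
      refine (norm_inner_le_norm _ _).trans (mul_le_mul_of_nonneg_left ?_ (norm_nonneg _))
      rw [hη.norm, hξ.norm]
      have hA := trAlg T
      have e3 : n * q = star (q * (m * p)) := by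
        rw [star_mul, star_mul, hξ.star_eq, hη.star_eq]
        show p * star m * q * q = _
        rw [mul_assoc (p * star m), hη.idem]
      rw [e3, hA.n2_star]
      refine (n2_mul_le T q (m * p)).trans ?_
      have nq : ‖(q : H →L[ℂ] H)‖ ≤ 1 := by
        have qs : star (q : H →L[ℂ] H) = q := congrArg Subtype.val hη.star_eq
        have qi : (q : H →L[ℂ] H) * q = q := congrArg Subtype.val hη.idem
        have a2 : ‖(q : H →L[ℂ] H)‖ * ‖(q : H →L[ℂ] H)‖ = ‖(q : H →L[ℂ] H)‖ := by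
          rw [← CStarRing.norm_star_mul_self, qs, qi]
        nlinarith [norm_nonneg (q : H →L[ℂ] H), sq_nonneg (‖(q : H →L[ℂ] H)‖ - 1)]
      nlinarith [n2_nonneg T.τ (m * p)]
  have h2 := h1 (Pc M ξ η) (Pc_mem ξ η)
  have h3 : ‖⟪Pc M ξ η, η⟫_ℂ‖ = ‖Pc M ξ η‖ ^ 2 := by
    rw [inner_star, Pc_star, ← norm_sq_Pc, Complex.norm_real, Real.norm_eq_abs,
      abs_of_nonneg (sq_nonneg _)]
  rw [h3, sq] at h2
  rcases (norm_nonneg (Pc M ξ η)).eq_or_lt with h0 | h0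
  · rw [← h0]
    exact norm_nonneg _
  · exact le_of_mul_le_mul_right h2 h0

lemma sym_eq {ξ η : H} {p q : Elt M} (hξ : IsVec T ξ p) (hη : IsVec T η q) :
    ‖Pc M ξ η‖ = ‖Pc M η ξ‖ := le_antisymm (sym_le hξ hη) (sym_le hη hξ)

/-- Bessel's inequality. -/
lemma bessel {ι : Type} (ξ : ι → H)
    (ho : ∀ i j, i ≠ j → ∀ x : Elt M, ⟪ξ i, (x : H →L[ℂ] H) (ξ j)⟫_ℂ = 0) (s : Finset ι)
    (η : H) : ∑ i ∈ s, ‖Pc M (ξ i) η‖ ^ 2 ≤ ‖η‖ ^ 2 := by
  classical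
  let E : H →L[ℂ] H := ∑ i ∈ s, Pc M (ξ i)
  have hEs : star E = E := by
    rw [star_sum]
    exact Finset.sum_congr rfl fun i _ => Pc_star _
  have hEE : E * E = E := by
    show (∑ i ∈ s, Pc M (ξ i)) * E = E
    rw [Finset.sum_mul]
    refine Finset.sum_congr rfl fun i hi => ?_
    show Pc M (ξ i) * (∑ j ∈ s, Pc M (ξ j)) = _
    rw [Finset.mul_sum, Finset.sum_eq_single_of_mem i hi]
    · exact Pc_idem _
    · intro j _ hji
      exact Pc_mul_orth (ho i j hji.symm)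
  have nE : ‖E‖ ≤ 1 := by
    have a2 : ‖E‖ * ‖E‖ = ‖E‖ := by
      rw [← CStarRing.norm_star_mul_self, hEs, hEE]
    nlinarith [norm_nonneg E, sq_nonneg (‖E‖ - 1)]
  have h1 : ((∑ i ∈ s, ‖Pc M (ξ i) η‖ ^ 2 : ℝ) : ℂ) = ((‖E η‖ ^ 2 : ℝ) : ℂ) := by
    have e1 : ((‖E η‖ ^ 2 : ℝ) : ℂ) = ⟪η, E η⟫_ℂ := by
      have a1 : E η = E (E η) := by
        show E η = (E * E) η
        rw [hEE]
      rw [a1, inner_star', hEs, ← a1, inner_self_eq_norm_sq_to_K]
      push_cast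
      rfl
    rw [e1]
    show _ = ⟪η, (∑ i ∈ s, Pc M (ξ i)) η⟫_ℂ
    rw [ContinuousLinearMap.sum_apply, inner_sum, Complex.ofReal_sum]
    exact Finset.sum_congr rfl fun i _ => norm_sq_Pc _ _
  have h2 : ∑ i ∈ s, ‖Pc M (ξ i) η‖ ^ 2 = ‖E η‖ ^ 2 := by exact_mod_cast h1
  rw [h2]
  refine pow_le_pow_left₀ (norm_nonneg _) ?_ 2
  calc ‖E η‖ ≤ ‖E‖ * ‖η‖ := E.le_opNorm η
    _ ≤ 1 * ‖η‖ := mul_le_mul_of_nonneg_right nE (norm_nonneg _)
    _ = ‖η‖ := one_mul _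

/-- Parseval's identity. -/
lemma parseval {ι : Type} (ξ : ι → H)
    (ho : ∀ i j, i ≠ j → ∀ x : Elt M, ⟪ξ i, (x : H →L[ℂ] H) (ξ j)⟫_ℂ = 0) (ht : IsTotal M ξ)
    (η : H) : HasSum (fun i => ‖Pc M (ξ i) η‖ ^ 2) (‖η‖ ^ 2) := by
  classical
  have hOF : OrthogonalFamily ℂ (fun i => cyc M (ξ i)) (fun i => (cyc M (ξ i)).subtypeₗᵢ) := by
    intro i j hij v w
    exact Pc_orth (ho i j hij) v.2 w.2
  let f : ∀ i, cyc M (ξ i) := fun i => ⟨Pc M (ξ i) η, Pc_mem _ _⟩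
  have hsum2 : Summable (fun i => ‖f i‖ ^ 2) :=
    summable_of_sum_le (fun i => sq_nonneg _) (fun s => bessel ξ ho s η)
  have hsum : Summable (fun i => Pc M (ξ i) η) :=
    (hOF.summable_iff_norm_sq_summable f).2 hsum2
  obtain ⟨v, hv⟩ := hsum
  have hve : η - v = 0 := by
    apply ht
    intro i x
    have h1 : ∀ j, ⟪(x : H →L[ℂ] H) (ξ i), Pc M (ξ j) η⟫_ℂ =
        if j = i then ⟪(x : H →L[ℂ] H) (ξ i), η⟫_ℂ else 0 := by
      intro j
      split_ifs with hji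
      · subst hji
        rw [inner_star', Pc_star, Pc_of_mem (mem_cyc x _)]
      · exact Pc_orth (ho i j (Ne.symm hji)) (mem_cyc x _) (Pc_mem _ _)
    have h2 : HasSum (fun j => ⟪(x : H →L[ℂ] H) (ξ i), Pc M (ξ j) η⟫_ℂ)
        ⟪(x : H →L[ℂ] H) (ξ i), v⟫_ℂ := (innerSL ℂ ((x : H →L[ℂ] H) (ξ i))).hasSum hv
    have h3 : HasSum (fun j => ⟪(x : H →L[ℂ] H) (ξ i), Pc M (ξ j) η⟫_ℂ)
        ⟪(x : H →L[ℂ] H) (ξ i), η⟫_ℂ := by
      simp_rw [h1]
      exact hasSum_ite_eq i _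
    rw [inner_sub_right, h3.unique h2, sub_self]
  have hv' : HasSum (fun i => Pc M (ξ i) η) η := by
    rw [sub_eq_zero] at hve
    rw [hve]
    rw [hve] at hv
    exact hv
  have h4 : HasSum (fun i => ⟪η, Pc M (ξ i) η⟫_ℂ) ⟪η, η⟫_ℂ := (innerSL ℂ η).hasSum hv'
  have h5 : (fun i => ⟪η, Pc M (ξ i) η⟫_ℂ) = fun i => ((‖Pc M (ξ i) η‖ ^ 2 : ℝ) : ℂ) := by
    funext i
    rw [norm_sq_Pc]
  have h6 : ⟪η, η⟫_ℂ = ((‖η‖ ^ 2 : ℝ) : ℂ) := by
    rw [inner_self_eq_norm_sq_to_K]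
    push_cast
    rfl
  rw [h5, h6] at h4
  exact_mod_cast h4

/-- The dimension is computed by every decomposition of the module. -/
theorem dimM_eq_tsum (T : TracialState M) {ι : Type} (ξ : ι → H) (p : ι → Elt M)
    (h : IsModFamily M T.τ ξ p) (ht : IsTotal M ξ) :
    dimM M T.τ = ∑' i, ENNReal.ofReal (T.τ (p i)).re := by
  classical
  have hv : ∀ i, IsVec T (ξ i) (p i) := fun i => ⟨h.star_eq i, h.idem i, h.diag i⟩
  apply le_antisymm
  · refine iSup_le fun n => iSup_le fun η => iSup_le fun q => iSup_le fun hq => ?_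
    have hw : ∀ j, IsVec T (η j) (q j) := fun j => ⟨hq.star_eq j, hq.idem j, hq.diag j⟩
    have h1 : ∀ j, ENNReal.ofReal (T.τ (q j)).re =
        ∑' i, ENNReal.ofReal (‖Pc M (ξ i) (η j)‖ ^ 2) := by
      intro j
      have hs := parseval ξ h.orth ht (η j)
      rw [← (hw j).norm_sq, ← hs.tsum_eq,
        ENNReal.ofReal_tsum_of_nonneg (fun i => sq_nonneg _) hs.summable]
    rw [Finset.sum_congr rfl (fun j _ => h1 j), ← Summable.tsum_finsetSum
      (fun j _ => ENNReal.summable)]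
    refine ENNReal.tsum_le_tsum fun i => ?_
    rw [← ENNReal.ofReal_sum_of_nonneg (fun j _ => sq_nonneg _)]
    refine ENNReal.ofReal_le_ofReal ?_
    rw [← (hv i).norm_sq]
    have h2 := bessel η hq.orth Finset.univ (ξ i)
    refine le_trans (le_of_eq ?_) h2
    refine Finset.sum_congr rfl fun j _ => ?_
    rw [sym_eq (hv i) (hw j)]
  · rw [ENNReal.tsum_eq_iSup_sum]
    refine iSup_le fun s => ?_
    let e : Fin s.card ≃ s := s.equivFin.symm
    have hfam : IsModFamily M T.τ (fun k : Fin s.card => ξ (e k)) (fun k => p (e k)) := by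
      refine ⟨fun k => h.star_eq _, fun k => h.idem _, fun k => h.diag _, ?_⟩
      intro k l hkl
      exact h.orth _ _ (fun hc => hkl (e.injective (Subtype.ext hc)))
    have h1 : ∑ k : Fin s.card, ENNReal.ofReal (T.τ (p (e k))).re ≤ dimM M T.τ :=
      le_iSup_of_le s.card (le_iSup_of_le _ (le_iSup_of_le _ (le_iSup_of_le hfam le_rfl)))
    refine le_trans (le_of_eq ?_) h1
    rw [Equiv.sum_comp e (fun i : s => ENNReal.ofReal (T.τ (p i)).re)]
    exact (Finset.sum_coe_sort s (fun i => ENNReal.ofReal (T.τ (p i)).re)).symm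

end Pool.Agent.R298.CC
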