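import Mathlib
import Pool.Agent.R298.CC.Dim

/-!
Right multiplications on cyclic submodules.
-/

set_option autoImplicit false
set_option linter.unusedSectionVars false
set_option linter.unusedVariables false

open scoped InnerProductSpace ComplexOrder ENNReal

namespace Pool.Agent.R298.CC

open Pool.Agent.Helper278

variable {H : Type} [NormedAddCommGroup H] [InnerProductSpace ℂ H] [CompleteSpace H]
variable {M : VonNeumannAlgebra H} {T : TracialState M}

/-- evaluation as a map into the cyclic submodule -/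
noncomputable def jm (M : VonNeumannAlgebra H) (ξ : H) : Elt M →ₗ[ℂ] cyc M ξ :=
  (ev M ξ).codRestrict (cyc M ξ) (fun x => mem_cyc x ξ)

lemma jm_dense (ξ : H) : DenseRange (jm M ξ) := by
  intro v
  rw [closure_subtype]
  have h1 : (fun w : cyc M ξ => (w : H)) '' Set.range (jm M ξ) =
      (LinearMap.range (ev M ξ) : Set H) := by
    ext w
    constructor
    · rintro ⟨_, ⟨x, rfl⟩, rfl⟩
      exact ⟨x, rfl⟩
    · rintro ⟨x, rfl⟩
      exact ⟨jm M ξ x, ⟨x, rfl⟩, rfl⟩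
  rw [h1]
  have h2 : (v : H) ∈ (cyc M ξ : Set H) := v.2
  unfold cyc at h2
  rw [Submodule.topologicalClosure_coe] at h2
  exact h2

/-- right multiplication by `a` on the cyclic submodule, extended by zero -/
noncomputable def Rop (M : VonNeumannAlgebra H) (ξ : H) (a : Elt M) : H →L[ℂ] H :=
  ((ev M ξ ∘ₗ LinearMap.mulRight ℂ a).extendOfNorm (jm M ξ)) ∘L (cyc M ξ).orthogonalProjection

lemma Rop_apply {ξ : H} {p : Elt M} (h : IsVec T ξ p) {a : Elt M} (ha : a * p = p * a)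
    (x : Elt M) : Rop M ξ a ((x : H →L[ℂ] H) ξ) = ((x * a : Elt M) : H →L[ℂ] H) ξ := by
  have h1 : (cyc M ξ).orthogonalProjection ((x : H →L[ℂ] H) ξ) = jm M ξ x :=
    Submodule.orthogonalProjection_mem_subspace_eq_self (K := cyc M ξ) (jm M ξ x)
  show ((ev M ξ ∘ₗ LinearMap.mulRight ℂ a).extendOfNorm (jm M ξ))
    ((cyc M ξ).orthogonalProjection ((x : H →L[ℂ] H) ξ)) = _
  rw [h1, LinearMap.extendOfNorm_eq (jm_dense ξ) ⟨‖(a : H →L[ℂ] H)‖, fun y => ?_⟩]
  · rfl
  · show ‖((y * a : Elt M) : H →L[ℂ] H) ξ‖ ≤ ‖(a : H →L[ℂ] H)‖ * ‖(y : H →L[ℂ] H) ξ‖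
    rw [h.norm, h.norm, mul_assoc, ha, ← mul_assoc]
    exact n2_mul_le' T (y * p) a

lemma Rop_Pc (ξ : H) (a : Elt M) : Rop M ξ a * Pc M ξ = Rop M ξ a := by
  ext v
  show ((ev M ξ ∘ₗ LinearMap.mulRight ℂ a).extendOfNorm (jm M ξ))
    ((cyc M ξ).orthogonalProjection (Pc M ξ v)) =
    ((ev M ξ ∘ₗ LinearMap.mulRight ℂ a).extendOfNorm (jm M ξ))
    ((cyc M ξ).orthogonalProjection v)
  congr 1
  have h1 : Pc M ξ v = ((cyc M ξ).orthogonalProjection v : H) := rfl
  rw [h1]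
  exact Submodule.orthogonalProjection_mem_subspace_eq_self _

/-- Operators supported on a cyclic submodule are determined by the vectors `x ξ`. -/
lemma cyc_ext {ξ : H} {S S' : H →L[ℂ] H} (h1 : S * Pc M ξ = S) (h2 : S' * Pc M ξ = S')
    (h : ∀ x : Elt M, S ((x : H →L[ℂ] H) ξ) = S' ((x : H →L[ℂ] H) ξ)) : S = S' := by
  have key : ∀ v ∈ cyc M ξ, S v = S' v := by
    intro v hv
    refine cyc_induction (C := fun v => S v = S' v) ?_ h hv
    exact isClosed_eq S.continuous S'.continuous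
  rw [← h1, ← h2]
  ext v
  exact key _ (Pc_mem ξ v)

lemma Pc_Rop {ξ : H} {p : Elt M} (h : IsVec T ξ p) {a : Elt M} (ha : a * p = p * a) :
    Pc M ξ * Rop M ξ a = Rop M ξ a := by
  refine cyc_ext (M := M) (ξ := ξ) (by rw [mul_assoc, Rop_Pc]) (Rop_Pc ξ a) ?_
  intro x
  show Pc M ξ (Rop M ξ a ((x : H →L[ℂ] H) ξ)) = Rop M ξ a ((x : H →L[ℂ] H) ξ)
  rw [Rop_apply h ha, Pc_of_mem (mem_cyc _ _)]

lemma Rop_comm {ξ : H} {p : Elt M} (h : IsVec T ξ p) {a : Elt M} (ha : a * p = p * a) :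
    Rop M ξ a ∈ M.commutant := by
  rw [mem_comm_iff]
  intro y hy
  refine cyc_ext (M := M) (ξ := ξ) (by rw [mul_assoc, Rop_Pc]) ?_ ?_
  · rw [mul_assoc, comm_of_mem M hy (Pc_comm ξ), ← mul_assoc, Rop_Pc]
  · intro x
    show y (Rop M ξ a ((x : H →L[ℂ] H) ξ)) = Rop M ξ a (y ((x : H →L[ℂ] H) ξ))
    rw [Rop_apply h ha]
    have h2 := Rop_apply h ha ((⟨y, hy⟩ : Elt M) * x)
    have h3 : (((⟨y, hy⟩ : Elt M) * x : Elt M) : H →L[ℂ] H) ξ = y ((x : H →L[ℂ] H) ξ) := rfl
    rw [h3] at h2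
    rw [h2]
    rfl

lemma Rop_mul {ξ : H} {p : Elt M} (h : IsVec T ξ p) {a b : Elt M} (ha : a * p = p * a)
    (hb : b * p = p * b) (x : Elt M) :
    Rop M ξ a (Rop M ξ b ((x : H →L[ℂ] H) ξ)) = ((x * (b * a) : Elt M) : H →L[ℂ] H) ξ := by
  rw [Rop_apply h hb, Rop_apply h ha, mul_assoc]

lemma Rop_star {ξ : H} {p : Elt M} (h : IsVec T ξ p) {a : Elt M} (ha : a * p = p * a) :
    star (Rop M ξ a) = Rop M ξ (star a) := by
  have ha' : star a * p = p * star a := by
    have := congrArg star ha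
    rw [star_mul, star_mul, h.star_eq] at this
    exact this.symm
  refine cyc_ext (M := M) (ξ := ξ) ?_ (Rop_Pc ξ _) ?_
  · have := congrArg star (Pc_Rop h ha)
    rwa [star_mul, Pc_star] at this
  · intro x
    refine ext_inner_left ℂ fun w => ?_
    rw [Rop_apply h ha']
    have h1 : ⟪w, star (Rop M ξ a) ((x : H →L[ℂ] H) ξ)⟫_ℂ =
        ⟪Rop M ξ a (Pc M ξ w), (x : H →L[ℂ] H) ξ⟫_ℂ := by
      rw [inner_star', star_star]
      congr 1
      conv_lhs => rw [← Rop_Pc]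
      rfl
    have h2 : ⟪w, ((x * star a : Elt M) : H →L[ℂ] H) ξ⟫_ℂ =
        ⟪Pc M ξ w, ((x * star a : Elt M) : H →L[ℂ] H) ξ⟫_ℂ := by
      rw [inner_star, Pc_star, Pc_of_mem (mem_cyc _ _)]
    rw [h1, h2]
    refine cyc_induction (C := fun v => ⟪Rop M ξ a v, (x : H →L[ℂ] H) ξ⟫_ℂ =
      ⟪v, ((x * star a : Elt M) : H →L[ℂ] H) ξ⟫_ℂ) ?_ ?_ (Pc_mem ξ w)
    · exact isClosed_eq (by fun_prop) (by fun_prop)
    · intro y
      rw [Rop_apply h ha, inner_star, inner_star]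
      have e1 := h.diag (star (y * a) * x)
      have e2 := h.diag (star y * (x * star a))
      have e3 : T.τ (star (y * a) * x * p) = T.τ (star y * (x * star a) * p) := by
        rw [star_mul]
        calc T.τ (star a * star y * x * p) = T.τ (star a * (star y * x * p)) := by
              simp only [mul_assoc]
          _ = T.τ (star y * x * p * star a) := T.tracial _ _
          _ = T.τ (star y * (x * star a) * p) := by
              simp only [mul_assoc]
              rw [ha']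
      exact e1.trans (e3.trans e2.symm)

end Pool.Agent.R298.CC
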