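import Mathlib
import Pool.Agent.R298.CC.Rt

/-!
Close II₁ factors have the same coupling constant.
-/

set_option autoImplicit false
set_option linter.unusedSectionVars false
set_option linter.unusedVariables false

open scoped InnerProductSpace ComplexOrder ENNReal Topology

namespace Pool.Agent.R298.CC

open Pool.Agent.Helper278

variable {H : Type} [NormedAddCommGroup H] [InnerProductSpace ℂ H] [CompleteSpace H]

section state

variable {N : VonNeumannAlgebra H}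

/-- the trace of the conjugated algebra -/
noncomputable def conjState (w : H →L[ℂ] H) (h1 : star w * w = 1) (h2 : w * star w = 1)
    (T : TracialState N) : TracialState (conjVN w h1 h2 N) where
  τ := T.τ ∘ₗ
    ({ toFun := fun x => ⟨w * (x : H →L[ℂ] H) * star w, x.2⟩
       map_add' := fun x y => Subtype.ext (by
        show w * ((x : H →L[ℂ] H) + y) * star w = w * (x : H →L[ℂ] H) * star w +
          w * (y : H →L[ℂ] H) * star w
        rw [mul_add, add_mul])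
       map_smul' := fun c x => Subtype.ext (by
        show w * (c • (x : H →L[ℂ] H)) * star w = c • (w * (x : H →L[ℂ] H) * star w)
        rw [mul_smul_comm, smul_mul_assoc]) } : Elt (conjVN w h1 h2 N) →ₗ[ℂ] Elt N)
  normal := by
    obtain ⟨ξ, hξ, hT⟩ := T.normal
    have hle : ∀ k, ‖star w (ξ k)‖ ≤ ‖ξ k‖ := by
      intro k
      have h3 : ‖star w‖ ≤ 1 := by rw [norm_star]; exact norm_le_one_of h1
      calc ‖star w (ξ k)‖ ≤ ‖star w‖ * ‖ξ k‖ := (star w).le_opNorm _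
        _ ≤ 1 * ‖ξ k‖ := mul_le_mul_of_nonneg_right h3 (norm_nonneg _)
        _ = ‖ξ k‖ := one_mul _
    refine ⟨fun k => star w (ξ k), Summable.of_nonneg_of_le (fun k => sq_nonneg _)
      (fun k => pow_le_pow_left₀ (norm_nonneg _) (hle k) 2) hξ, fun x => ?_⟩
    show T.τ ⟨w * (x : H →L[ℂ] H) * star w, x.2⟩ = _
    rw [hT]
    congr 1
    funext k
    show ⟪ξ k, (w * (x : H →L[ℂ] H) * star w) (ξ k)⟫_ℂ = _
    show ⟪ξ k, w ((x : H →L[ℂ] H) (star w (ξ k)))⟫_ℂ = _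
    rw [inner_star']
  map_one := by
    show T.τ ⟨w * 1 * star w, _⟩ = 1
    rw [← T.map_one]
    congr 1
    apply Subtype.ext
    show w * 1 * star w = 1
    rw [mul_one, h2]
  tracial := by
    intro x y
    have e : ∀ x y : Elt (conjVN w h1 h2 N), (⟨w * ((x * y : Elt (conjVN w h1 h2 N)) : H →L[ℂ] H) *
        star w, (x * y).2⟩ : Elt N) = ⟨w * (x : H →L[ℂ] H) * star w, x.2⟩ *
        ⟨w * (y : H →L[ℂ] H) * star w, y.2⟩ := by
      intro x y
      apply Subtype.ext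
      exact conj_mul w h1 _ _
    show T.τ ⟨w * ((x * y : Elt (conjVN w h1 h2 N)) : H →L[ℂ] H) * star w, (x * y).2⟩ =
      T.τ ⟨w * ((y * x : Elt (conjVN w h1 h2 N)) : H →L[ℂ] H) * star w, (y * x).2⟩
    rw [e, e]
    exact T.tracial _ _
  faithful := by
    intro x hx
    have e : (⟨w * ((star x * x : Elt (conjVN w h1 h2 N)) : H →L[ℂ] H) * star w,
        (star x * x).2⟩ : Elt N) = star (⟨w * (x : H →L[ℂ] H) * star w, x.2⟩ : Elt N) *
        ⟨w * (x : H →L[ℂ] H) * star w, x.2⟩ := by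
      apply Subtype.ext
      show w * (star (x : H →L[ℂ] H) * x) * star w = star (w * (x : H →L[ℂ] H) * star w) *
        (w * (x : H →L[ℂ] H) * star w)
      rw [conj_mul w h1, star_mul, star_mul, star_star, mul_assoc w (star (x : H →L[ℂ] H))]
    have h3 : T.τ (star (⟨w * (x : H →L[ℂ] H) * star w, x.2⟩ : Elt N) *
        ⟨w * (x : H →L[ℂ] H) * star w, x.2⟩) = 0 := by
      rw [← e]
      exact hx
    have h4 := T.faithful _ h3
    have h5 : w * (x : H →L[ℂ] H) * star w = 0 := congrArg Subtype.val h4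
    apply Subtype.ext
    show (x : H →L[ℂ] H) = 0
    calc (x : H →L[ℂ] H) = (star w * w) * x * (star w * w) := by rw [h1, one_mul, mul_one]
      _ = star w * (w * (x : H →L[ℂ] H) * star w) * w := by noncomm_ring
      _ = 0 := by rw [h5, mul_zero, zero_mul]

lemma conjState_apply (w : H →L[ℂ] H) (h1 : star w * w = 1) (h2 : w * star w = 1)
    (T : TracialState N) (x : Elt (conjVN w h1 h2 N)) :
    (conjState w h1 h2 T).τ x = T.τ ⟨w * (x : H →L[ℂ] H) * star w, x.2⟩ := rfl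

/-- families of the conjugated algebra give families of the algebra -/
lemma family_conj (w : H →L[ℂ] H) (h1 : star w * w = 1) (h2 : w * star w = 1)
    (T : TracialState N) {ι : Type} (ξ : ι → H) (p : ι → Elt (conjVN w h1 h2 N))
    (h : IsModFamily (conjVN w h1 h2 N) (conjState w h1 h2 T).τ ξ p) :
    ∃ (η : ι → H) (q : ι → Elt N), IsModFamily N T.τ η q ∧
      ∀ i, T.τ (q i) = (conjState w h1 h2 T).τ (p i) := by
  refine ⟨fun i => w (ξ i), fun i => ⟨w * (p i : H →L[ℂ] H) * star w, (p i).2⟩,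
    ⟨fun i => ?_, fun i => ?_, fun i x => ?_, fun i j hij x => ?_⟩, fun i => rfl⟩
  · apply Subtype.ext
    show star (w * (p i : H →L[ℂ] H) * star w) = w * (p i : H →L[ℂ] H) * star w
    have hp : star (p i : H →L[ℂ] H) = p i := congrArg Subtype.val (h.star_eq i)
    rw [star_mul, star_mul, star_star, hp, mul_assoc]
  · apply Subtype.ext
    show (w * (p i : H →L[ℂ] H) * star w) * (w * (p i : H →L[ℂ] H) * star w) = _
    have hp : (p i : H →L[ℂ] H) * p i = p i := congrArg Subtype.val (h.idem i)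
    rw [← conj_mul w h1, hp]
  · let y : Elt (conjVN w h1 h2 N) := ⟨star w * (x : H →L[ℂ] H) * w,
      back_mem_conjVN w h1 h2 N x.2⟩
    have h3 : ⟪w (ξ i), (x : H →L[ℂ] H) (w (ξ i))⟫_ℂ = ⟪ξ i, (y : H →L[ℂ] H) (ξ i)⟫_ℂ := by
      rw [inner_star]
      rfl
    rw [h3, h.diag i y, conjState_apply]
    congr 1
    apply Subtype.ext
    show w * ((star w * (x : H →L[ℂ] H) * w) * (p i : H →L[ℂ] H)) * star w =
      (x : H →L[ℂ] H) * (w * (p i : H →L[ℂ] H) * star w)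
    calc w * ((star w * (x : H →L[ℂ] H) * w) * (p i : H →L[ℂ] H)) * star w =
        (w * star w) * (x : H →L[ℂ] H) * w * (p i : H →L[ℂ] H) * star w := by noncomm_ring
      _ = _ := by rw [h2]; noncomm_ring
  · let y : Elt (conjVN w h1 h2 N) := ⟨star w * (x : H →L[ℂ] H) * w,
      back_mem_conjVN w h1 h2 N x.2⟩
    have h3 : ⟪w (ξ i), (x : H →L[ℂ] H) (w (ξ j))⟫_ℂ = ⟪ξ i, (y : H →L[ℂ] H) (ξ j)⟫_ℂ := by
      rw [inner_star]
      rfl
    rw [h3, h.orth i j hij y]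

/-- Averages over abelian subalgebras preserve the trace. -/
lemma tau_avg (T : TracialState N) (A : VonNeumannAlgebra H)
    (hA : ∀ a ∈ A, ∀ b ∈ A, a * b = b * a) (hAN : ∀ a ∈ A, a ∈ N)
    {cm : (unitary A.toStarSubalgebra → ℂ) → ℂ} {E : (H →L[ℂ] H) → (H →L[ℂ] H)}
    (hcm : @CMean (unitary A.toStarSubalgebra) (ucg A hA) cm)
    (hE : ∀ z (ξ η : H), ⟪η, E z ξ⟫_ℂ = cm (fun g =>
        ⟪η, (((g : A.toStarSubalgebra) : H →L[ℂ] H) * z *
          star ((g : A.toStarSubalgebra) : H →L[ℂ] H)) ξ⟫_ℂ))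
    (hEN : ∀ z ∈ N, E z ∈ N) (hEd : ∀ z y, y ∈ A.commutant → ‖y - E z‖ ≤ ‖y - z‖)
    (z : H →L[ℂ] H) (hz : z ∈ N) : T.τ ⟨E z, hEN z hz⟩ = T.τ ⟨z, hz⟩ := by
  letI := ucg A hA
  let G := unitary A.toStarSubalgebra
  let u : G → (H →L[ℂ] H) := fun g => ((g : A.toStarSubalgebra) : H →L[ℂ] H)
  have umem : ∀ g, u g ∈ A := fun g => g.1.2
  have ul : ∀ g, star (u g) * u g = 1 := fun g =>
    congrArg (fun z : A.toStarSubalgebra => (z : H →L[ℂ] H)) (Unitary.coe_star_mul_self g)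
  have ur : ∀ g, u g * star (u g) = 1 := fun g =>
    congrArg (fun z : A.toStarSubalgebra => (z : H →L[ℂ] H)) (Unitary.coe_mul_star_self g)
  obtain ⟨ζ, hζ, hT⟩ := T.normal
  let F : G → (H →L[ℂ] H) := fun g => u g * z * star (u g)
  have nF : ∀ g, ‖F g‖ ≤ ‖z‖ := fun g =>
    (norm_unitary_mul (by rw [star_star]; exact ur g) _).trans (norm_mul_unitary (ul g) z)
  have FN : ∀ g, F g ∈ N := fun g => mul_mem (mul_mem (hAN _ (umem g)) hz)
    (star_mem (hAN _ (umem g)))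
  have nE : ‖E z‖ ≤ ‖z‖ := by
    have := hEd z 0 (zero_mem _)
    rwa [zero_sub, zero_sub, norm_neg, norm_neg] at this
  have hFτ : ∀ g, T.τ ⟨F g, FN g⟩ = T.τ ⟨z, hz⟩ := by
    intro g
    have e : (⟨F g, FN g⟩ : Elt N) = ⟨u g, hAN _ (umem g)⟩ * (⟨z, hz⟩ *
        star (⟨u g, hAN _ (umem g)⟩ : Elt N)) := Subtype.ext (mul_assoc _ _ _)
    rw [e, T.tracial, mul_assoc]
    have e2 : star (⟨u g, hAN _ (umem g)⟩ : Elt N) * ⟨u g, hAN _ (umem g)⟩ = 1 :=
      Subtype.ext (ul g)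
    rw [e2, mul_one]
  -- partial sums
  let φ : ℕ → (H →L[ℂ] H) → ℂ := fun n X => ∑ k ∈ Finset.range n, ⟪ζ k, X (ζ k)⟫_ℂ
  let t : ℕ → ℝ := fun n => ∑' k, ‖ζ (k + n)‖ ^ 2
  have ht : Filter.Tendsto t Filter.atTop (𝓝 0) := by
    have := tendsto_sum_nat_add (fun k => ‖ζ k‖ ^ 2)
    exact this
  have htail : ∀ n (X : H →L[ℂ] H) (hX : X ∈ N), ‖X‖ ≤ ‖z‖ →
      ‖T.τ ⟨X, hX⟩ - φ n X‖ ≤ ‖z‖ * t n := by
    intro n X hX hn
    rw [hT]
    have hs : Summable (fun k => ⟪ζ k, X (ζ k)⟫_ℂ) := summable_inner ζ ζ hζ hζ X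
    have e : (∑' k, ⟪ζ k, X (ζ k)⟫_ℂ) - φ n X = ∑' k, ⟪ζ (k + n), X (ζ (k + n))⟫_ℂ := by
      rw [sub_eq_iff_eq_add, add_comm]
      exact (hs.sum_add_tsum_nat_add n).symm
    change ‖(∑' k, ⟪ζ k, X (ζ k)⟫_ℂ) - φ n X‖ ≤ _
    rw [e]
    have hs2 : Summable (fun k => ‖z‖ * ‖ζ (k + n)‖ ^ 2) :=
      ((summable_nat_add_iff n).2 hζ).mul_left _
    have hb : ∀ k, ‖⟪ζ (k + n), X (ζ (k + n))⟫_ℂ‖ ≤ ‖z‖ * ‖ζ (k + n)‖ ^ 2 := by
      intro k
      calc ‖⟪ζ (k + n), X (ζ (k + n))⟫_ℂ‖ ≤ ‖ζ (k + n)‖ * ‖X (ζ (k + n))‖ :=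
            norm_inner_le_norm _ _
        _ ≤ ‖ζ (k + n)‖ * (‖z‖ * ‖ζ (k + n)‖) := by
            refine mul_le_mul_of_nonneg_left ?_ (norm_nonneg _)
            exact (X.le_opNorm _).trans (mul_le_mul_of_nonneg_right hn (norm_nonneg _))
        _ = ‖z‖ * ‖ζ (k + n)‖ ^ 2 := by ring
    have hs3 : Summable (fun k => ‖⟪ζ (k + n), X (ζ (k + n))⟫_ℂ‖) :=
      Summable.of_nonneg_of_le (fun k => norm_nonneg _) hb hs2
    refine (norm_tsum_le_tsum_norm hs3).trans ?_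
    refine (hs3.tsum_le_tsum hb hs2).trans (le_of_eq ?_)
    rw [tsum_mul_left]
  have hφ : ∀ n, ‖φ n (E z) - T.τ ⟨z, hz⟩‖ ≤ ‖z‖ * t n := by
    intro n
    have hb1 : ∀ k, BddC (fun g => ⟪ζ k, F g (ζ k)⟫_ℂ) := by
      intro k
      refine ⟨‖ζ k‖ * (‖z‖ * ‖ζ k‖), fun g => ?_⟩
      refine (norm_inner_le_norm _ _).trans (mul_le_mul_of_nonneg_left ?_ (norm_nonneg _))
      exact ((F g).le_opNorm _).trans (mul_le_mul_of_nonneg_right (nF g) (norm_nonneg _))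
    have hsum : ∀ n, BddC (fun g => φ n (F g)) ∧ cm (fun g => φ n (F g)) = φ n (E z) := by
      intro n
      induction n with
      | zero =>
        refine ⟨⟨0, fun g => by simp [φ]⟩, ?_⟩
        have : (fun g => φ 0 (F g)) = fun _ => (0 : ℂ) := by
          funext g
          simp [φ]
        rw [this, hcm.const]
        simp [φ]
      | succ n ih =>
        have e1 : (fun g => φ (n + 1) (F g)) = fun g => φ n (F g) + ⟪ζ n, F g (ζ n)⟫_ℂ := by
          funext g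
          exact Finset.sum_range_succ _ _
        obtain ⟨⟨C, hC⟩, ih2⟩ := ih
        obtain ⟨D, hD⟩ := hb1 n
        constructor
        · rw [e1]
          exact ⟨C + D, fun g => (norm_add_le _ _).trans (add_le_add (hC g) (hD g))⟩
        · rw [e1, hcm.add _ _ ⟨C, hC⟩ ⟨D, hD⟩, ih2, ← hE z (ζ n) (ζ n)]
          exact (Finset.sum_range_succ _ _).symm
    have e : φ n (E z) - T.τ ⟨z, hz⟩ = cm (fun g => φ n (F g) + (-1) * T.τ ⟨z, hz⟩) := by
      rw [hcm.add _ _ (hsum n).1 ⟨‖(-1) * T.τ ⟨z, hz⟩‖, fun _ => le_rfl⟩, (hsum n).2, hcm.const]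
      ring
    rw [e]
    apply hcm.bound
    intro g
    have e2 : φ n (F g) + (-1) * T.τ ⟨z, hz⟩ = - (T.τ ⟨F g, FN g⟩ - φ n (F g)) := by
      rw [hFτ]
      ring
    rw [e2, norm_neg]
    exact htail n (F g) (FN g) (nF g)
  have hfin : ∀ n, ‖T.τ ⟨E z, hEN z hz⟩ - T.τ ⟨z, hz⟩‖ ≤ 2 * ‖z‖ * t n := by
    intro n
    have e : T.τ ⟨E z, hEN z hz⟩ - T.τ ⟨z, hz⟩ = (T.τ ⟨E z, hEN z hz⟩ - φ n (E z)) +
        (φ n (E z) - T.τ ⟨z, hz⟩) := by ring
    rw [e]
    refine (norm_add_le _ _).trans ?_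
    have h1 := htail n (E z) (hEN z hz) nE
    have h2 := hφ n
    linarith
  have h0 : Filter.Tendsto (fun n => 2 * ‖z‖ * t n) Filter.atTop (𝓝 0) := by
    have := ht.const_mul (2 * ‖z‖)
    rwa [mul_zero] at this
  have h3 : ‖T.τ ⟨E z, hEN z hz⟩ - T.τ ⟨z, hz⟩‖ ≤ 0 :=
    ge_of_tendsto h0 (Filter.Eventually.of_forall hfin)
  exact sub_eq_zero.1 (norm_le_zero_iff.1 h3)

end state

/-- Replacing the projections by commuting ones. -/
theorem rotate {M : VonNeumannAlgebra H} (T : TracialState M) (hMc : HasTrivialCenter M)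
    (hMd : IsDiffuse M) {n : ℕ} (ξ : Fin n → H) (p : Fin n → Elt M)
    (h : IsModFamily M T.τ ξ p) :
    ∃ (ξ' : Fin n → H) (r : Fin n → Elt M), IsModFamily M T.τ ξ' r ∧
      (∀ i j, r i * r j = r j * r i) ∧ ∀ i, T.τ (r i) = T.τ (p i) := by
  have hA := trAlg T
  obtain ⟨D, -, hDc, hD⟩ := lyapProp T hMd ∅ (by simp) (by simp)
  have hr : ∀ i, ∃ r ∈ D, star r = r ∧ r * r = r ∧ T.τ r = T.τ (p i) := by
    intro i
    obtain ⟨ht, ht0⟩ := tau_proj T (p i) (h.star_eq i) (h.idem i)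
    obtain ⟨ht', ht1⟩ := tau_proj T (1 - p i) (by rw [star_sub, star_one, h.star_eq]) (by
      calc (1 - p i) * (1 - p i) = 1 - p i - p i + p i * p i := by noncomm_ring
        _ = 1 - p i := by rw [h.idem]; abel)
    rw [map_sub, T.map_one, Complex.sub_re, Complex.one_re] at ht1
    set t : ℝ := (T.τ (p i)).re
    obtain ⟨q, hqD, hq, hqτ⟩ := hD (Fin 2) (Fin 1) ![((t : ℝ) : ℂ) • (1 : Elt M),
      ((1 - t : ℝ) : ℂ) • (1 : Elt M)] (fun _ => 1) (by
        intro j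
        fin_cases j
        · exact D.smul_mem (one_mem D) _
        · exact D.smul_mem (one_mem D) _) (by
        intro j
        fin_cases j
        · exact pos_proj (star_one _) (mul_one _) _ ht0
        · exact pos_proj (star_one _) (mul_one _) _ ht1) (by
        rw [Fin.sum_univ_two]
        show ((t : ℝ) : ℂ) • (1 : Elt M) + ((1 - t : ℝ) : ℂ) • (1 : Elt M) = 1
        rw [← add_smul]
        push_cast
        rw [add_sub_cancel, one_smul])
    refine ⟨q 0, hqD 0, hq.star_eq 0, hq.idem 0, ?_⟩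
    have := hqτ 0 0
    change T.τ (q 0 * 1) = T.τ ((((t : ℝ) : ℂ) • (1 : Elt M)) * 1) at this
    rw [mul_one, mul_one, map_smul, T.map_one, smul_eq_mul, mul_one] at this
    rw [this, ht]
  choose r hrD hrs hrr hrτ using hr
  have hv : ∀ i, ∃ v : Elt M, star v * v = p i ∧ v * star v = r i := fun i =>
    exists_equiv T hMc (p i) (r i) (h.star_eq i) (h.idem i) (hrs i) (hrr i) (hrτ i).symm
  choose v hv1 hv2 using hv
  have hvp : ∀ i, v i * p i = v i := fun i =>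
    hA.partial_right (h.star_eq i) (h.idem i) (hv1 i)
  refine ⟨fun i => (v i : H →L[ℂ] H) (ξ i), r, ⟨hrs, hrr, ?_, ?_⟩,
    fun i j => hDc _ (hrD i) _ (hrD j), hrτ⟩
  · intro i x
    have h1 : ⟪(v i : H →L[ℂ] H) (ξ i), (x : H →L[ℂ] H) ((v i : H →L[ℂ] H) (ξ i))⟫_ℂ =
        ⟪ξ i, ((star (v i) * x * v i : Elt M) : H →L[ℂ] H) (ξ i)⟫_ℂ := by
      rw [inner_star]
      rfl
    rw [h1, h.diag]
    calc T.τ (star (v i) * x * v i * p i) = T.τ (star (v i) * (x * (v i * p i))) := by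
          simp only [mul_assoc]
      _ = T.τ (star (v i) * (x * v i)) := by rw [hvp]
      _ = T.τ (x * v i * star (v i)) := T.tracial _ _
      _ = T.τ (x * r i) := by rw [mul_assoc, hv2]
  · intro i j hij x
    have h1 : ⟪(v i : H →L[ℂ] H) (ξ i), (x : H →L[ℂ] H) ((v j : H →L[ℂ] H) (ξ j))⟫_ℂ =
        ⟪ξ i, ((star (v i) * x * v j : Elt M) : H →L[ℂ] H) (ξ j)⟫_ℂ := by
      rw [inner_star]
      rfl
    rw [h1, h.orth i j hij]

/-- The basic property of the constants of nearness of commutants. -/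
def NearConst (K : ℝ) : Prop := 1 ≤ K ∧ ∀ (H : Type) [NormedAddCommGroup H]
    [InnerProductSpace ℂ H] [CompleteSpace H] (M N : VonNeumannAlgebra H) (γ : ℝ),
    0 < γ → Near γ M N → Near (K * γ) N.commutant M.commutant

/-- Transfer of families between close factors. -/
theorem transfer {K : ℝ} (hK : NearConst K) {γ : ℝ} (hγ0 : 0 < γ)
    (hγ : 449 * (449 * K * γ) ≤ 1 / 768) (M N : VonNeumannAlgebra H) (TM : TracialState M)
    (TN : TracialState N) (hMc : HasTrivialCenter M) (hMd : IsDiffuse M) (hMN : Near γ M N)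
    (hNM : Near γ N M) {n : ℕ} (ξ₀ : Fin n → H) (p₀ : Fin n → Elt M)
    (h₀ : IsModFamily M TM.τ ξ₀ p₀) :
    ∃ (η : Fin n → H) (q : Fin n → Elt N), IsModFamily N TN.τ η q ∧
      ∀ i, TN.τ (q i) = TM.τ (p₀ i) := by
  obtain ⟨hK1, hK⟩ := hK
  obtain ⟨ξ, r, h, hrc, hrτ⟩ := rotate TM hMc hMd ξ₀ p₀ h₀
  have hv : ∀ i, IsVec TM (ξ i) (r i) := fun i => ⟨h.star_eq i, h.idem i, h.diag i⟩
  -- constants
  have hKγ : γ ≤ K * γ := by nlinarith
  have hγ1 : 449 * (K * γ) ≤ 1 / 768 := by nlinarith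
  have hγ2 : 449 * γ ≤ 1 / 768 := by nlinarith
  -- a masa of `M`
  obtain ⟨A, hAM, hA, hAmax, hrA⟩ := exists_masaVN M (Set.range fun i => (r i : H →L[ℂ] H))
    (by rintro _ ⟨i, rfl⟩; exact (r i).2)
    (by
      rintro _ ⟨i, rfl⟩
      exact ⟨i, (congrArg Subtype.val (h.star_eq i)).symm⟩)
    (by
      rintro _ ⟨i, rfl⟩ _ ⟨j, rfl⟩
      exact congrArg Subtype.val (hrc i j))
  have hrA' : ∀ i, (r i : H →L[ℂ] H) ∈ A := fun i => hrA _ ⟨i, rfl⟩
  -- elements of `A` commute with the projections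
  have hac : ∀ (a : Elt M), (a : H →L[ℂ] H) ∈ A → ∀ i, a * r i = r i * a := fun a ha i =>
    Subtype.ext (hA _ ha _ (hrA' i))
  -- first conjugation
  obtain ⟨u₁, hu1, hu1', hu1n, hu1N, -⟩ := conj_into A N hA γ (by linarith)
    (fun x hx hx1 => hMN x (hAM x hx) hx1)
  let N₁ : VonNeumannAlgebra H := conjVN u₁ hu1 hu1' N
  have hAN1 : ∀ a ∈ A, a ∈ N₁ := fun a ha => hu1N a ha
  have hMN1 : Near (γ + 4 * (112 * γ)) M N₁ :=
    near_conj_right (by linarith) u₁ hu1 hu1' hu1n hMN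
  have hNM1 : Near (γ + 4 * (112 * γ)) N₁ M := near_conj_left u₁ hu1 hu1' hu1n hNM
  have e449 : γ + 4 * (112 * γ) = 449 * γ := by ring
  rw [e449] at hMN1 hNM1
  have hcomm : Near (K * (449 * γ)) M.commutant N₁.commutant :=
    hK H N₁ M (449 * γ) (by linarith) hNM1
  -- a masa of the commutant
  let S : Set (H →L[ℂ] H) := {R | ∃ (i : Fin n) (a : Elt M), (a : H →L[ℂ] H) ∈ A ∧
    R = Rop M (ξ i) a}
  obtain ⟨B, hBM, hB, -, hSB⟩ := exists_masaVN M.commutant S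
    (by
      rintro _ ⟨i, a, ha, rfl⟩
      exact Rop_comm (hv i) (hac a ha i))
    (by
      rintro _ ⟨i, a, ha, rfl⟩
      exact ⟨i, star a, star_mem ha, Rop_star (hv i) (hac a ha i)⟩)
    (by
      rintro _ ⟨i, a, ha, rfl⟩ _ ⟨j, b, hb, rfl⟩
      rcases eq_or_ne i j with rfl | hij
      · refine cyc_ext (M := M) (ξ := ξ i) (by rw [mul_assoc, Rop_Pc]) (by rw [mul_assoc, Rop_Pc])
          ?_
        intro x
        show Rop M (ξ i) a (Rop M (ξ i) b ((x : H →L[ℂ] H) (ξ i))) =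
          Rop M (ξ i) b (Rop M (ξ i) a ((x : H →L[ℂ] H) (ξ i)))
        rw [Rop_mul (hv i) (hac a ha i) (hac b hb i), Rop_mul (hv i) (hac b hb i) (hac a ha i)]
        have : b * a = a * b := Subtype.ext (hA _ hb _ ha)
        rw [this]
      · rw [← Rop_Pc (ξ i) a, ← Pc_Rop (hv j) (hac b hb j), ← Rop_Pc (ξ j) b,
          ← Pc_Rop (hv i) (hac a ha i)]
        have e1 : Pc M (ξ i) * Rop M (ξ i) a * Pc M (ξ i) * (Pc M (ξ j) *
            (Rop M (ξ j) b * Pc M (ξ j))) = Pc M (ξ i) * Rop M (ξ i) a * (Pc M (ξ i) *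
            Pc M (ξ j)) * (Rop M (ξ j) b * Pc M (ξ j)) := by noncomm_ring
        have e2 : Pc M (ξ j) * (Rop M (ξ j) b * Pc M (ξ j)) * (Pc M (ξ i) * Rop M (ξ i) a *
            Pc M (ξ i)) = Pc M (ξ j) * Rop M (ξ j) b * (Pc M (ξ j) * Pc M (ξ i)) *
            Rop M (ξ i) a * Pc M (ξ i) := by noncomm_ring
        rw [e1, e2, Pc_mul_orth (h.orth i j hij), Pc_mul_orth (h.orth j i hij.symm)]
        simp)
  have hSB' : ∀ i (a : Elt M), (a : H →L[ℂ] H) ∈ A → Rop M (ξ i) a ∈ B := fun i a ha =>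
    hSB _ ⟨i, a, ha, rfl⟩
  -- second conjugation
  obtain ⟨u₂, hu2, hu2', hu2n, hu2N, hu2c⟩ := conj_into B N₁.commutant hB (K * (449 * γ))
    (by linarith) (fun x hx hx1 => hcomm x (hBM x hx) hx1)
  let N₂ : VonNeumannAlgebra H := conjVN u₂ hu2 hu2' N₁
  have hMN2 := near_conj_right (by linarith) u₂ hu2 hu2' hu2n hMN1
  have hNM2 := near_conj_left u₂ hu2 hu2' hu2n hNM1
  have hγ3 : 449 * γ + 4 * (112 * (K * (449 * γ))) ≤ 1 / 768 := by nlinarith
  have hAN2 : ∀ a ∈ A, a ∈ N₂ := by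
    intro a ha
    show u₂ * a * star u₂ ∈ N₁
    have h1 : u₂ * a = a * u₂ := by
      refine hu2c a ?_ ?_
      · rw [mem_comm_iff]
        intro b hb
        exact (comm_of_mem M (hAM a ha) (hBM b hb)).symm
      · rw [VonNeumannAlgebra.commutant_commutant]
        exact hAN1 a ha
    rw [h1, mul_assoc, hu2', mul_one]
    exact hAN1 a ha
  have hBN2 : ∀ b ∈ B, b ∈ N₂.commutant := fun b hb =>
    mem_comm_conjVN u₂ hu2 hu2' N₁ b (hu2N b hb)
  -- the masa property and the traces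
  have hmax2 := masa_of_near A M N₂ hA hAM hAN2 hAmax (by linarith) hNM2
  let T₁ : TracialState N₁ := conjState u₁ hu1 hu1' TN
  let T₂ : TracialState N₂ := conjState u₂ hu2 hu2' T₁
  have hτA : ∀ (x : H →L[ℂ] H) (hx : x ∈ A), TM.τ ⟨x, hAM x hx⟩ = T₂.τ ⟨x, hAN2 x hx⟩ :=
    fun x hx => trace_eq_abelian M N₂ A TM T₂ hMc hMd hγ3 hMN2 hA hAM hAN2 x hx
  obtain ⟨cm, E, hcm, hE, hEM, hEA, hEd, hEmul⟩ := exists_avg A hA
  have hEN : ∀ z ∈ N₂, E z ∈ N₂ := hEM N₂ hAN2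
  have hEA' : ∀ z ∈ N₂, E z ∈ A := fun z hz => hmax2 _ (hEN z hz) (fun y hy =>
    (comm_of_mem A hy (hEA z)).symm)
  -- the family for `N₂`
  have hfam : IsModFamily N₂ T₂.τ ξ (fun i => ⟨(r i : H →L[ℂ] H), hAN2 _ (hrA' i)⟩) := by
    refine ⟨fun i => ?_, fun i => ?_, ?_, ?_⟩
    · have e : star (r i : H →L[ℂ] H) = r i := congrArg Subtype.val (h.star_eq i)
      exact Subtype.ext e
    · have e : (r i : H →L[ℂ] H) * r i = r i := congrArg Subtype.val (h.idem i)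
      exact Subtype.ext e
    · intro i x
      letI := ucg A hA
      -- invariance
      have hinv : ∀ g : unitary A.toStarSubalgebra,
          ⟪ξ i, (((g : A.toStarSubalgebra) : H →L[ℂ] H) * (x : H →L[ℂ] H) *
            star ((g : A.toStarSubalgebra) : H →L[ℂ] H)) (ξ i)⟫_ℂ =
          ⟪ξ i, (x : H →L[ℂ] H) (ξ i)⟫_ℂ := by
        intro g
        let u : Elt M := ⟨((g : A.toStarSubalgebra) : H →L[ℂ] H), hAM _ g.1.2⟩
        have huA : (u : H →L[ℂ] H) ∈ A := g.1.2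
        have huA' : ((star u : Elt M) : H →L[ℂ] H) ∈ A := star_mem huA
        have ul : star u * u = 1 := Subtype.ext (congrArg
          (fun z : A.toStarSubalgebra => (z : H →L[ℂ] H)) (Unitary.coe_star_mul_self g))
        let R : H →L[ℂ] H := Rop M (ξ i) (star u)
        have hR1 : (star (u : H →L[ℂ] H)) (ξ i) = R (ξ i) := by
          have := Rop_apply (hv i) (hac (star u) huA' i) 1
          rw [one_mul] at this
          exact this.symm
        have hRB : R ∈ N₂.commutant := hBN2 _ (hSB' i _ huA')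
        have hRR : star R * R = Pc M (ξ i) := by
          have hRs : star R = Rop M (ξ i) u := by
            have := Rop_star (hv i) (hac (star u) huA' i)
            rwa [star_star] at this
          rw [hRs]
          refine cyc_ext (M := M) (ξ := ξ i) (by rw [mul_assoc, Rop_Pc]) (Pc_idem _) ?_
          intro y
          show Rop M (ξ i) u (Rop M (ξ i) (star u) ((y : H →L[ℂ] H) (ξ i))) =
            Pc M (ξ i) ((y : H →L[ℂ] H) (ξ i))
          rw [Rop_mul (hv i) (hac u huA i) (hac (star u) huA' i), ul, mul_one,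
            Pc_of_mem (mem_cyc y _)]
        calc ⟪ξ i, ((u : H →L[ℂ] H) * (x : H →L[ℂ] H) * star (u : H →L[ℂ] H)) (ξ i)⟫_ℂ =
            ⟪ξ i, (u : H →L[ℂ] H) ((x : H →L[ℂ] H) (star (u : H →L[ℂ] H) (ξ i)))⟫_ℂ := rfl
          _ = ⟪R (ξ i), (x : H →L[ℂ] H) (R (ξ i))⟫_ℂ := by rw [inner_star', hR1]
          _ = ⟪R (ξ i), R ((x : H →L[ℂ] H) (ξ i))⟫_ℂ := by
              have := congrArg (fun S : H →L[ℂ] H => S (ξ i)) (comm_of_mem N₂ x.2 hRB)
              have h2 : (x : H →L[ℂ] H) (R (ξ i)) = R ((x : H →L[ℂ] H) (ξ i)) := this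
              rw [h2]
          _ = ⟪ξ i, (star R * R) ((x : H →L[ℂ] H) (ξ i))⟫_ℂ := by
              rw [inner_star]
              rfl
          _ = ⟪ξ i, (x : H →L[ℂ] H) (ξ i)⟫_ℂ := by
              rw [hRR, inner_star', Pc_star, Pc_self]
      have h1 : ⟪ξ i, E (x : H →L[ℂ] H) (ξ i)⟫_ℂ = ⟪ξ i, (x : H →L[ℂ] H) (ξ i)⟫_ℂ := by
        rw [hE]
        have : (fun g : unitary A.toStarSubalgebra =>
            ⟪ξ i, (((g : A.toStarSubalgebra) : H →L[ℂ] H) * (x : H →L[ℂ] H) *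
              star ((g : A.toStarSubalgebra) : H →L[ℂ] H)) (ξ i)⟫_ℂ) = fun _ =>
            ⟪ξ i, (x : H →L[ℂ] H) (ξ i)⟫_ℂ := funext hinv
        rw [this, hcm.const]
      rw [← h1]
      have hEx : E (x : H →L[ℂ] H) ∈ A := hEA' _ x.2
      have h2 := h.diag i ⟨E (x : H →L[ℂ] H), hAM _ hEx⟩
      refine h2.trans ?_
      have hm : E (x : H →L[ℂ] H) * (r i : H →L[ℂ] H) ∈ A := mul_mem hEx (hrA' i)
      have e1 : (⟨E (x : H →L[ℂ] H), hAM _ hEx⟩ * r i : Elt M) =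
          ⟨E (x : H →L[ℂ] H) * (r i : H →L[ℂ] H), hAM _ hm⟩ := rfl
      rw [e1, hτA _ hm]
      have hrc' : (r i : H →L[ℂ] H) ∈ A.commutant := by
        rw [mem_comm_iff]
        intro y hy
        exact hA _ hy _ (hrA' i)
      have hxr : (x : H →L[ℂ] H) * (r i : H →L[ℂ] H) ∈ N₂ := mul_mem x.2 (hAN2 _ (hrA' i))
      have e2 : (⟨E (x : H →L[ℂ] H) * (r i : H →L[ℂ] H), hAN2 _ hm⟩ : Elt N₂) =
          ⟨E ((x : H →L[ℂ] H) * (r i : H →L[ℂ] H)), hEN _ hxr⟩ :=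
        Subtype.ext (hEmul _ _ hrc').symm
      rw [e2]
      exact tau_avg T₂ A hA hAN2 hcm hE hEN hEd _ hxr
    · intro i j hij x
      have hone : ((1 : Elt M) : H →L[ℂ] H) ∈ A := one_mem A
      have hPR : Pc M (ξ i) = Rop M (ξ i) 1 := by
        refine cyc_ext (M := M) (ξ := ξ i) (Pc_idem _) (Rop_Pc _ _) ?_
        intro y
        rw [Rop_apply (hv i) (hac 1 hone i), mul_one, Pc_of_mem (mem_cyc y _)]
      have hPB : Pc M (ξ i) ∈ N₂.commutant := by
        rw [hPR]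
        exact hBN2 _ (hSB' i 1 hone)
      have h1 : Pc M (ξ i) (ξ j) = 0 := by
        have := congrArg (fun S : H →L[ℂ] H => S (ξ j)) (Pc_mul_orth (h.orth i j hij))
        have h2 : Pc M (ξ i) (Pc M (ξ j) (ξ j)) = 0 := this
        rwa [Pc_self] at h2
      have h3 : (x : H →L[ℂ] H) (Pc M (ξ i) (ξ j)) = Pc M (ξ i) ((x : H →L[ℂ] H) (ξ j)) :=
        congrArg (fun S : H →L[ℂ] H => S (ξ j)) (comm_of_mem N₂ x.2 hPB)
      calc ⟪ξ i, (x : H →L[ℂ] H) (ξ j)⟫_ℂ = ⟪Pc M (ξ i) (ξ i), (x : H →L[ℂ] H) (ξ j)⟫_ℂ := by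
            rw [Pc_self]
        _ = ⟪ξ i, Pc M (ξ i) ((x : H →L[ℂ] H) (ξ j))⟫_ℂ := by rw [inner_star, Pc_star]
        _ = 0 := by rw [← h3, h1, map_zero, inner_zero_right]
  obtain ⟨η₁, q₁, hq₁, hτ₁⟩ := family_conj u₂ hu2 hu2' T₁ ξ _ hfam
  obtain ⟨η, q, hq, hτ⟩ := family_conj u₁ hu1 hu1' TN η₁ q₁ hq₁
  refine ⟨η, q, hq, fun i => ?_⟩
  rw [hτ, ← hrτ]
  refine (hτ₁ i).trans ?_
  exact (hτA _ (hrA' i)).symm

/-- Close unit balls. -/
lemma near_of_kkDist {M N : VonNeumannAlgebra H} {δ : ℝ} (h : kkDist M N < δ) :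
    Near δ M N ∧ Near δ N M := by
  have bdd : ∀ M : VonNeumannAlgebra H,
      Bornology.IsBounded {x : H →L[ℂ] H | x ∈ M ∧ ‖x‖ ≤ 1} := by
    intro M
    refine (Metric.isBounded_closedBall (x := (0 : H →L[ℂ] H)) (r := 1)).subset ?_
    rintro x ⟨-, hx⟩
    rw [mem_closedBall_zero_iff]
    exact hx
  have ne : ∀ M : VonNeumannAlgebra H, {x : H →L[ℂ] H | x ∈ M ∧ ‖x‖ ≤ 1}.Nonempty := fun M =>
    ⟨0, zero_mem M, by simp⟩
  have hfin := Metric.hausdorffEDist_ne_top_of_nonempty_of_bounded (ne M) (ne N) (bdd M) (bdd N)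
  constructor
  · intro x hx hx1
    have hx' : x ∈ {x : H →L[ℂ] H | x ∈ M ∧ ‖x‖ ≤ 1} := ⟨hx, hx1⟩
    obtain ⟨y, hy, hd⟩ := Metric.exists_dist_lt_of_hausdorffDist_lt hx' h hfin
    exact ⟨y, hy.1, by rw [← dist_eq_norm]; exact hd.le⟩
  · intro x hx hx1
    have hx' : x ∈ {x : H →L[ℂ] H | x ∈ N ∧ ‖x‖ ≤ 1} := ⟨hx, hx1⟩
    obtain ⟨y, hy, hd⟩ := Metric.exists_dist_lt_of_hausdorffDist_lt' hx' h hfin
    exact ⟨y, hy.1, by rw [← dist_eq_norm, dist_comm]; exact hd.le⟩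

/-- Close II₁ factors have the same coupling constant. -/
theorem main : ∃ δ : ℝ, 0 < δ ∧ ∀ (H : Type) [NormedAddCommGroup H] [InnerProductSpace ℂ H]
    [CompleteSpace H] (M N : VonNeumannAlgebra H) (τM : Elt M → ℂ) (τN : Elt N → ℂ),
    IsIIOneFactor M τM → IsIIOneFactor N τN → kkDist M N < δ → dimM M τM = dimM N τN := by
  obtain ⟨K, hK⟩ := exists_near_of_near
  have hK0 : 0 < K := by linarith [hK.1]
  refine ⟨1 / (768 * (449 * (449 * K))), by positivity, ?_⟩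
  intro H _ _ _ M N τM τN hM hN hd
  set δ : ℝ := 1 / (768 * (449 * (449 * K))) with hδ
  have hδ0 : 0 < δ := by positivity
  have hδ1 : 449 * (449 * K * δ) ≤ 1 / 768 := by
    rw [hδ]
    field_simp
    norm_num
  have key : ∀ (M N : VonNeumannAlgebra H) (τM : Elt M → ℂ) (τN : Elt N → ℂ),
      IsIIOneFactor M τM → IsIIOneFactor N τN → Near δ M N → Near δ N M →
      dimM M τM ≤ dimM N τN := by
    intro M N τM τN hM hN h1 h2
    refine iSup_le fun n => iSup_le fun ξ => iSup_le fun p => iSup_le fun hp => ?_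
    let TM := mkState M τM hM.normal hM.trace
    let TN := mkState N τN hN.normal hN.trace
    obtain ⟨η, q, hq, hτ⟩ := transfer hK hδ0 hδ1 M N TM TN hM.center
      (diffuse_of_factor TM hM.center hM.infinite) h1 h2 ξ p hp
    have e : ∑ i, ENNReal.ofReal (τM (p i)).re = ∑ i, ENNReal.ofReal (τN (q i)).re := by
      refine Finset.sum_congr rfl fun i _ => ?_
      have : τN (q i) = τM (p i) := hτ i
      rw [this]
    rw [e]
    exact le_iSup_of_le n (le_iSup_of_le η (le_iSup_of_le q (le_iSup_of_le hq le_rfl)))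
  obtain ⟨h1, h2⟩ := near_of_kkDist hd
  exact le_antisymm (key M N τM τN hM hN h1 h2) (key N M τN τM hN hM h2 h1)

end Pool.Agent.R298.CC
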